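import Mathlib

open scoped ENNReal NNReal
open MeasureTheory Set

noncomputable section

namespace Pool.Agent.Helper3.Anderson

/-- `∫_{|t-c|<1} |t-c|^{-1/2} dt = 4` -/
theorem lintegral_abs_rpow (c : ℝ) :
    ∫⁻ t in Ioo (c - 1) (c + 1), ENNReal.ofReal (|t - c| ^ (-(1/2 : ℝ))) ≤ 4 := by
  have h0 : ∀ f : ℝ → ℝ≥0∞, ∫⁻ t in Ioo (c - 1) (c + 1), f t
      = ∫⁻ t in Ioo (-1 : ℝ) 1, f (t + c) := by
    intro f
    have := (measurePreserving_add_right volume c).setLIntegral_comp_preimage_emb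
      (MeasurableEquiv.addRight c).measurableEmbedding f (Ioo (c - 1) (c + 1))
    rw [← this]
    congr 2
    ext t; simp
  rw [h0]
  simp only [add_sub_cancel_right]
  have hint : ∫⁻ t in Ioo (0 : ℝ) 1, ENNReal.ofReal (|t| ^ (-(1/2 : ℝ))) ≤ 2 := by
    have h1 : ∫⁻ t in Ioo (0 : ℝ) 1, ENNReal.ofReal (|t| ^ (-(1/2 : ℝ)))
        = ∫⁻ t in Ioo (0 : ℝ) 1, ENNReal.ofReal (t ^ (-(1/2 : ℝ))) := by
      refine setLIntegral_congr_fun measurableSet_Ioo fun t ht => ?_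
      rw [abs_of_pos ht.1]
    have hI : IntervalIntegrable (fun t : ℝ => t ^ (-(1/2 : ℝ))) volume 0 1 :=
      intervalIntegral.intervalIntegrable_rpow' (by norm_num)
    have hI2 : IntegrableOn (fun t : ℝ => t ^ (-(1/2 : ℝ))) (Ioo 0 1) volume := by
      rw [intervalIntegrable_iff_integrableOn_Ioo_of_le (by norm_num)] at hI
      exact hI
    rw [h1, ← ofReal_integral_eq_lintegral_ofReal hI2]
    · rw [← integral_Ioc_eq_integral_Ioo, ← intervalIntegral.integral_of_le (by norm_num),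
        integral_rpow (by left; norm_num)]
      norm_num
    · refine (ae_restrict_mem measurableSet_Ioo).mono fun t ht => ?_
      exact Real.rpow_nonneg ht.1.le _
  have hneg : ∫⁻ t in Ioo (-1 : ℝ) 0, ENNReal.ofReal (|t| ^ (-(1/2 : ℝ)))
      = ∫⁻ t in Ioo (0 : ℝ) 1, ENNReal.ofReal (|t| ^ (-(1/2 : ℝ))) := by
    have := (Measure.measurePreserving_neg (volume : Measure ℝ)).setLIntegral_comp_preimage_emb
      (MeasurableEquiv.neg ℝ).measurableEmbedding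
      (fun t => ENNReal.ofReal (|t| ^ (-(1/2 : ℝ)))) (Ioo (0 : ℝ) 1)
    rw [← this]
    simp
  have hsplit : ∫⁻ t in Ioo (-1 : ℝ) 1, ENNReal.ofReal (|t| ^ (-(1/2 : ℝ)))
      ≤ (∫⁻ t in Ioo (-1 : ℝ) 0, ENNReal.ofReal (|t| ^ (-(1/2 : ℝ))))
        + ((∫⁻ t in ({0} : Set ℝ), ENNReal.ofReal (|t| ^ (-(1/2 : ℝ))))
        + ∫⁻ t in Ioo (0 : ℝ) 1, ENNReal.ofReal (|t| ^ (-(1/2 : ℝ)))) := by
    refine (lintegral_mono_set (t := Ioo (-1 : ℝ) 0 ∪ ({0} ∪ Ioo (0 : ℝ) 1)) ?_).trans ?_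
    · intro t ht
      rcases lt_trichotomy t 0 with h | h | h
      · left; exact ⟨ht.1, h⟩
      · right; left; exact h
      · right; right; exact ⟨h, ht.2⟩
    · refine (lintegral_union_le _ _ _).trans ?_
      gcongr
      exact lintegral_union_le _ _ _
  refine hsplit.trans ?_
  rw [hneg]
  have hz : ∫⁻ t in ({0} : Set ℝ), ENNReal.ofReal (|t| ^ (-(1/2 : ℝ))) = 0 := by
    rw [Measure.restrict_zero_set (by simp)]; simp
  rw [hz, zero_add]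
  calc _ ≤ (2 : ℝ≥0∞) + 2 := by gcongr
    _ = 4 := by norm_num

/-- A probability law `μ` on `ℝ` with density at most `K` and supported in `[-M, M]`. -/
structure GoodLaw (μ : Measure ℝ) (M : ℝ) (K : ℝ≥0) : Prop where
  one_le : 1 ≤ M
  supp : μ (Icc (-M) M)ᶜ = 0
  dens : μ ≤ (K : ℝ≥0∞) • (volume : Measure ℝ)

/-- one-variable bound, real centre -/
theorem lintegral_center {μ : Measure ℝ} [IsProbabilityMeasure μ] {M : ℝ} {K : ℝ≥0}
    (hμ : GoodLaw μ M K) (c : ℝ) :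
    ∫⁻ t, (ENNReal.ofReal |t - c|) ^ (-(1/2 : ℝ)) ∂μ ≤ 1 + 4 * K := by
  have hsplit : ∫⁻ t, (ENNReal.ofReal |t - c|) ^ (-(1/2 : ℝ)) ∂μ
      ≤ ∫⁻ t in (Ioo (c - 1) (c + 1))ᶜ, (ENNReal.ofReal |t - c|) ^ (-(1/2 : ℝ)) ∂μ
        + ∫⁻ t in Ioo (c - 1) (c + 1), (ENNReal.ofReal |t - c|) ^ (-(1/2 : ℝ)) ∂μ := by
    rw [add_comm, lintegral_add_compl _ measurableSet_Ioo]
  refine hsplit.trans ?_
  refine add_le_add ?_ ?_
  · calc _ ≤ ∫⁻ t in (Ioo (c - 1) (c + 1))ᶜ, 1 ∂μ := by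
          refine setLIntegral_mono measurable_const fun t ht => ?_
          have h1 : 1 ≤ |t - c| := by
            by_contra hcon
            push Not at hcon
            rw [abs_lt] at hcon
            exact ht ⟨by linarith, by linarith⟩
          have h2 : (1 : ℝ≥0∞) ≤ ENNReal.ofReal |t - c| := by
            rw [← ENNReal.ofReal_one]; exact ENNReal.ofReal_le_ofReal h1
          rw [ENNReal.rpow_neg, ENNReal.inv_le_one]
          calc (1 : ℝ≥0∞) = 1 ^ (1/2 : ℝ) := by simp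
            _ ≤ _ := ENNReal.rpow_le_rpow h2 (by norm_num)
      _ ≤ 1 := by
          rw [lintegral_one, Measure.restrict_apply_univ]
          exact prob_le_one
  · calc _ ≤ ∫⁻ t in Ioo (c - 1) (c + 1), (ENNReal.ofReal |t - c|) ^ (-(1/2 : ℝ))
            ∂((K : ℝ≥0∞) • (volume : Measure ℝ)) :=
          lintegral_mono' (Measure.restrict_mono le_rfl hμ.dens) le_rfl
      _ = K * ∫⁻ t in Ioo (c - 1) (c + 1), (ENNReal.ofReal |t - c|) ^ (-(1/2 : ℝ)) := by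
          rw [Measure.restrict_smul, lintegral_smul_measure]; rfl
      _ = K * ∫⁻ t in Ioo (c - 1) (c + 1), ENNReal.ofReal (|t - c| ^ (-(1/2 : ℝ))) := by
          congr 1
          refine lintegral_congr_ae ?_
          have h0 : ∀ᵐ t ∂(volume.restrict (Ioo (c - 1) (c + 1))), t ≠ c :=
            ae_restrict_of_ae (by simp [ae_iff, measure_singleton])
          filter_upwards [h0] with t ht
          rw [ENNReal.ofReal_rpow_of_pos (abs_pos.2 (sub_ne_zero.2 ht))]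
      _ ≤ K * 4 := by gcongr; exact lintegral_abs_rpow c
      _ = 4 * K := mul_comm _ _

theorem enorm_rpow_neg_half_le {a b : ℂ} {r : ℝ} (hr : 0 ≤ r) (h : r * ‖b‖ ≤ ‖a‖) :
    ‖a‖ₑ ^ (-(1/2 : ℝ)) ≤ (ENNReal.ofReal r * ‖b‖ₑ) ^ (-(1/2 : ℝ)) := by
  rw [ENNReal.rpow_neg, ENNReal.rpow_neg, ENNReal.inv_le_inv]
  refine ENNReal.rpow_le_rpow ?_ (by norm_num)
  rw [← ofReal_norm, ← ofReal_norm, ← ENNReal.ofReal_mul hr]
  exact ENNReal.ofReal_le_ofReal h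

/-- the constant of the one-variable bound -/
def C1 (M : ℝ) (K : ℝ≥0) : ℝ≥0∞ := (ENNReal.ofReal (2 * M)) ^ (1/2 : ℝ) * (1 + 4 * K)

/-- one-variable bound: `∫ |α + tβ|^{-1/2} dμ(t) ≤ C₁ max(|α|,|β|)^{-1/2}` -/
theorem lintegral_affine {μ : Measure ℝ} [IsProbabilityMeasure μ] {M : ℝ} {K : ℝ≥0}
    (hμ : GoodLaw μ M K) (α β : ℂ) :
    ∫⁻ t, ‖α + (t : ℂ) * β‖ₑ ^ (-(1/2 : ℝ)) ∂μ ≤ C1 M K * (max ‖α‖ₑ ‖β‖ₑ) ^ (-(1/2 : ℝ)) := by
  have hM := hμ.one_le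
  have hM0 : (0 : ℝ) < M := by linarith
  have h2M : (1 : ℝ) ≤ 2 * M := by linarith
  have hae : ∀ᵐ t ∂μ, |t| ≤ M := by
    have : ∀ᵐ t ∂μ, t ∈ Icc (-M) M := by rw [ae_iff]; exact hμ.supp
    filter_upwards [this] with t ht
    exact abs_le.2 ht
  have hneg : ∀ x y : ℝ≥0∞, x ≤ y → y ^ (-(1/2 : ℝ)) ≤ x ^ (-(1/2 : ℝ)) := by
    intro x y hxy
    rw [ENNReal.rpow_neg, ENNReal.rpow_neg, ENNReal.inv_le_inv]
    exact ENNReal.rpow_le_rpow hxy (by norm_num)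
  have hfac : ∀ x : ℝ≥0∞, ((ENNReal.ofReal (2 * M))⁻¹ * x) ^ (-(1/2 : ℝ))
      = (ENNReal.ofReal (2 * M)) ^ (1/2 : ℝ) * x ^ (-(1/2 : ℝ)) := by
    intro x
    have hne : (ENNReal.ofReal (2 * M))⁻¹ ≠ 0 := ENNReal.inv_ne_zero.2 ENNReal.ofReal_ne_top
    by_cases hx0 : x = 0
    · subst hx0
      simp only [mul_zero]
      rw [ENNReal.zero_rpow_of_neg (by norm_num), ENNReal.mul_top]
      refine (ENNReal.rpow_pos ?_ ENNReal.ofReal_ne_top).ne'
      simp; linarith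
    · rw [ENNReal.mul_rpow_of_ne_zero hne hx0]
      congr 1
      rw [ENNReal.inv_rpow, ENNReal.rpow_neg, inv_inv]
  by_cases hcase : 2 * M * ‖β‖ ≤ ‖α‖
  · -- first case
    have h1 : ∀ t : ℝ, |t| ≤ M → ‖α + (t : ℂ) * β‖ₑ ^ (-(1/2 : ℝ))
        ≤ (ENNReal.ofReal (2 * M)) ^ (1/2 : ℝ) * ‖α‖ₑ ^ (-(1/2 : ℝ)) := by
      intro t ht
      rw [← hfac]
      refine hneg _ _ ?_
      rw [← ofReal_norm, ← ofReal_norm, ← ENNReal.ofReal_inv_of_pos (by linarith),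
        ← ENNReal.ofReal_mul (by positivity)]
      refine ENNReal.ofReal_le_ofReal ?_
      have h2 : ‖α‖ - ‖(t : ℂ) * β‖ ≤ ‖α + (t : ℂ) * β‖ := by
        have := norm_sub_norm_le α (-((t : ℂ) * β))
        rw [norm_neg, sub_neg_eq_add] at this
        exact this
      have h3 : ‖(t : ℂ) * β‖ ≤ ‖α‖ / 2 := by
        rw [norm_mul, Complex.norm_real, Real.norm_eq_abs]
        calc |t| * ‖β‖ ≤ M * ‖β‖ := by gcongr
          _ ≤ ‖α‖ / 2 := by linarith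
      have h4 : (2 * M)⁻¹ * ‖α‖ ≤ 1 / 2 * ‖α‖ := by
        gcongr
        rw [inv_le_comm₀ (by linarith) (by norm_num)]; norm_num; linarith
      linarith
    have hmax : max ‖α‖ₑ ‖β‖ₑ = ‖α‖ₑ := by
      refine max_eq_left ?_
      rw [← ofReal_norm, ← ofReal_norm]
      refine ENNReal.ofReal_le_ofReal ?_
      nlinarith [norm_nonneg β]
    rw [hmax]
    calc _ ≤ ∫⁻ _t, (ENNReal.ofReal (2 * M)) ^ (1/2 : ℝ) * ‖α‖ₑ ^ (-(1/2 : ℝ)) ∂μ := by
          refine lintegral_mono_ae ?_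
          filter_upwards [hae] with t ht using h1 t ht
      _ = (ENNReal.ofReal (2 * M)) ^ (1/2 : ℝ) * ‖α‖ₑ ^ (-(1/2 : ℝ)) := by
          rw [lintegral_const, measure_univ, mul_one]
      _ ≤ _ := by
          rw [C1]
          have : (1 : ℝ≥0∞) ≤ 1 + 4 * K := le_self_add
          calc _ = (ENNReal.ofReal (2 * M)) ^ (1/2 : ℝ) * 1 * ‖α‖ₑ ^ (-(1/2 : ℝ)) := by
                rw [mul_one]
            _ ≤ _ := by gcongr
  · push Not at hcase
    have hβ : 0 < ‖β‖ := by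
      by_contra hcon
      have : ‖β‖ = 0 := le_antisymm (not_lt.1 hcon) (norm_nonneg _)
      rw [this, mul_zero] at hcase
      exact absurd hcase (not_lt.2 (norm_nonneg _))
    have hβ' : β ≠ 0 := norm_pos_iff.1 hβ
    have hmax : (ENNReal.ofReal (2 * M))⁻¹ * max ‖α‖ₑ ‖β‖ₑ ≤ ‖β‖ₑ := by
      have hpos : ENNReal.ofReal (2 * M) ≠ 0 := by simp; linarith
      rw [mul_comm, ← div_eq_mul_inv, ENNReal.div_le_iff hpos ENNReal.ofReal_ne_top, mul_comm]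
      refine max_le ?_ ?_
      · rw [← ofReal_norm, ← ofReal_norm, ← ENNReal.ofReal_mul (by linarith)]
        exact ENNReal.ofReal_le_ofReal hcase.le
      · rw [← ofReal_norm, ← ENNReal.ofReal_mul (by linarith)]
        refine ENNReal.ofReal_le_ofReal ?_
        nlinarith
    have h1 : ∀ t : ℝ, ‖α + (t : ℂ) * β‖ₑ ^ (-(1/2 : ℝ))
        ≤ ‖β‖ₑ ^ (-(1/2 : ℝ)) * (ENNReal.ofReal |t - (-(α / β).re)|) ^ (-(1/2 : ℝ)) := by
      intro t
      have h2 : α + (t : ℂ) * β = β * (t + α / β) := by field_simp; ring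
      rw [h2, enorm_mul]
      rw [ENNReal.mul_rpow_of_ne_top enorm_ne_top enorm_ne_top]
      refine mul_le_mul' le_rfl (hneg _ _ ?_)
      rw [← ofReal_norm]
      refine ENNReal.ofReal_le_ofReal ?_
      have := Complex.abs_re_le_norm ((t : ℂ) + α / β)
      simpa using this
    calc _ ≤ ∫⁻ t, ‖β‖ₑ ^ (-(1/2 : ℝ)) * (ENNReal.ofReal |t - (-(α / β).re)|) ^ (-(1/2 : ℝ)) ∂μ :=
          lintegral_mono h1
      _ = ‖β‖ₑ ^ (-(1/2 : ℝ)) * ∫⁻ t, (ENNReal.ofReal |t - (-(α / β).re)|) ^ (-(1/2 : ℝ)) ∂μ := by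
          rw [lintegral_const_mul]
          fun_prop
      _ ≤ ‖β‖ₑ ^ (-(1/2 : ℝ)) * (1 + 4 * K) := by gcongr; exact lintegral_center hμ _
      _ ≤ ((ENNReal.ofReal (2 * M))⁻¹ * max ‖α‖ₑ ‖β‖ₑ) ^ (-(1/2 : ℝ)) * (1 + 4 * K) := by
          exact mul_le_mul' (hneg _ _ hmax) le_rfl
      _ = _ := by rw [hfac, C1]; ring

end Pool.Agent.Helper3.Anderson
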