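import Mathlib

/-!
# The Anderson model on `ℤ^d`: Green function and Lyapunov norm (definitions)
-/

open scoped ENNReal NNReal
open MeasureTheory Filter Topology

noncomputable section

namespace Pool.Agent.Helper3.Anderson

/-- The lattice `ℤ^d`. -/
abbrev Site (d : ℕ) : Type := Fin d → ℤ

/-- The nearest neighbour difference Laplacian
`(Δψ)(x) = ∑_{|y-x|₁ = 1} (ψ(y) - ψ(x))` on functions `ℤ^d → ℂ`. -/
def lap {d : ℕ} (ψ : Site d → ℂ) (x : Site d) : ℂ :=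
  ∑ j : Fin d, ((ψ (x + Pi.single j 1) - ψ x) + (ψ (x - Pi.single j 1) - ψ x))

/-- `ψ` is an `ℓ²` solution of `(-Δ + V - z) ψ = δ_y`, that is, `ψ = (-Δ + V - z)⁻¹ δ_y`. -/
def IsGreen {d : ℕ} (V : Site d → ℝ) (z : ℂ) (y : Site d) (ψ : Site d → ℂ) : Prop :=
  Memℓp ψ 2 ∧ ∀ x, -lap ψ x + V x * ψ x - z * ψ x = if x = y then 1 else 0

open Classical in
/-- The Green function `G(x, y; z) = ⟨δ_x, (-Δ + V - z)⁻¹ δ_y⟩`: the value at `x` of the `ℓ²`
solution of `(-Δ + V - z) ψ = δ_y` (and `0` if there is no such solution). -/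
def Green {d : ℕ} (V : Site d → ℝ) (z : ℂ) (x y : Site d) : ℂ :=
  if h : ∃ ψ, IsGreen V z y ψ then h.choose x else 0

/-- `μ` has compact support and a bounded density. -/
structure BoundedDensity (μ : Measure ℝ) : Prop where
  supp : ∃ M : ℝ, μ (Set.Icc (-M) M)ᶜ = 0
  dens : ∃ K : ℝ≥0, μ ≤ K • volume

/-- The law of the configuration `ω = (ω_x)`: independent site variables of law `μ`. -/
def siteLaw (d : ℕ) (μ : Measure ℝ) [IsProbabilityMeasure μ] : Measure (Site d → ℝ) :=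
  Measure.infinitePi fun _ => μ

/-- The Green function `G(x, y; z)` of the Anderson Hamiltonian `-Δ + lam ω`. -/
def randGreen {d : ℕ} (lam : ℝ) (z : ℂ) (x y : Site d) (ω : Site d → ℝ) : ℂ :=
  Green (fun w => lam * ω w) z x y

/-- `E[(|G(x,u)| |G(u,y)| / |G(x,y)|)^(1/4)] ≤ C` for all sites `x, u, y`. -/
def QuasiTriangle (d : ℕ) (μ : Measure ℝ) [IsProbabilityMeasure μ] (lam : ℝ) (z : ℂ) (C : ℝ) :
    Prop :=
  ∀ x u y : Site d, ∫⁻ ω, ENNReal.ofReal ((‖randGreen lam z x u ω‖ * ‖randGreen lam z u y ω‖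
    / ‖randGreen lam z x y ω‖) ^ (1 / 4 : ℝ)) ∂(siteLaw d μ) ≤ ENNReal.ofReal C

/-- `L` is the norm of the exponential decay rates of the Green function: it is a norm on `ℤ^d`
and `-(1/n) log |G(nx, 0)|` converges to `L x` in `L¹` for every `x`. -/
structure IsLyapunovNorm (d : ℕ) (μ : Measure ℝ) [IsProbabilityMeasure μ] (lam : ℝ) (z : ℂ)
    (L : Site d → ℝ) : Prop where
  pos : ∀ x, x ≠ 0 → 0 < L x
  add_le : ∀ x y, L (x + y) ≤ L x + L y
  zsmul : ∀ (n : ℤ) (x : Site d), L (n • x) = |(n : ℝ)| * L x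
  tendsto : ∀ x : Site d, Tendsto (fun n : ℕ => ∫ ω,
    |-Real.log ‖randGreen lam z (n • x) 0 ω‖ / n - L x| ∂(siteLaw d μ)) atTop (𝓝 0)

end Pool.Agent.Helper3.Anderson
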