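import Pool.Agent.Helper3.Anderson.Good

open scoped ENNReal NNReal
open MeasureTheory Set Real Filter Topology

noncomputable section

namespace Pool.Agent.Helper3.Anderson

variable {d : ℕ}

section

variable {μ : Measure ℝ} [IsProbabilityMeasure μ] {M lam : ℝ} {K : ℝ≥0} {z : ℂ}

theorem norm_gc_le (hM : 0 ≤ M) (hz0 : 0 < z.im) (ω : Site d → ℝ) (x y : Site d) :
    ‖gc M lam z ω x y‖ ≤ 1 / z.im := norm_green_le _ (bdd_potc hM ω) hz0 x y

theorem memLp_posLog_norm (hM : 0 ≤ M) (hz0 : 0 < z.im) (x y : Site d) :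
    MemLp (fun ω : Site d → ℝ => posLog ‖gc M lam z ω x y‖) 2 (PP d μ) := by
  have hm : Measurable fun ω : Site d → ℝ => posLog ‖gc M lam z ω x y‖ :=
    continuous_posLog.measurable.comp (measurable_gc hM hz0 x y).norm
  refine MemLp.of_bound hm.aestronglyMeasurable (posLog (1 / z.im)) ?_
  refine Eventually.of_forall fun ω => ?_
  rw [Real.norm_eq_abs, abs_of_nonneg posLog_nonneg]
  exact posLog_le_posLog (norm_nonneg _) (norm_gc_le hM hz0 ω x y)

theorem memLp_log (hμ : GoodLaw μ M K) (hlam : 0 < lam) (hz0 : 0 < z.im) (x y : Site d) :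
    MemLp (fun ω : Site d → ℝ => Real.log ‖gc M lam z ω x y‖) 2 (PP d μ) := by
  have hM : 0 ≤ M := by linarith [hμ.one_le]
  have h : (fun ω : Site d → ℝ => Real.log ‖gc M lam z ω x y‖)
      = fun ω => posLog ‖gc M lam z ω x y‖ - posLog ‖gc M lam z ω x y‖⁻¹ := by
    funext ω; rw [posLog_sub_posLog_inv]
  rw [h]
  exact (memLp_posLog_norm hM hz0 x y).sub (good_all hμ hlam hz0 x y).2

theorem integrable_log (hμ : GoodLaw μ M K) (hlam : 0 < lam) (hz0 : 0 < z.im) (x y : Site d) :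
    Integrable (fun ω : Site d → ℝ => Real.log ‖gc M lam z ω x y‖) (PP d μ) :=
  (memLp_log hμ hlam hz0 x y).integrable (by norm_num)

/-- the logarithmic constant -/
def Clog (M lam : ℝ) (K : ℝ≥0) : ℝ := 4 * Real.log (C2 M lam K).toReal

theorem C2_pos (hM : 1 ≤ M) (hlam : 0 < lam) : 0 < (C2 M lam K).toReal := by
  refine ENNReal.toReal_pos ?_ (C2_ne_top M K)
  unfold C2 C1
  have h1 : (ENNReal.ofReal (2 * M)) ^ (1/2 : ℝ) ≠ 0 := by
    refine (ENNReal.rpow_pos ?_ ENNReal.ofReal_ne_top).ne'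
    simp; linarith
  have h2 : (ENNReal.ofReal (2 / lam)) ^ (1/4 : ℝ) ≠ 0 := by
    refine (ENNReal.rpow_pos ?_ ENNReal.ofReal_ne_top).ne'
    rw [ENNReal.ofReal_pos]; positivity
  have h3 : (1 + 4 * (K : ℝ≥0∞)) ≠ 0 := by
    intro h
    have : (1 : ℝ≥0∞) ≤ 1 + 4 * K := le_self_add
    rw [h] at this
    simp at this
  exact mul_ne_zero (mul_ne_zero h1 h3) h2

/-- Jensen-type bound -/
theorem integral_log_rr_le (hμ : GoodLaw μ M K) (hlam : 0 < lam) (hz0 : 0 < z.im)
    (x u y : Site d) (hint : Integrable (fun ω => Real.log (rr M lam z x u y ω)) (PP d μ)) :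
    ∫ ω, Real.log (rr M lam z x u y ω) ∂(PP d μ) ≤ Clog M lam K := by
  have hM : 0 ≤ M := by linarith [hμ.one_le]
  have hC := C2_pos (K := K) hμ.one_le hlam
  set C := (C2 M lam K).toReal with hCdef
  have hmom : ∫ ω, (rr M lam z x u y ω) ^ (1/4 : ℝ) ∂(PP d μ) ≤ C := by
    rw [integral_eq_lintegral_of_nonneg_ae
      (Eventually.of_forall fun ω => rpow_nonneg (rr_nonneg x u y ω) _)
      ((measurable_rr hM hz0 x u y).pow_const _).aestronglyMeasurable]
    exact ENNReal.toReal_mono (C2_ne_top M K) (lintegral_rr hμ hlam hz0 x u y)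
  have hintm : Integrable (fun ω => (rr M lam z x u y ω) ^ (1/4 : ℝ)) (PP d μ) := by
    refine ⟨((measurable_rr hM hz0 x u y).pow_const _).aestronglyMeasurable, ?_⟩
    rw [hasFiniteIntegral_iff_ofReal
      (Eventually.of_forall fun ω => rpow_nonneg (rr_nonneg x u y ω) _)]
    exact lt_of_le_of_lt (lintegral_rr hμ hlam hz0 x u y) (lt_top_iff_ne_top.2 (C2_ne_top M K))
  have hne : ∀ᵐ ω ∂(PP d μ), 0 < rr M lam z x u y ω := by
    filter_upwards [(good_all hμ hlam hz0 x u).1, (good_all hμ hlam hz0 u y).1,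
      (good_all hμ hlam hz0 x y).1] with ω h1 h2 h3
    unfold rr
    have := norm_pos_iff.2 h1
    have := norm_pos_iff.2 h2
    have := norm_pos_iff.2 h3
    positivity
  have hpt : ∀ᵐ ω ∂(PP d μ), Real.log (rr M lam z x u y ω)
      ≤ 4 * ((rr M lam z x u y ω) ^ (1/4 : ℝ) / C - 1) + 4 * Real.log C := by
    filter_upwards [hne] with ω hω
    have h1 : Real.log ((rr M lam z x u y ω) ^ (1/4 : ℝ) / C)
        ≤ (rr M lam z x u y ω) ^ (1/4 : ℝ) / C - 1 := by
      refine Real.log_le_sub_one_of_pos ?_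
      have : 0 < (rr M lam z x u y ω) ^ (1/4 : ℝ) := rpow_pos_of_pos hω _
      positivity
    rw [Real.log_div (rpow_pos_of_pos hω _).ne' hC.ne', Real.log_rpow hω] at h1
    linarith
  have hI1 : Integrable (fun ω => (rr M lam z x u y ω) ^ (1/4 : ℝ) / C - 1) (PP d μ) :=
    (hintm.div_const C).sub (integrable_const 1)
  have hI2 : Integrable (fun ω => 4 * ((rr M lam z x u y ω) ^ (1/4 : ℝ) / C - 1)) (PP d μ) :=
    hI1.const_mul 4
  calc ∫ ω, Real.log (rr M lam z x u y ω) ∂(PP d μ)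
      ≤ ∫ ω, (4 * ((rr M lam z x u y ω) ^ (1/4 : ℝ) / C - 1) + 4 * Real.log C) ∂(PP d μ) := by
        refine integral_mono_ae hint ?_ hpt
        exact hI2.add (integrable_const _)
    _ = 4 * ((∫ ω, (rr M lam z x u y ω) ^ (1/4 : ℝ) ∂(PP d μ)) / C - 1) + 4 * Real.log C := by
        rw [integral_add hI2 (integrable_const _), integral_const_mul,
          integral_sub (hintm.div_const C) (integrable_const 1), integral_div]
        simp
    _ ≤ 4 * (C / C - 1) + 4 * Real.log C := by gcongr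
    _ = Clog M lam K := by rw [div_self hC.ne']; simp [Clog, hCdef]

theorem ae_log_rr (hμ : GoodLaw μ M K) (hlam : 0 < lam) (hz0 : 0 < z.im) (x u y : Site d) :
    ∀ᵐ ω ∂(PP d μ), Real.log (rr M lam z x u y ω) = Real.log ‖gc M lam z ω x u‖
      + Real.log ‖gc M lam z ω u y‖ - Real.log ‖gc M lam z ω x y‖ := by
  filter_upwards [(good_all hμ hlam hz0 x u).1, (good_all hμ hlam hz0 u y).1,
      (good_all hμ hlam hz0 x y).1] with ω h1 h2 h3
  have n1 := norm_ne_zero_iff.2 h1
  have n2 := norm_ne_zero_iff.2 h2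
  have n3 := norm_ne_zero_iff.2 h3
  unfold rr
  rw [Real.log_div (mul_ne_zero n1 n2) n3, Real.log_mul n1 n2]

/-- superadditivity along arbitrary triples -/
theorem super_triple (hμ : GoodLaw μ M K) (hlam : 0 < lam) (hz0 : 0 < z.im) (x u y : Site d) :
    ∫ ω, Real.log ‖gc M lam z ω x u‖ ∂(PP d μ) + ∫ ω, Real.log ‖gc M lam z ω u y‖ ∂(PP d μ)
      - Clog M lam K ≤ ∫ ω, Real.log ‖gc M lam z ω x y‖ ∂(PP d μ) := by
  have i1 := integrable_log (K := K) hμ hlam hz0 x u
  have i2 := integrable_log (K := K) hμ hlam hz0 u y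
  have i3 := integrable_log (K := K) hμ hlam hz0 x y
  have hae := ae_log_rr hμ hlam hz0 x u y
  have hint : Integrable (fun ω => Real.log (rr M lam z x u y ω)) (PP d μ) :=
    ((i1.add i2).sub i3).congr (by filter_upwards [hae] with ω h; simp [h])
  have h1 := integral_log_rr_le hμ hlam hz0 x u y hint
  have i12 : Integrable (fun ω => Real.log ‖gc M lam z ω x u‖ + Real.log ‖gc M lam z ω u y‖)
    (PP d μ) := i1.add i2
  rw [integral_congr_ae hae, integral_sub i12 i3, integral_add i1 i2] at h1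
  linarith

/-- `u(v) = E log |G(v, 0)|` -/
def uu (μ : Measure ℝ) [IsProbabilityMeasure μ] (M lam : ℝ) (z : ℂ) (v : Site d) : ℝ :=
  ∫ ω, Real.log ‖gc M lam z ω v 0‖ ∂(PP d μ)

theorem integral_translate (hM : 0 ≤ M) (hz0 : 0 < z.im) (x y v : Site d)
    : ∫ ω, Real.log ‖gc M lam z ω (x + v) (y + v)‖ ∂(PP d μ)
      = ∫ ω, Real.log ‖gc M lam z ω x y‖ ∂(PP d μ) := by
  have hmp := measurePreserving_tr (μ := μ) v
  have hm : Measurable fun ω : Site d → ℝ => Real.log ‖gc M lam z ω x y‖ :=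
    Real.measurable_log.comp (measurable_gc hM hz0 x y).norm
  have h1 : ∫ ω, Real.log ‖gc M lam z ω x y‖ ∂((PP d μ).map (tr v))
      = ∫ ω, Real.log ‖gc M lam z (tr v ω) x y‖ ∂(PP d μ) :=
    integral_map hmp.measurable.aemeasurable hm.aestronglyMeasurable
  rw [hmp.map_eq] at h1
  rw [h1]
  refine integral_congr_ae (Eventually.of_forall fun ω => ?_)
  simp only [gc_tr hM hz0]

theorem super_uu (hμ : GoodLaw μ M K) (hlam : 0 < lam) (hz0 : 0 < z.im) (v w : Site d) :
    uu μ M lam z v + uu μ M lam z w - Clog M lam K ≤ uu μ M lam z (v + w) := by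
  have hM : 0 ≤ M := by linarith [hμ.one_le]
  have h1 := super_triple hμ hlam hz0 (v + w) w 0
  have h2 := integral_translate (μ := μ) (lam := lam) hM hz0 v 0 w
  rw [zero_add] at h2
  rw [h2] at h1
  exact h1

/-- `C - u(nv)` is a subadditive sequence -/
theorem subadd (hμ : GoodLaw μ M K) (hlam : 0 < lam) (hz0 : 0 < z.im) (v : Site d) :
    Subadditive (fun n : ℕ => Clog M lam K - uu μ M lam z (n • v)) := by
  intro m n
  have := super_uu hμ hlam hz0 (m • v) (n • v)
  rw [← add_smul] at this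
  simp only
  linarith

theorem uu_le (hM : 0 ≤ M) (hz0 : 0 < z.im) (v : Site d) :
    uu μ M lam z v ≤ posLog (1 / z.im) := by
  unfold uu
  have h : ∀ ω : Site d → ℝ, Real.log ‖gc M lam z ω v 0‖ ≤ posLog (1 / z.im) := by
    intro ω
    calc Real.log ‖gc M lam z ω v 0‖ ≤ posLog ‖gc M lam z ω v 0‖ := le_max_right _ _
      _ ≤ _ := posLog_le_posLog (norm_nonneg _) (norm_gc_le hM hz0 ω v 0)
  by_cases hi : Integrable (fun ω : Site d → ℝ => Real.log ‖gc M lam z ω v 0‖) (PP d μ)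
  · calc _ ≤ ∫ _ω, posLog (1 / z.im) ∂(PP d μ) :=
          integral_mono hi (integrable_const _) h
      _ = _ := by simp
  · rw [integral_undef hi]; exact posLog_nonneg

theorem bddBelow_seq (hμ : GoodLaw μ M K) (hz0 : 0 < z.im) (v : Site d) :
    BddBelow (range fun n : ℕ => (Clog M lam K - uu μ M lam z (n • v)) / n) := by
  have hM : 0 ≤ M := by linarith [hμ.one_le]
  refine ⟨-(|Clog M lam K| + posLog (1 / z.im)), ?_⟩
  rintro _ ⟨n, rfl⟩
  simp only
  have h1 := uu_le (μ := μ) (lam := lam) hM hz0 (n • v)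
  have h2 := neg_abs_le (Clog M lam K)
  have h3 : 0 ≤ |Clog M lam K| + posLog (1 / z.im) := add_nonneg (abs_nonneg _) posLog_nonneg
  rcases Nat.eq_zero_or_pos n with h | h
  · subst h
    simp only [Nat.cast_zero, div_zero]
    linarith
  · have hn : (1 : ℝ) ≤ n := by exact_mod_cast h
    rw [le_div_iff₀ (by linarith)]
    nlinarith

/-- the inverse localisation length in direction `v` -/
def LL (μ : Measure ℝ) [IsProbabilityMeasure μ] (M lam : ℝ) (K : ℝ≥0) (z : ℂ)
    (hμ : GoodLaw μ M K) (hlam : 0 < lam) (hz0 : 0 < z.im) (v : Site d) : ℝ :=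
  (subadd hμ hlam hz0 v).lim

variable (hμ : GoodLaw μ M K) (hlam : 0 < lam) (hz0 : 0 < z.im)

theorem tendsto_LL (v : Site d) :
    Tendsto (fun n : ℕ => -(uu μ M lam z (n • v)) / n) atTop (𝓝 (LL μ M lam K z hμ hlam hz0 v)) := by
  have h1 := (subadd hμ hlam hz0 v).tendsto_lim (bddBelow_seq hμ hz0 v)
  have h2 : Tendsto (fun n : ℕ => Clog M lam K / (n : ℝ)) atTop (𝓝 0) :=
    tendsto_const_div_atTop_nhds_zero_nat _
  have h3 := h1.sub h2
  rw [sub_zero] at h3
  refine h3.congr fun n => ?_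
  rw [← sub_div]; congr 1; ring

theorem uu_le_LL (v : Site d) :
    uu μ M lam z v ≤ Clog M lam K - LL μ M lam K z hμ hlam hz0 v := by
  have h := (subadd hμ hlam hz0 v).lim_le_div (bddBelow_seq hμ hz0 v) (n := 1) one_ne_zero
  simp only [one_smul, Nat.cast_one, div_one] at h
  unfold LL
  linarith

theorem LL_nonneg (v : Site d) : 0 ≤ LL μ M lam K z hμ hlam hz0 v := by
  have hM : 0 ≤ M := by linarith [hμ.one_le]
  have h2 : Tendsto (fun n : ℕ => -(posLog (1 / z.im)) / (n : ℝ)) atTop (𝓝 0) :=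
    tendsto_const_div_atTop_nhds_zero_nat _
  refine le_of_tendsto_of_tendsto' h2 (tendsto_LL hμ hlam hz0 v) fun n => ?_
  have h1 := uu_le (μ := μ) (lam := lam) hM hz0 (n • v)
  gcongr

theorem LL_add_le (v w : Site d) : LL μ M lam K z hμ hlam hz0 (v + w)
    ≤ LL μ M lam K z hμ hlam hz0 v + LL μ M lam K z hμ hlam hz0 w := by
  have h1 := tendsto_LL hμ hlam hz0 (v + w)
  have h2 := (tendsto_LL hμ hlam hz0 v).add (tendsto_LL hμ hlam hz0 w)
  have h3 : Tendsto (fun n : ℕ => Clog M lam K / (n : ℝ)) atTop (𝓝 0) :=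
    tendsto_const_div_atTop_nhds_zero_nat _
  have h4 := h2.add h3
  rw [add_zero] at h4
  refine le_of_tendsto_of_tendsto' h1 h4 fun n => ?_
  have h5 := super_uu hμ hlam hz0 (n • v) (n • w)
  rw [← smul_add] at h5
  rw [← add_div, ← add_div]
  gcongr
  linarith

theorem LL_nsmul (k : ℕ) (v : Site d) :
    LL μ M lam K z hμ hlam hz0 (k • v) = k * LL μ M lam K z hμ hlam hz0 v := by
  rcases Nat.eq_zero_or_pos k with h | h
  · subst h
    simp only [zero_smul, Nat.cast_zero, zero_mul]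
    have h1 := tendsto_LL hμ hlam hz0 (0 : Site d)
    have h2 : Tendsto (fun n : ℕ => -(uu μ M lam z (0 : Site d)) / (n : ℝ)) atTop (𝓝 0) :=
      tendsto_const_div_atTop_nhds_zero_nat _
    simp only [smul_zero] at h1
    exact tendsto_nhds_unique h1 h2
  · have h1 := tendsto_LL hμ hlam hz0 (k • v)
    have h2 := (tendsto_LL hμ hlam hz0 v).comp
      (tendsto_id.atTop_mul_const' h : Tendsto (fun n : ℕ => n * k) atTop atTop)
    have h3 := h2.const_mul (k : ℝ)
    refine tendsto_nhds_unique h1 (h3.congr fun n => ?_)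
    have hk : (k : ℝ) ≠ 0 := by positivity
    simp only [Function.comp_apply, smul_smul]
    push_cast
    rcases Nat.eq_zero_or_pos n with hn | hn
    · subst hn; simp
    · have : (n : ℝ) ≠ 0 := by positivity
      field_simp

end

end Pool.Agent.Helper3.Anderson
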