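import Pool.Agent.Helper3.Anderson.CT
import Pool.Agent.Helper3.Anderson.Model

open scoped ENNReal NNReal
open MeasureTheory Set Real Filter Topology

noncomputable section

namespace Pool.Agent.Helper3.Anderson

theorem isGreen_unique {d : ℕ} (V : Site d → ℝ) (hV : Bdd V) {z : ℂ} (hz0 : 0 < z.im)
    {y : Site d} {ψ : Site d → ℂ} (h : IsGreen V z y ψ) (x : Site d) : ψ x = green V z x y := by
  obtain ⟨hm, he⟩ := h
  set φ : L2 d := ⟨ψ, hm⟩ with hφ
  have h1 : hz V hV z φ = dl y := by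
    ext w
    rw [dl_apply, ← he w]
    simp only [hz, sub_apply, smul_apply, lp.coeFn_sub, Pi.sub_apply, schr_apply,
      one_apply_eq_self, lp.coeFn_smul, Pi.smul_apply, smul_eq_mul]
    rfl
  have h2 := res_hz V hV hz0.ne' φ
  rw [h1] at h2
  rw [green_eq V hV, h2]

/-- the two definitions of the Green function agree -/
theorem Green_eq_green {d : ℕ} (V : Site d → ℝ) (hV : Bdd V) {z : ℂ} (hz0 : 0 < z.im)
    (x y : Site d) : Green V z x y = green V z x y := by
  have hex : ∃ ψ, IsGreen V z y ψ := by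
    refine ⟨fun w => res V hV z (dl y) w, lp.memℓp _, fun w => ?_⟩
    have h2 := green_equation V hV hz0 w y
    simp only [green_eq V hV] at h2
    exact h2
  rw [Green, dif_pos hex]
  exact isGreen_unique V hV hz0 hex.choose_spec x

theorem ae_rand_eq {d : ℕ} {μ : Measure ℝ} [IsProbabilityMeasure μ] {M : ℝ}
    (hμ : μ (Icc (-M) M)ᶜ = 0) (lam : ℝ) {z : ℂ} (hz0 : 0 < z.im) :
    ∀ᵐ ω ∂(siteLaw d μ), ∀ x y, randGreen lam z x y ω = gc M lam z ω x y := by
  have h1 := ae_green_eq (d := d) hμ lam z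
  have h2 := ae_bdd (d := d) hμ
  have h3 : siteLaw d μ = PP d μ := rfl
  rw [h3]
  filter_upwards [h1, h2] with ω w1 w2 x y
  rw [← w1]
  refine Green_eq_green _ ⟨|lam| * M, fun w => ?_⟩ hz0 x y
  rw [abs_mul]
  gcongr
  exact w2 w

theorem isLyapunovNorm_LL {μ : Measure ℝ} [IsProbabilityMeasure μ] {M lam : ℝ} {K : ℝ≥0}
    (hμ : GoodLaw μ M K) (hlam : 0 < lam) (d : ℕ) {z : ℂ} (hz0 : 0 < z.im) :
    IsLyapunovNorm d μ lam z (LL μ M lam K z hμ hlam hz0) where
  pos := by
    intro x hx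
    obtain ⟨j, hj⟩ : ∃ j, x j ≠ 0 := by
      by_contra h
      push Not at h
      exact hx (funext h)
    refine lt_of_lt_of_le ?_ (LL_ge hμ hlam hz0 x j)
    have h1 : 0 < Real.log (1 + z.im / 4) := Real.log_pos (by linarith)
    have h2 : 0 < |(x j : ℝ)| := abs_pos.2 (by exact_mod_cast hj)
    positivity
  add_le := LL_add_le hμ hlam hz0
  zsmul := by
    intro n x
    rcases n with n | n
    · have := LL_nsmul hμ hlam hz0 n x
      simp only [Int.ofNat_eq_natCast, natCast_zsmul, Int.cast_natCast, Nat.abs_cast]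
      exact this
    · have h1 : (Int.negSucc n) • x = -((n + 1) • x) := by
        rw [negSucc_zsmul]
      rw [h1, LL_neg hμ hlam hz0, LL_nsmul hμ hlam hz0]
      congr 1
      rw [Int.cast_negSucc, abs_neg, Nat.abs_cast]
  tendsto := by
    intro x
    refine (tendsto_L1 hμ hlam hz0 x).congr fun n => ?_
    refine integral_congr_ae ?_
    filter_upwards [ae_rand_eq (d := d) hμ.supp lam hz0] with ω hω
    rw [hω]

/-- the final assembly, for a law with explicit constants -/
theorem finalA {μ : Measure ℝ} [IsProbabilityMeasure μ] {M lam : ℝ} {K : ℝ≥0}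
    (hμ : GoodLaw μ M K) (hlam : 0 < lam) (d : ℕ) (z : ℂ) (hz0 : 0 < z.im) :
      QuasiTriangle d μ lam z (max (C2 M lam K).toReal (Clog M lam K)) ∧
      ∃ L : Site d → ℝ, IsLyapunovNorm d μ lam z L ∧
        ∀ x : Site d, (∀ᵐ ω ∂(siteLaw d μ), randGreen lam z x 0 ω ≠ 0) ∧
          Integrable (fun ω => Real.log ‖randGreen lam z x 0 ω‖) (siteLaw d μ) ∧
          ∫ ω, Real.log ‖randGreen lam z x 0 ω‖ ∂(siteLaw d μ)
            ≤ max (C2 M lam K).toReal (Clog M lam K) - L x := by
  have hM : 0 ≤ M := by linarith [hμ.one_le]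
  have hae := ae_rand_eq (d := d) hμ.supp lam hz0
  refine ⟨fun x u y => ?_, LL μ M lam K z hμ hlam hz0, isLyapunovNorm_LL hμ hlam d hz0,
    fun x => ⟨?_, ?_, ?_⟩⟩
  · calc _ = ∫⁻ ω, ENNReal.ofReal ((rr M lam z x u y ω) ^ (1/4 : ℝ)) ∂(PP d μ) := by
          refine lintegral_congr_ae ?_
          filter_upwards [hae] with ω hω
          simp only [hω]
          rfl
      _ ≤ C2 M lam K := lintegral_rr hμ hlam hz0 x u y
      _ = ENNReal.ofReal (C2 M lam K).toReal := (ENNReal.ofReal_toReal (C2_ne_top M K)).symm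
      _ ≤ _ := ENNReal.ofReal_le_ofReal (le_max_left _ _)
  · filter_upwards [hae, (good_all (d := d) hμ hlam hz0 x 0).1] with ω hω h1
    rwa [hω]
  · refine (integrable_log hμ hlam hz0 x 0).congr ?_
    filter_upwards [hae] with ω hω
    rw [hω]
  · have h1 := uu_le_LL hμ hlam hz0 x
    have h2 : ∫ ω, Real.log ‖randGreen lam z x 0 ω‖ ∂(siteLaw d μ) = uu μ M lam z x := by
      refine integral_congr_ae ?_
      filter_upwards [hae] with ω hω
      rw [hω]
    rw [h2]
    have := le_max_right (C2 M lam K).toReal (Clog M lam K)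
    linarith

end Pool.Agent.Helper3.Anderson
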