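import Pool.Agent.Helper3.Anderson.Quasi

open scoped ENNReal NNReal
open MeasureTheory Set

noncomputable section

namespace Pool.Agent.Helper3.Anderson

variable {d : ℕ}

/-- norm of a matrix element bounded by the norm of the vector -/
theorem norm_green_le_norm (V : Site d → ℝ) (hV : Bdd V) (z : ℂ) (x y : Site d) :
    ‖green V z x y‖ ≤ ‖res V hV z (dl y)‖ := by
  rw [green_eq V hV]
  exact lp.norm_apply_le_norm (by norm_num) _ x

/-- bound on the Laplacian -/
theorem norm_sum_nbr_le {C : ℝ} (g : Site d → ℂ) (hg : ∀ x, ‖g x‖ ≤ C) (x : Site d) :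
    ‖∑ j : Fin d, (g (x + Pi.single j 1) + g (x - Pi.single j 1))‖ ≤ 2 * d * C := by
  calc _ ≤ ∑ j : Fin d, ‖g (x + Pi.single j 1) + g (x - Pi.single j 1)‖ := norm_sum_le _ _
    _ ≤ ∑ _j : Fin d, (2 * C) := by
        refine Finset.sum_le_sum fun j _ => ?_
        have h1 := norm_add_le (g (x + Pi.single j 1)) (g (x - Pi.single j 1))
        have h2 := hg (x + Pi.single j 1)
        have h3 := hg (x - Pi.single j 1)
        linarith
    _ = 2 * d * C := by
        rw [Finset.sum_const, Finset.card_univ, Fintype.card_fin, nsmul_eq_mul]; ring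

/-- Green's equation in hopping form -/
theorem green_equation' (V : Site d → ℝ) (hV : Bdd V) {z : ℂ} (hz0 : 0 < z.im) (x y : Site d) :
    (2 * d + (V x : ℂ) - z) * green V z x y
      = ∑ j : Fin d, (green V z (x + Pi.single j 1) y + green V z (x - Pi.single j 1) y)
        + if x = y then 1 else 0 := by
  have h := green_equation V hV hz0 x y
  have h2 : lap (fun w => green V z w y) x
      = ∑ j : Fin d, (green V z (x + Pi.single j 1) y + green V z (x - Pi.single j 1) y)
        - 2 * d * green V z x y := by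
    rw [lap]
    have : ∀ j : Fin d, (green V z (x + Pi.single j 1) y - green V z x y
        + (green V z (x - Pi.single j 1) y - green V z x y))
        = (green V z (x + Pi.single j 1) y + green V z (x - Pi.single j 1) y)
          - 2 * green V z x y := fun j => by ring
    rw [Finset.sum_congr rfl fun j _ => this j, Finset.sum_sub_distrib, Finset.sum_const,
      Finset.card_univ, Fintype.card_fin, nsmul_eq_mul]
    ring
  rw [h2] at h
  rw [← h]; ring

/-- deterministic lower bound of the diagonal Green function -/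
theorem green_diag_lower (V : Site d → ℝ) (hV : Bdd V) {z : ℂ} (hz0 : 0 < z.im) (u : Site d)
    {B : ℝ} (hB : 2 * d + |V u| + ‖z‖ ≤ B) :
    min (1 / (2 * B)) (z.im / (16 * (d + 1) ^ 2)) ≤ ‖green V z u u‖ := by
  set g := ‖green V z u u‖ with hg
  have hgpos : 0 < g := norm_pos_iff.2 (green_self_ne_zero V hV hz0 u)
  have hw := ward V hV hz0 u
  have hr : z.im * ‖res V hV z (dl u)‖ ^ 2 ≤ g := by
    rw [hw]; exact (Complex.im_le_norm _)
  set r := ‖res V hV z (dl u)‖ with hr0
  have hr1 : 0 ≤ r := norm_nonneg _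
  have heq := green_equation' V hV hz0 u u
  rw [if_pos rfl] at heq
  have h1 : (1 : ℝ) ≤ B * g + 2 * d * r := by
    have h2 : (1 : ℂ) = (2 * d + (V u : ℂ) - z) * green V z u u
      - ∑ j : Fin d, (green V z (u + Pi.single j 1) u + green V z (u - Pi.single j 1) u) := by
      rw [heq]; ring
    have h3 : ‖(1 : ℂ)‖ ≤ ‖(2 * d + (V u : ℂ) - z) * green V z u u‖
      + ‖∑ j : Fin d, (green V z (u + Pi.single j 1) u + green V z (u - Pi.single j 1) u)‖ := by
      rw [h2]; exact norm_sub_le _ _
    have h4 := norm_sum_nbr_le (fun w => green V z w u)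
      (fun w => norm_green_le_norm V hV z w u) u
    have h5 : ‖(2 * d + (V u : ℂ) - z)‖ ≤ B := by
      calc ‖(2 * d + (V u : ℂ) - z)‖ ≤ ‖(2 * d + (V u : ℂ))‖ + ‖z‖ := norm_sub_le _ _
        _ ≤ ‖(2 * d : ℂ)‖ + ‖(V u : ℂ)‖ + ‖z‖ := by gcongr; exact norm_add_le _ _
        _ = 2 * d + |V u| + ‖z‖ := by simp
        _ ≤ B := hB
    rw [norm_one, norm_mul] at h3
    have h6 : ‖(2 * d + (V u : ℂ) - z)‖ * ‖green V z u u‖ ≤ B * g := by gcongr
    linarith
  by_contra hcon
  push Not at hcon
  rw [lt_min_iff] at hcon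
  obtain ⟨hc1, hc2⟩ := hcon
  have hBpos : 0 < B := by
    have : 0 < ‖z‖ := norm_pos_iff.2 (by rintro rfl; simp at hz0)
    have h0 : 0 ≤ |V u| := abs_nonneg _
    have h00 : (0 : ℝ) ≤ 2 * d := by positivity
    linarith
  have e1 : B * g < 1 / 2 := by
    rw [lt_div_iff₀ (by positivity)] at hc1
    linarith
  have e2 : r ^ 2 < 1 / (16 * (d + 1) ^ 2) := by
    have : z.im * r ^ 2 < z.im * (1 / (16 * (d + 1) ^ 2)) := by
      calc z.im * r ^ 2 ≤ g := hr
        _ < z.im / (16 * (d + 1) ^ 2) := hc2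
        _ = _ := by ring
    exact lt_of_mul_lt_mul_left this hz0.le
  have e3 : r < 1 / (4 * (d + 1)) := by
    have h7 : (1 / (4 * ((d : ℝ) + 1))) ^ 2 = 1 / (16 * (d + 1) ^ 2) := by
      rw [div_pow, one_pow]; ring_nf
    rw [← h7] at e2
    exact lt_of_pow_lt_pow_left₀ 2 (by positivity) e2
  have e4 : 2 * d * r ≤ 1 / 2 := by
    have hd : (d : ℝ) ≤ d + 1 := by linarith
    calc 2 * (d : ℝ) * r ≤ 2 * (d + 1) * (1 / (4 * (d + 1))) := by gcongr
      _ = 1 / 2 := by field_simp; norm_num
  linarith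

end Pool.Agent.Helper3.Anderson
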