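import Pool.Agent.Helper3.Anderson.L1

open scoped ENNReal NNReal InnerProductSpace
open MeasureTheory Set Real Filter Topology ProbabilityTheory

noncomputable section

namespace Pool.Agent.Helper3.Anderson

variable {d : ℕ}

theorem schr_star (V : Site d → ℝ) (hV : Bdd V) (w : L2 d) :
    schr V hV (star w) = star (schr V hV w) := by
  ext x
  rw [lp.star_apply, schr_apply, schr_apply]
  simp only [lap, lp.star_apply, star_add, star_neg, star_mul', star_sum, star_sub]
  congr 2
  exact (Complex.conj_ofReal _).symm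

/-- the Green function is symmetric -/
theorem green_symm (V : Site d → ℝ) (hV : Bdd V) {z : ℂ} (hz0 : 0 < z.im) (x y : Site d) :
    green V z x y = green V z y x := by
  set u := res V hV z (dl y) with hu
  set w := res V hV z (dl x) with hw
  have key : ⟪star w, hz V hV z u⟫_ℂ = ⟪star (hz V hV z w), u⟫_ℂ := by
    have e1 : hz V hV z u = schr V hV u - z • u := rfl
    have e2 : hz V hV z w = schr V hV w - z • w := rfl
    rw [e1, e2, star_sub, star_smul, ← schr_star, inner_sub_right, inner_sub_left,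
      inner_smul_right, inner_smul_left, inner_schr]
    simp
  rw [hu, hw, hz_res V hV hz0.ne', hz_res V hV hz0.ne', ← hu, ← hw] at key
  have h1 : ⟪star w, dl y⟫_ℂ = w y := by
    rw [dl, lp.inner_single_right]; simp
  have h2 : ⟪star (dl x), u⟫_ℂ = u x := by
    have : star (dl x) = dl x := by
      ext p
      rw [lp.star_apply, dl_apply]
      split_ifs <;> simp
    rw [this, dl, lp.inner_single_left]; simp
  rw [h1, h2] at key
  rw [green_eq V hV, green_eq V hV, ← hu, ← hw, key]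

section

variable {μ : Measure ℝ} [IsProbabilityMeasure μ] {M lam : ℝ} {K : ℝ≥0} {z : ℂ}

theorem uu_neg (hM : 0 ≤ M) (hz0 : 0 < z.im) (v : Site d) :
    uu μ M lam z (-v) = uu μ M lam z v := by
  have h1 := integral_translate (μ := μ) (lam := lam) hM hz0 (-v) 0 v
  rw [neg_add_cancel, zero_add] at h1
  unfold uu
  rw [← h1]
  refine integral_congr_ae (Eventually.of_forall fun ω => ?_)
  simp only [gc]
  rw [green_symm _ (bdd_potc hM ω) hz0]

theorem LL_neg (hμ : GoodLaw μ M K) (hlam : 0 < lam) (hz0 : 0 < z.im) (v : Site d) :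
    LL μ M lam K z hμ hlam hz0 (-v) = LL μ M lam K z hμ hlam hz0 v := by
  have hM : 0 ≤ M := by linarith [hμ.one_le]
  have h1 := tendsto_LL hμ hlam hz0 (-v)
  have h2 := tendsto_LL hμ hlam hz0 v
  refine tendsto_nhds_unique h1 (h2.congr fun n => ?_)
  rw [smul_neg, uu_neg hM hz0]

/-- almost surely all the site variables lie in `[-M, M]` -/
theorem ae_bdd (hμ : μ (Icc (-M) M)ᶜ = 0) : ∀ᵐ ω ∂(PP d μ), ∀ x, |ω x| ≤ M := by
  rw [ae_all_iff]
  intro x
  have h1 : ∀ᵐ t ∂μ, t ∈ Icc (-M) M := by rw [ae_iff]; exact hμ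
  have h2 : (PP d μ).map (fun ω => ω x) = μ := Measure.infinitePi_map_eval (fun _ => μ) x
  rw [← h2] at h1
  have h3 := ae_of_ae_map (measurable_pi_apply x).aemeasurable h1
  filter_upwards [h3] with ω hω
  exact abs_le.2 hω

theorem ae_green_eq (hμ : μ (Icc (-M) M)ᶜ = 0) (lam : ℝ) (z : ℂ) :
    ∀ᵐ ω ∂(PP d μ), ∀ x y, green (fun w => lam * ω w) z x y = gc M lam z ω x y := by
  filter_upwards [ae_bdd hμ] with ω hω x y
  unfold gc potc
  congr 1
  funext w
  rw [clip_of_abs_le (hω w)]

theorem goodLaw_of (hs : ∃ M : ℝ, μ (Icc (-M) M)ᶜ = 0) (hb : ∃ K : ℝ≥0, μ ≤ K • volume) :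
    ∃ (M : ℝ) (K : ℝ≥0), GoodLaw μ M K := by
  obtain ⟨M, hM⟩ := hs
  obtain ⟨K, hK⟩ := hb
  refine ⟨max M 1, K, ⟨le_max_right _ _, ?_, hK⟩⟩
  refine measure_mono_null ?_ hM
  refine compl_subset_compl.2 ?_
  exact Icc_subset_Icc (neg_le_neg (le_max_left _ _)) (le_max_left _ _)

end

end Pool.Agent.Helper3.Anderson
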