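import Pool.Agent.Helper3.Anderson.Defs

open scoped ENNReal InnerProductSpace
open Filter Topology

noncomputable section

namespace Pool.Agent.Helper3.Anderson

variable {d : ℕ}

/-- the delta vector -/
def dl (y : Site d) : L2 d := lp.single 2 y (1 : ℂ)

theorem dl_apply (y x : Site d) : dl y x = if x = y then 1 else 0 := by
  simp [dl, lp.single_apply, Pi.single_apply]

theorem inner_shift (v : Site d) (ψ φ : L2 d) :
    ⟪shift v ψ, φ⟫_ℂ = ⟪ψ, shift (-v) φ⟫_ℂ := by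
  rw [lp.inner_eq_tsum, lp.inner_eq_tsum]
  rw [← (Equiv.addRight v).tsum_eq (fun x => ⟪ψ x, (shift (-v) φ) x⟫_ℂ)]
  refine tsum_congr fun x => ?_
  simp

theorem inner_mulOp (V : Site d → ℝ) (hV : Bdd V) (ψ φ : L2 d) :
    ⟪mulOp V hV ψ, φ⟫_ℂ = ⟪ψ, mulOp V hV φ⟫_ℂ := by
  rw [lp.inner_eq_tsum, lp.inner_eq_tsum]
  refine tsum_congr fun x => ?_
  simp [mul_assoc, mul_left_comm, mul_comm]

theorem inner_schr (V : Site d → ℝ) (hV : Bdd V) (ψ φ : L2 d) :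
    ⟪schr V hV ψ, φ⟫_ℂ = ⟪ψ, schr V hV φ⟫_ℂ := by
  simp only [schr, add_apply, neg_apply, sum_apply, sub_apply, one_apply_eq_self, inner_add_left,
    inner_neg_left, sum_inner, inner_sub_left, inner_add_right, inner_neg_right, inner_sum,
    inner_sub_right, inner_shift, inner_mulOp, neg_neg]
  congr 2
  refine Finset.sum_congr rfl fun j _ => ?_
  ring

theorem isSelfAdjoint_schr (V : Site d → ℝ) (hV : Bdd V) : IsSelfAdjoint (schr V hV) := by
  rw [ContinuousLinearMap.isSelfAdjoint_iff_isSymmetric]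
  intro ψ φ
  exact inner_schr V hV ψ φ

/-- `H - z` -/
def hz (V : Site d → ℝ) (hV : Bdd V) (z : ℂ) : L2 d →L[ℂ] L2 d :=
  schr V hV - z • (1 : L2 d →L[ℂ] L2 d)

theorem hz_isUnit (V : Site d → ℝ) (hV : Bdd V) {z : ℂ} (hz0 : z.im ≠ 0) :
    IsUnit (hz V hV z) := by
  have h : z ∉ spectrum ℂ (schr V hV) := by
    intro hmem
    have := (isSelfAdjoint_schr V hV).mem_spectrum_eq_re hmem
    apply hz0
    rw [this]; simp
  rw [spectrum.notMem_iff] at h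
  have h' : hz V hV z = -(algebraMap ℂ (L2 d →L[ℂ] L2 d) z - schr V hV) := by
    rw [hz, Algebra.algebraMap_eq_smul_one]; abel
  rw [h']
  exact h.neg

/-- the resolvent -/
def res (V : Site d → ℝ) (hV : Bdd V) (z : ℂ) : L2 d →L[ℂ] L2 d := Ring.inverse (hz V hV z)

theorem green_eq (V : Site d → ℝ) (hV : Bdd V) (z : ℂ) (x y : Site d) :
    green V z x y = res V hV z (dl y) x := by
  unfold green
  exact dif_pos hV

theorem hz_res (V : Site d → ℝ) (hV : Bdd V) {z : ℂ} (hz0 : z.im ≠ 0) (ψ : L2 d) :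
    hz V hV z (res V hV z ψ) = ψ := by
  have := Ring.mul_inverse_cancel _ (hz_isUnit V hV hz0)
  exact congrArg (fun A : L2 d →L[ℂ] L2 d => A ψ) this

theorem res_hz (V : Site d → ℝ) (hV : Bdd V) {z : ℂ} (hz0 : z.im ≠ 0) (ψ : L2 d) :
    res V hV z (hz V hV z ψ) = ψ := by
  have := Ring.inverse_mul_cancel _ (hz_isUnit V hV hz0)
  exact congrArg (fun A : L2 d →L[ℂ] L2 d => A ψ) this

theorem im_inner_hz (V : Site d → ℝ) (hV : Bdd V) (z : ℂ) (ψ : L2 d) :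
    (⟪ψ, hz V hV z ψ⟫_ℂ).im = - z.im * ‖ψ‖ ^ 2 := by
  have h1 : (⟪ψ, schr V hV ψ⟫_ℂ).im = 0 := by
    have h := inner_schr V hV ψ ψ
    have h2 : (starRingEnd ℂ) ⟪ψ, schr V hV ψ⟫_ℂ = ⟪ψ, schr V hV ψ⟫_ℂ := by
      rw [inner_conj_symm, h]
    exact Complex.conj_eq_iff_im.1 h2
  rw [hz, sub_apply, inner_sub_right, Complex.sub_im, h1, smul_apply, one_apply_eq_self,
    inner_smul_right, inner_self_eq_norm_sq_to_K]
  simp [Complex.mul_im, ← Complex.ofReal_pow]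

theorem norm_hz_ge (V : Site d → ℝ) (hV : Bdd V) {z : ℂ} (hz0 : 0 < z.im) (ψ : L2 d) :
    z.im * ‖ψ‖ ≤ ‖hz V hV z ψ‖ := by
  by_cases h : ‖ψ‖ = 0
  · rw [h]; simp
  have hpos : 0 < ‖ψ‖ := lt_of_le_of_ne (norm_nonneg _) (Ne.symm h)
  have h1 : z.im * ‖ψ‖ ^ 2 ≤ ‖ψ‖ * ‖hz V hV z ψ‖ := by
    have h2 := im_inner_hz V hV z ψ
    have h3 : |(⟪ψ, hz V hV z ψ⟫_ℂ).im| ≤ ‖ψ‖ * ‖hz V hV z ψ‖ :=
      (Complex.abs_im_le_norm _).trans (norm_inner_le_norm _ _)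
    rw [h2, neg_mul, abs_neg, abs_of_nonneg (by positivity)] at h3
    exact h3
  nlinarith

theorem norm_res_le (V : Site d → ℝ) (hV : Bdd V) {z : ℂ} (hz0 : 0 < z.im) (ψ : L2 d) :
    ‖res V hV z ψ‖ ≤ ‖ψ‖ / z.im := by
  rw [le_div_iff₀ hz0, mul_comm]
  have := norm_hz_ge V hV hz0 (res V hV z ψ)
  rwa [hz_res V hV hz0.ne'] at this

theorem norm_dl (y : Site d) : ‖dl y‖ = 1 := by
  rw [dl, lp.norm_single (by norm_num)]; simp

theorem norm_green_le (V : Site d → ℝ) (hV : Bdd V) {z : ℂ} (hz0 : 0 < z.im) (x y : Site d) :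
    ‖green V z x y‖ ≤ 1 / z.im := by
  rw [green_eq V hV]
  refine (lp.norm_apply_le_norm (by norm_num) _ x).trans ?_
  refine (norm_res_le V hV hz0 _).trans ?_
  rw [norm_dl]

/-- Ward identity -/
theorem ward (V : Site d → ℝ) (hV : Bdd V) {z : ℂ} (hz0 : 0 < z.im) (y : Site d) :
    z.im * ‖res V hV z (dl y)‖ ^ 2 = (green V z y y).im := by
  have h := im_inner_hz V hV z (res V hV z (dl y))
  rw [hz_res V hV hz0.ne'] at h
  have h2 : ⟪res V hV z (dl y), dl y⟫_ℂ = (starRingEnd ℂ) (green V z y y) := by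
    rw [green_eq V hV, dl, lp.inner_single_right]
    simp
  rw [h2, Complex.conj_im] at h
  linarith

end Pool.Agent.Helper3.Anderson
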