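import Pool.Agent.Helper3.Anderson.Symm

open scoped ENNReal NNReal InnerProductSpace
open MeasureTheory Set Real Filter Topology

noncomputable section

namespace Pool.Agent.Helper3.Anderson

variable {d : ℕ}

theorem norm_shift_le (v : Site d) (ψ : L2 d) : ‖shift v ψ‖ ≤ ‖ψ‖ := by
  have h : ‖(shift v : L2 d →L[ℂ] L2 d)‖ ≤ 1 := LinearMap.mkContinuous_norm_le _ (by norm_num) _
  have := (shift v : L2 d →L[ℂ] L2 d).le_of_opNorm_le h ψ
  rwa [one_mul] at this

/-- conjugating `H - z` by a weight that only depends on the `j`-th coordinate -/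
theorem hz_weight (V : Site d → ℝ) (hV : Bdd V) (z : ℂ) (W : Site d → ℝ) (hW : Bdd W) (j : Fin d)
    (hWj : ∀ i, i ≠ j → ∀ x, W (x + Pi.single i 1) = W x ∧ W (x - Pi.single i 1) = W x)
    (u : L2 d) (x : Site d) :
    hz V hV z (mulOp W hW u) x = (W x : ℂ) * hz V hV z u x
      - (((W (x + Pi.single j 1) - W x : ℝ) : ℂ) * u (x + Pi.single j 1)
        + ((W (x - Pi.single j 1) - W x : ℝ) : ℂ) * u (x - Pi.single j 1)) := by
  simp only [hz, sub_apply, smul_apply, lp.coeFn_sub, Pi.sub_apply, schr_apply,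
    one_apply_eq_self, lp.coeFn_smul, Pi.smul_apply, smul_eq_mul, mulOp_apply]
  have h1 : lap (fun w => mulOp W hW u w) x = (W x : ℂ) * lap u x
      + (((W (x + Pi.single j 1) - W x : ℝ) : ℂ) * u (x + Pi.single j 1)
        + ((W (x - Pi.single j 1) - W x : ℝ) : ℂ) * u (x - Pi.single j 1)) := by
    have h2 : lap (fun w => mulOp W hW u w) x - (W x : ℂ) * lap u x
        = ∑ i : Fin d, ((((W (x + Pi.single i 1) - W x : ℝ) : ℂ) * u (x + Pi.single i 1)
        + ((W (x - Pi.single i 1) - W x : ℝ) : ℂ) * u (x - Pi.single i 1))) := by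
      unfold lap
      rw [Finset.mul_sum, ← Finset.sum_sub_distrib]
      refine Finset.sum_congr rfl fun i _ => ?_
      simp only [mulOp_apply]
      push_cast
      ring
    rw [Finset.sum_eq_single j ?_ (by simp)] at h2
    · linear_combination h2
    · intro i _ hij
      obtain ⟨e1, e2⟩ := hWj i hij x
      rw [e1, e2]
      simp
  have h3 : lap (↑(mulOp W hW u)) x = lap (fun w => mulOp W hW u w) x := rfl
  rw [h3, h1]
  ring

theorem abs_one_sub_exp_le {t a : ℝ} (h : |t| ≤ a) : |1 - Real.exp t| ≤ Real.exp a - 1 := by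
  have h1 := abs_le.1 h
  have h2 : Real.exp t ≤ Real.exp a := Real.exp_le_exp.2 h1.2
  have h3 : Real.exp (-a) ≤ Real.exp t := Real.exp_le_exp.2 h1.1
  have h4 : 0 < Real.exp a := Real.exp_pos _
  have h5 : Real.exp (-a) * Real.exp a = 1 := by rw [← Real.exp_add]; simp
  have h6 : 1 ≤ Real.exp a := Real.one_le_exp (by linarith [abs_nonneg t])
  rw [abs_le]
  constructor
  · linarith
  · nlinarith [Real.exp_pos (-a)]

/-- weighted resolvent bound -/
theorem weighted_res (V : Site d → ℝ) (hV : Bdd V) {z : ℂ} (hz0 : 0 < z.im) (j : Fin d)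
    (g : ℤ → ℝ) (hgb : ∃ B, ∀ n, |g n| ≤ B) (hg : ∀ n, |g (n + 1) - g n| ≤ Real.log (1 + z.im / 4))
    (y : Site d) (hgy : g (y j) = 0) :
    ∃ hW : Bdd (fun x : Site d => Real.exp (g (x j))),
      ‖mulOp (fun x : Site d => Real.exp (g (x j))) hW (res V hV z (dl y))‖ ≤ 2 / z.im := by
  obtain ⟨B, hB⟩ := hgb
  have hW : Bdd (fun x : Site d => Real.exp (g (x j))) := by
    refine ⟨Real.exp B, fun x => ?_⟩
    rw [abs_of_pos (Real.exp_pos _)]
    exact Real.exp_le_exp.2 ((le_abs_self _).trans (hB _))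
  refine ⟨hW, ?_⟩
  set W : Site d → ℝ := fun x => Real.exp (g (x j)) with hWdef
  set u := res V hV z (dl y) with hu
  set v := mulOp W hW u with hv
  set a : ℝ := Real.log (1 + z.im / 4) with ha
  have hexpa : Real.exp a - 1 = z.im / 4 := by
    rw [ha, Real.exp_log (by positivity)]; ring
  have hWpos : ∀ x, 0 < W x := fun x => Real.exp_pos _
  have hWj : ∀ i, i ≠ j → ∀ x, W (x + Pi.single i 1) = W x ∧ W (x - Pi.single i 1) = W x := by
    intro i hij x
    simp only [hWdef, Pi.add_apply, Pi.sub_apply, Pi.single_eq_of_ne (Ne.symm hij), add_zero,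
      sub_zero, and_self]
  -- the coefficients
  have hc1 : ∀ x, |1 - W x / W (x + Pi.single j 1)| ≤ z.im / 4 := by
    intro x
    simp only [hWdef, Pi.add_apply, Pi.single_eq_same]
    rw [← Real.exp_sub, ← hexpa]
    refine abs_one_sub_exp_le ?_
    rw [abs_sub_comm]
    exact hg _
  have hc2 : ∀ x, |1 - W x / W (x - Pi.single j 1)| ≤ z.im / 4 := by
    intro x
    simp only [hWdef, Pi.sub_apply, Pi.single_eq_same]
    rw [← Real.exp_sub, ← hexpa]
    refine abs_one_sub_exp_le ?_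
    have := hg (x j - 1)
    rwa [sub_add_cancel] at this
  set c1 : Site d → ℝ := fun x => 1 - W x / W (x + Pi.single j 1) with hc1def
  set c2 : Site d → ℝ := fun x => 1 - W x / W (x - Pi.single j 1) with hc2def
  have hb1 : Bdd c1 := ⟨_, hc1⟩
  have hb2 : Bdd c2 := ⟨_, hc2⟩
  set b : L2 d := mulOp c1 hb1 (shift (Pi.single j 1) v) + mulOp c2 hb2 (shift (-Pi.single j 1) v)
    with hb
  have hbn : ‖b‖ ≤ z.im / 2 * ‖v‖ := by
    refine (norm_add_le _ _).trans ?_
    have h1 := norm_mulOp_le c1 hb1 hc1 (shift (Pi.single j 1) v)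
    have h2 := norm_mulOp_le c2 hb2 hc2 (shift (-Pi.single j 1) v)
    have h3 := norm_shift_le (Pi.single j 1) v
    have h4 := norm_shift_le (-Pi.single j 1) v
    nlinarith
  have hid : hz V hV z v = dl y - b := by
    ext x
    rw [hv, hz_weight V hV z W hW j hWj u x, hu, hz_res V hV hz0.ne', ← hu, lp.coeFn_sub,
      Pi.sub_apply, dl_apply]
    congr 1
    · by_cases h : x = y
      · subst h
        simp [hWdef, hgy]
      · simp [h]
    · simp only [hb, lp.coeFn_add, Pi.add_apply, mulOp_apply, shift_apply, hv, hc1def, hc2def]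
      rw [← sub_eq_add_neg]
      have p1 : ((W (x + Pi.single j 1) : ℝ) : ℂ) ≠ 0 := by exact_mod_cast (hWpos _).ne'
      have p2 : ((W (x - Pi.single j 1) : ℝ) : ℂ) ≠ 0 := by exact_mod_cast (hWpos _).ne'
      push_cast
      field_simp
  have him := im_inner_hz V hV z v
  rw [hid, inner_sub_right, Complex.sub_im] at him
  have h1 : |(⟪v, dl y⟫_ℂ).im| ≤ ‖v‖ * 1 := by
    refine (Complex.abs_im_le_norm _).trans ((norm_inner_le_norm _ _).trans ?_)
    rw [norm_dl]
  have h2 : |(⟪v, b⟫_ℂ).im| ≤ ‖v‖ * (z.im / 2 * ‖v‖) := by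
    refine (Complex.abs_im_le_norm _).trans ((norm_inner_le_norm _ _).trans ?_)
    gcongr
  have h3 := (abs_le.1 h1).1
  have h4 := (abs_le.1 h2).2
  have h5 : z.im / 2 * ‖v‖ ^ 2 ≤ ‖v‖ := by nlinarith
  rcases (norm_nonneg v).eq_or_lt with h | h
  · rw [← h]; positivity
  · rw [le_div_iff₀ hz0]
    nlinarith

/-- **Combes-Thomas bound** -/
theorem combes_thomas (V : Site d → ℝ) (hV : Bdd V) {z : ℂ} (hz0 : 0 < z.im) (j : Fin d)
    (x y : Site d) :
    ‖green V z x y‖ ≤ 2 / z.im * Real.exp (-(Real.log (1 + z.im / 4) * |((x j - y j : ℤ) : ℝ)|)) := by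
  set a : ℝ := Real.log (1 + z.im / 4) with ha
  have ha0 : 0 ≤ a := Real.log_nonneg (by linarith)
  set R : ℝ := |((x j - y j : ℤ) : ℝ)| with hR
  have hR0 : 0 ≤ R := abs_nonneg _
  set g : ℤ → ℝ := fun n => a * min |((n - y j : ℤ) : ℝ)| R with hg
  have hgb : ∃ B, ∀ n, |g n| ≤ B := by
    refine ⟨a * R, fun n => ?_⟩
    simp only [hg]
    rw [abs_mul, abs_of_nonneg ha0, abs_of_nonneg (le_min (abs_nonneg _) hR0)]
    gcongr
    exact min_le_right _ _
  have hgl : ∀ n, |g (n + 1) - g n| ≤ a := by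
    intro n
    simp only [hg]
    rw [← mul_sub, abs_mul, abs_of_nonneg ha0]
    have : |min |((n + 1 - y j : ℤ) : ℝ)| R - min |((n - y j : ℤ) : ℝ)| R| ≤ 1 := by
      refine (abs_min_sub_min_le_max _ _ _ _).trans ?_
      rw [sub_self, abs_zero]
      refine max_le ?_ (by norm_num)
      refine (abs_abs_sub_abs_le_abs_sub _ _).trans ?_
      push_cast
      have : (n : ℝ) + 1 - (y j : ℝ) - ((n : ℝ) - (y j : ℝ)) = 1 := by ring
      rw [this, abs_one]
    calc a * _ ≤ a * 1 := by gcongr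
      _ = a := mul_one a
  have hgy : g (y j) = 0 := by simp [hg, hR0]
  obtain ⟨hW, h1⟩ := weighted_res V hV hz0 j g hgb hgl y hgy
  have h2 := (lp.norm_apply_le_norm (by norm_num) _ x).trans h1
  rw [mulOp_apply, norm_mul, Complex.norm_real, Real.norm_eq_abs, abs_of_pos (Real.exp_pos _),
    ← green_eq V hV] at h2
  have h3 : g (x j) = a * R := by simp only [hg]; rw [← hR, min_self]
  rw [h3] at h2
  rw [Real.exp_neg, ← div_eq_mul_inv, le_div_iff₀ (Real.exp_pos _)]
  linarith

section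

variable {μ : Measure ℝ} [IsProbabilityMeasure μ] {M lam : ℝ} {K : ℝ≥0} {z : ℂ}

theorem LL_ge (hμ : GoodLaw μ M K) (hlam : 0 < lam) (hz0 : 0 < z.im) (v : Site d) (j : Fin d) :
    Real.log (1 + z.im / 4) * |(v j : ℝ)| ≤ LL μ M lam K z hμ hlam hz0 v := by
  have hM : 0 ≤ M := by linarith [hμ.one_le]
  set a : ℝ := Real.log (1 + z.im / 4) with ha
  have h1 : Tendsto (fun n : ℕ => a * |(v j : ℝ)| - Real.log (2 / z.im) / (n : ℝ)) atTop
      (𝓝 (a * |(v j : ℝ)|)) := by
    simpa using (tendsto_const_nhds (x := a * |(v j : ℝ)|)).sub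
      (tendsto_const_div_atTop_nhds_zero_nat (Real.log (2 / z.im)))
  refine le_of_tendsto_of_tendsto h1 (tendsto_LL hμ hlam hz0 v) ?_
  filter_upwards [eventually_gt_atTop 0] with n hn
  have hn' : (0 : ℝ) < n := by exact_mod_cast hn
  have h2 : uu μ M lam z (n • v) ≤ Real.log (2 / z.im) - a * (n * |(v j : ℝ)|) := by
    unfold uu
    have hpt : ∀ᵐ ω ∂(PP d μ), Real.log ‖gc M lam z ω (n • v) 0‖
        ≤ Real.log (2 / z.im) - a * (n * |(v j : ℝ)|) := by
      filter_upwards [(good_all (K := K) hμ hlam hz0 (n • v) 0).1] with ω hω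
      have h3 := combes_thomas (potc M lam ω) (bdd_potc hM ω) hz0 j (n • v) 0
      have h4 := Real.log_le_log (norm_pos_iff.2 hω) h3
      rw [Real.log_mul (by positivity) (Real.exp_pos _).ne', Real.log_exp] at h4
      have h5 : |(((n • v) j - (0 : Site d) j : ℤ) : ℝ)| = n * |(v j : ℝ)| := by
        rw [Pi.smul_apply, Pi.zero_apply, sub_zero, nsmul_eq_mul]
        push_cast
        rw [abs_mul, Nat.abs_cast]
      rw [h5] at h4
      linarith
    calc _ ≤ ∫ _ω, (Real.log (2 / z.im) - a * (n * |(v j : ℝ)|)) ∂(PP d μ) :=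
          integral_mono_ae (integrable_log hμ hlam hz0 _ _) (integrable_const _) hpt
      _ = _ := by simp
  rw [le_div_iff₀ hn']
  have h6 : (a * |(v j : ℝ)| - Real.log (2 / z.im) / n) * n
      = a * (n * |(v j : ℝ)|) - Real.log (2 / z.im) := by field_simp
  rw [h6]
  linarith

end

end Pool.Agent.Helper3.Anderson
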