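import Pool.Agent.Helper3.Anderson.Resolvent

open scoped ENNReal InnerProductSpace
open Filter Topology

noncomputable section

namespace Pool.Agent.Helper3.Anderson

variable {d : ℕ}

theorem norm_mulOp_le (V : Site d → ℝ) (hV : Bdd V) {M : ℝ} (hM : ∀ x, |V x| ≤ M) (ψ : L2 d) :
    ‖mulOp V hV ψ‖ ≤ M * ‖ψ‖ := by
  have h0 : 0 ≤ M := (abs_nonneg _).trans (hM 0)
  have : ‖((M : ℂ) • ψ : L2 d)‖ = M * ‖ψ‖ := by
    rw [norm_smul]; simp [abs_of_nonneg h0]
  rw [← this]
  refine lp.norm_mono (by norm_num) fun x => ?_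
  simp only [mulOp_apply, lp.coeFn_smul, Pi.smul_apply, smul_eq_mul,
    norm_mul, Complex.norm_real, Real.norm_eq_abs, abs_of_nonneg h0]
  exact mul_le_mul_of_nonneg_right (hM x) (norm_nonneg _)

theorem mulOp_single (V : Site d → ℝ) (hV : Bdd V) (x : Site d) (a : ℂ) :
    mulOp V hV (lp.single 2 x a) = (V x : ℂ) • (lp.single 2 x a : L2 d) := by
  ext w
  rw [mulOp_apply, lp.coeFn_smul, Pi.smul_apply, smul_eq_mul]
  by_cases h : w = x
  · subst h; simp
  · rw [lp.single_apply_ne _ _ _ h]; simp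

theorem continuous_mulOp {T : Type*} [TopologicalSpace T] (V : T → Site d → ℝ)
    (hb : ∀ t, Bdd (V t)) {M : ℝ} (hM : ∀ t x, |V t x| ≤ M)
    (hc : ∀ x, Continuous fun t => V t x) (ψ : L2 d) :
    Continuous fun t => mulOp (V t) (hb t) ψ := by
  have hs := lp.hasSum_single (E := fun _ : Site d => ℂ) (p := 2) (by norm_num) ψ
  have hu : TendstoUniformly
      (fun (s : Finset (Site d)) (t : T) =>
        mulOp (V t) (hb t) (∑ x ∈ s, (lp.single 2 x (ψ x) : L2 d)))
      (fun t => mulOp (V t) (hb t) ψ) atTop := by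
    rw [Metric.tendstoUniformly_iff]
    intro ε hε
    have hM0 : 0 ≤ |M| := abs_nonneg M
    have h1 : ∀ᶠ s : Finset (Site d) in atTop,
        dist (∑ x ∈ s, (lp.single 2 x (ψ x) : L2 d)) ψ < ε / (|M| + 1) := by
      have := Metric.tendsto_nhds.1 hs (ε / (|M| + 1)) (by positivity)
      simpa using this
    filter_upwards [h1] with s hs' t
    rw [dist_eq_norm, ← map_sub]
    have h2 := norm_mulOp_le (V t) (hb t) (fun x => (hM t x).trans (le_abs_self M))
      (ψ - ∑ x ∈ s, (lp.single 2 x (ψ x) : L2 d))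
    rw [dist_comm, dist_eq_norm] at hs'
    have hp : 0 < |M| + 1 := by positivity
    rw [lt_div_iff₀ hp] at hs'
    have h3 : 0 ≤ ‖ψ - ∑ x ∈ s, (lp.single 2 x (ψ x) : L2 d)‖ := norm_nonneg _
    nlinarith
  refine hu.continuous (Eventually.frequently (Eventually.of_forall fun s => ?_))
  simp only [map_sum, mulOp_single]
  refine continuous_finset_sum _ fun x _ => ?_
  exact (Complex.continuous_ofReal.comp (hc x)).smul continuous_const

theorem hz_sub_hz' (V W : Site d → ℝ) (hV : Bdd V) (hW : Bdd W) (z : ℂ) (ψ : L2 d) :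
    hz W hW z ψ - hz V hV z ψ = mulOp W hW ψ - mulOp V hV ψ := by
  ext x
  rw [hz_sub_hz V W hV hW z, lp.coeFn_sub, Pi.sub_apply, mulOp_apply, mulOp_apply]
  push_cast; ring

theorem continuous_res {T : Type*} [TopologicalSpace T] (V : T → Site d → ℝ)
    (hb : ∀ t, Bdd (V t)) {M : ℝ} (hM : ∀ t x, |V t x| ≤ M)
    (hc : ∀ x, Continuous fun t => V t x) {z : ℂ} (hz0 : 0 < z.im) (ψ : L2 d) :
    Continuous fun t => res (V t) (hb t) z ψ := by
  rw [continuous_iff_continuousAt]
  intro t0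
  have hcm := continuous_mulOp V hb hM hc (res (V t0) (hb t0) z ψ)
  rw [ContinuousAt, tendsto_iff_dist_tendsto_zero]
  have h1 : Tendsto (fun t => ‖mulOp (V t0) (hb t0) (res (V t0) (hb t0) z ψ)
      - mulOp (V t) (hb t) (res (V t0) (hb t0) z ψ)‖ / z.im) (𝓝 t0) (𝓝 0) := by
    have h2 : Continuous fun t => ‖mulOp (V t0) (hb t0) (res (V t0) (hb t0) z ψ)
      - mulOp (V t) (hb t) (res (V t0) (hb t0) z ψ)‖ / z.im :=
      ((continuous_const.sub hcm).norm).div_const _
    have := h2.tendsto t0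
    simpa using this
  refine squeeze_zero (fun t => dist_nonneg) (fun t => ?_) h1
  rw [dist_eq_norm, res_sub_res _ _ _ _ hz0, hz_sub_hz']
  exact norm_res_le _ _ hz0 _

theorem continuous_green {T : Type*} [TopologicalSpace T] (V : T → Site d → ℝ)
    {M : ℝ} (hM : ∀ t x, |V t x| ≤ M)
    (hc : ∀ x, Continuous fun t => V t x) {z : ℂ} (hz0 : 0 < z.im) (x y : Site d) :
    Continuous fun t => green (V t) z x y := by
  have hb : ∀ t, Bdd (V t) := fun t => ⟨M, hM t⟩
  have h1 : (fun t => green (V t) z x y) = fun t => res (V t) (hb t) z (dl y) x := by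
    funext t
    rw [green_eq _ (hb t)]
  rw [h1]
  have h2 := continuous_res V hb hM hc hz0 (dl y)
  have h3 : Continuous fun φ : L2 d => φ x :=
    (lp.lipschitzWith_one_eval (E := fun _ : Site d => ℂ) 2 x).continuous
  exact h3.comp h2

end Pool.Agent.Helper3.Anderson
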