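import Pool.Agent.Helper3.Anderson.Model

/-!
# The Anderson Hamiltonian on `ℓ²(ℤ^d)` and its Green function

Definitions only (plus the elementary facts needed to make them).
-/

open scoped ENNReal

noncomputable section

namespace Pool.Agent.Helper3.Anderson

/-- The Hilbert space `ℓ²(ℤ^d)`. -/
abbrev L2 (d : ℕ) : Type := lp (fun _ : Site d => ℂ) 2

theorem memℓp_comp_add {d : ℕ} (v : Site d) {ψ : Site d → ℂ} (h : Memℓp ψ 2) :
    Memℓp (fun x => ψ (x + v)) 2 := by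
  have h2 : 0 < (2 : ℝ≥0∞).toReal := by norm_num
  have hs : Summable (fun x => ‖ψ x‖ ^ (2 : ℝ≥0∞).toReal) := h.summable h2
  have hs' : Summable ((fun x => ‖ψ x‖ ^ (2 : ℝ≥0∞).toReal) ∘ (Equiv.addRight v)) :=
    (Equiv.addRight v).summable_iff.2 hs
  refine memℓp_gen ?_
  simpa [Function.comp_def] using hs'

theorem memℓp_mul_bdd {d : ℕ} {V : Site d → ℝ} (hV : ∃ M : ℝ, ∀ x, |V x| ≤ M)
    {ψ : Site d → ℂ} (h : Memℓp ψ 2) : Memℓp (fun x => (V x : ℂ) * ψ x) 2 := by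
  obtain ⟨M, hM⟩ := hV
  refine (h.const_mul (M : ℂ)).mono' fun x => ?_
  have h0 : 0 ≤ M := (abs_nonneg _).trans (hM x)
  simp only [norm_mul, Complex.norm_real, Real.norm_eq_abs]
  rw [abs_of_nonneg h0]
  exact mul_le_mul_of_nonneg_right (hM x) (norm_nonneg _)

/-- The shift `(U_v ψ)(x) = ψ(x + v)` on `ℓ²(ℤ^d)`. -/
def shift {d : ℕ} (v : Site d) : L2 d →L[ℂ] L2 d :=
  LinearMap.mkContinuous
    { toFun := fun ψ => ⟨fun x => ψ (x + v), memℓp_comp_add v (lp.memℓp ψ)⟩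
      map_add' := fun ψ φ => by ext x; simp
      map_smul' := fun c ψ => by ext x; simp }
    1 (by
      intro ψ
      rw [one_mul]
      have h2 : 0 < (2 : ℝ≥0∞).toReal := by norm_num
      refine lp.norm_le_of_tsum_le h2 (norm_nonneg _) ?_
      rw [lp.norm_rpow_eq_tsum h2]
      refine le_of_eq ?_
      exact (Equiv.addRight v).tsum_eq (fun x => ‖ψ x‖ ^ (2 : ℝ≥0∞).toReal))

@[simp] theorem shift_apply {d : ℕ} (v : Site d) (ψ : L2 d) (x : Site d) :
    shift v ψ x = ψ (x + v) := rfl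

/-- A real potential on `ℤ^d` is bounded. -/
def Bdd {d : ℕ} (V : Site d → ℝ) : Prop := ∃ M : ℝ, ∀ x, |V x| ≤ M

/-- Multiplication by a bounded real function `V` on `ℓ²(ℤ^d)`. -/
def mulOp {d : ℕ} (V : Site d → ℝ) (hV : Bdd V) : L2 d →L[ℂ] L2 d :=
  LinearMap.mkContinuousOfExistsBound
    { toFun := fun ψ => ⟨fun x => (V x : ℂ) * ψ x, memℓp_mul_bdd hV (lp.memℓp ψ)⟩
      map_add' := fun ψ φ => by ext x; simp [mul_add]
      map_smul' := fun c ψ => by ext x; simp; ring }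
    (by
      obtain ⟨M, hM⟩ := hV
      have h0 : 0 ≤ |M| := abs_nonneg _
      refine ⟨|M|, fun ψ => ?_⟩
      have : ‖((M : ℂ) • ψ : L2 d)‖ = |M| * ‖ψ‖ := by
        rw [norm_smul]; simp
      rw [← this]
      refine lp.norm_mono (by norm_num) fun x => ?_
      simp only [LinearMap.coe_mk, AddHom.coe_mk, lp.coeFn_smul, Pi.smul_apply, smul_eq_mul,
        norm_mul, Complex.norm_real, Real.norm_eq_abs]
      exact mul_le_mul_of_nonneg_right ((hM x).trans (le_abs_self M)) (norm_nonneg _))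

@[simp] theorem mulOp_apply {d : ℕ} (V : Site d → ℝ) (hV : Bdd V)
    (ψ : L2 d) (x : Site d) : mulOp V hV ψ x = (V x : ℂ) * ψ x := rfl

/-- The Schrödinger operator `-Δ + V` on `ℓ²(ℤ^d)`, for a bounded real potential `V`. -/
def schr {d : ℕ} (V : Site d → ℝ) (hV : Bdd V) : L2 d →L[ℂ] L2 d :=
  -(∑ j : Fin d, ((shift (Pi.single j 1) - 1) + (shift (-Pi.single j 1) - 1))) + mulOp V hV

theorem coeFn_sum_apply {d : ℕ} {ι : Type*} (s : Finset ι) (f : ι → L2 d) (x : Site d) :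
    (∑ i ∈ s, f i : L2 d) x = ∑ i ∈ s, f i x := by
  rw [lp.coeFn_sum, Finset.sum_apply]

theorem schr_apply {d : ℕ} (V : Site d → ℝ) (hV : Bdd V) (ψ : L2 d)
    (x : Site d) : schr V hV ψ x = - lap ψ x + (V x : ℂ) * ψ x := by
  simp only [schr, add_apply, neg_apply, lp.coeFn_add,
    lp.coeFn_neg, Pi.add_apply, Pi.neg_apply, mulOp_apply, lap, sum_apply,
    coeFn_sum_apply, shift_apply, one_apply_eq_self, sub_eq_add_neg]

open Classical in
/-- The Green function `G_V(x, y; z) = ⟨δ_x, (-Δ + V - z)⁻¹ δ_y⟩` of the Schrödinger operator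
`-Δ + V` with bounded real potential `V` (set to `0` when `V` is unbounded). -/
def green {d : ℕ} (V : Site d → ℝ) (z : ℂ) (x y : Site d) : ℂ :=
  if hV : Bdd V then
    (Ring.inverse (schr V hV - z • (1 : L2 d →L[ℂ] L2 d)) (lp.single 2 y (1 : ℂ)) : L2 d) x
  else 0

end Pool.Agent.Helper3.Anderson
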