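import Pool.Agent.Helper3.Anderson.LogInt

open scoped ENNReal NNReal
open MeasureTheory Set Real Filter Topology

noncomputable section

namespace Pool.Agent.Helper3.Anderson

variable {d : ℕ}

section

variable {μ : Measure ℝ} [IsProbabilityMeasure μ] {M lam : ℝ} {K : ℝ≥0} {z : ℂ}

theorem C2_ne_top (M : ℝ) (K : ℝ≥0) : C2 M lam K ≠ ⊤ := by
  unfold C2
  exact ENNReal.mul_ne_top (C1_ne_top M K)
    (ENNReal.rpow_ne_top_of_nonneg (by norm_num) ENNReal.ofReal_ne_top)

/-- good pair: logarithm of the Green function is square integrable -/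
def Good (μ : Measure ℝ) [IsProbabilityMeasure μ] (M lam : ℝ) (z : ℂ) (x y : Site d) : Prop :=
  (∀ᵐ ω ∂(PP d μ), gc M lam z ω x y ≠ 0) ∧
    MemLp (fun ω => posLog ‖gc M lam z ω x y‖⁻¹) 2 (PP d μ)

theorem measurable_posLog_inv (hM : 0 ≤ M) (hz0 : 0 < z.im) (x y : Site d) :
    Measurable fun ω : Site d → ℝ => posLog ‖gc M lam z ω x y‖⁻¹ :=
  continuous_posLog.measurable.comp ((measurable_gc hM hz0 x y).norm.inv)

/-- real version of the ratio -/
def rr (M lam : ℝ) (z : ℂ) (x u y : Site d) (ω : Site d → ℝ) : ℝ :=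
  (‖gc M lam z ω x u‖ * ‖gc M lam z ω u y‖) / ‖gc M lam z ω x y‖

theorem rr_nonneg (x u y : Site d) (ω : Site d → ℝ) : 0 ≤ rr M lam z x u y ω := by
  unfold rr; positivity

theorem measurable_rr (hM : 0 ≤ M) (hz0 : 0 < z.im) (x u y : Site d) :
    Measurable (rr M lam z x u y) :=
  (((measurable_gc hM hz0 x u).norm).mul ((measurable_gc hM hz0 u y).norm)).div
    ((measurable_gc hM hz0 x y).norm)

theorem ofReal_rr_le (x u y : Site d) (ω : Site d → ℝ) :
    ENNReal.ofReal (rr M lam z x u y ω) ≤ ratio M lam z x u y ω := by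
  unfold rr ratio
  by_cases h : ‖gc M lam z ω x y‖ = 0
  · rw [h, div_zero]; simp
  · have hpos : 0 < ‖gc M lam z ω x y‖ := lt_of_le_of_ne (norm_nonneg _) (Ne.symm h)
    rw [ENNReal.ofReal_div_of_pos hpos, ENNReal.ofReal_mul (norm_nonneg _), ofReal_norm, ofReal_norm,
      ofReal_norm]

theorem lintegral_rr (hμ : GoodLaw μ M K) (hlam : 0 < lam) (hz0 : 0 < z.im) (x u y : Site d) :
    ∫⁻ ω, ENNReal.ofReal ((rr M lam z x u y ω) ^ (1/4 : ℝ)) ∂(PP d μ) ≤ C2 M lam K := by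
  refine le_trans (lintegral_mono fun ω => ?_) (quasi hμ hlam hz0 x u y)
  rw [← ENNReal.ofReal_rpow_of_nonneg (rr_nonneg x u y ω) (by norm_num)]
  exact ENNReal.rpow_le_rpow (ofReal_rr_le x u y ω) (by norm_num)

theorem memLp_posLog_rr (hμ : GoodLaw μ M K) (hlam : 0 < lam) (hz0 : 0 < z.im) (x u y : Site d) :
    MemLp (fun ω => posLog (rr M lam z x u y ω)) 2 (PP d μ) := by
  have hM : 0 ≤ M := by linarith [hμ.one_le]
  have hm : Measurable fun ω => posLog (rr M lam z x u y ω) :=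
    continuous_posLog.measurable.comp (measurable_rr hM hz0 x u y)
  rw [memLp_two_iff_integrable_sq hm.aestronglyMeasurable]
  refine ⟨(hm.pow_const 2).aestronglyMeasurable, ?_⟩
  rw [hasFiniteIntegral_iff_ofReal (Eventually.of_forall fun ω => by positivity)]
  calc ∫⁻ ω, ENNReal.ofReal ((posLog (rr M lam z x u y ω)) ^ 2) ∂(PP d μ)
      ≤ ∫⁻ ω, 64 * ENNReal.ofReal ((rr M lam z x u y ω) ^ (1/4 : ℝ)) ∂(PP d μ) := by
        refine lintegral_mono fun ω => ?_
        have := ENNReal.ofReal_le_ofReal (posLog_sq_le (rr_nonneg (M := M) (lam := lam) (z := z) x u y ω))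
        rwa [ENNReal.ofReal_mul (by norm_num), ENNReal.ofReal_ofNat] at this
    _ = 64 * ∫⁻ ω, ENNReal.ofReal ((rr M lam z x u y ω) ^ (1/4 : ℝ)) ∂(PP d μ) := by
        rw [lintegral_const_mul' _ _ (by norm_num)]
    _ ≤ 64 * C2 M lam K := by gcongr; exact lintegral_rr hμ hlam hz0 x u y
    _ < ⊤ := ENNReal.mul_lt_top (by norm_num) (lt_top_iff_ne_top.2 (C2_ne_top M K))

theorem ae_ne_zero_trans (hμ : GoodLaw μ M K) (hlam : 0 < lam) (hz0 : 0 < z.im) (x u y : Site d)
    (h1 : ∀ᵐ ω ∂(PP d μ), gc M lam z ω x u ≠ 0) (h2 : ∀ᵐ ω ∂(PP d μ), gc M lam z ω u y ≠ 0) :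
    ∀ᵐ ω ∂(PP d μ), gc M lam z ω x y ≠ 0 := by
  have hM : 0 ≤ M := by linarith [hμ.one_le]
  have h3 : ∀ᵐ ω ∂(PP d μ), (ratio M lam z x u y ω) ^ (1/4 : ℝ) < ⊤ := by
    refine ae_lt_top ((measurable_ratio hM hz0 x u y).pow_const _) ?_
    exact ne_top_of_le_ne_top (C2_ne_top M K) (quasi hμ hlam hz0 x u y)
  filter_upwards [h1, h2, h3] with ω w1 w2 w3 hcon
  rw [ratio, hcon] at w3
  have : ‖gc M lam z ω x u‖ₑ * ‖gc M lam z ω u y‖ₑ ≠ 0 := by
    simp [w1, w2]
  rw [enorm_zero, ENNReal.div_zero this, ENNReal.top_rpow_of_pos (by norm_num)] at w3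
  exact lt_irrefl _ w3

theorem posLog_inv_le {ω : Site d → ℝ} {x u y : Site d} (h1 : gc M lam z ω x u ≠ 0)
    (h2 : gc M lam z ω u y ≠ 0) :
    posLog ‖gc M lam z ω x y‖⁻¹ ≤ posLog ‖gc M lam z ω x u‖⁻¹ + posLog ‖gc M lam z ω u y‖⁻¹
      + posLog (rr M lam z x u y ω) := by
  have e : ‖gc M lam z ω x y‖⁻¹
      = ‖gc M lam z ω x u‖⁻¹ * ‖gc M lam z ω u y‖⁻¹ * rr M lam z x u y ω := by
    have n1 := norm_ne_zero_iff.2 h1
    have n2 := norm_ne_zero_iff.2 h2
    unfold rr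
    field_simp
  rw [e]
  refine posLog_mul.trans ?_
  gcongr
  exact posLog_mul

theorem good_trans (hμ : GoodLaw μ M K) (hlam : 0 < lam) (hz0 : 0 < z.im) {x u y : Site d}
    (h1 : Good μ M lam z x u) (h2 : Good μ M lam z u y) : Good μ M lam z x y := by
  have hM : 0 ≤ M := by linarith [hμ.one_le]
  have h3 := ae_ne_zero_trans hμ hlam hz0 x u y h1.1 h2.1
  refine ⟨h3, ?_⟩
  refine MemLp.mono ((h1.2.add h2.2).add (memLp_posLog_rr hμ hlam hz0 x u y))
    (measurable_posLog_inv hM hz0 x y).aestronglyMeasurable ?_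
  filter_upwards [h1.1, h2.1] with ω w1 w2
  rw [Real.norm_eq_abs, Real.norm_eq_abs, abs_of_nonneg posLog_nonneg]
  exact (posLog_inv_le w1 w2).trans (le_abs_self _)

/-- translation of the configuration -/
def tr (v : Site d) (ω : Site d → ℝ) : Site d → ℝ := fun x => ω (x + v)

theorem measurePreserving_tr (v : Site d) : MeasurePreserving (tr v) (PP d μ) (PP d μ) := by
  refine ⟨?_, map_translate v⟩
  unfold tr
  rw [measurable_pi_iff]
  intro x
  exact measurable_pi_apply _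

theorem gc_tr (hM : 0 ≤ M) (hz0 : 0 < z.im) (v : Site d) (ω : Site d → ℝ) (x y : Site d) :
    gc M lam z (tr v ω) x y = gc M lam z ω (x + v) (y + v) := by
  unfold gc
  rw [← green_translate (potc M lam ω) (bdd_potc hM ω) hz0 v x y]
  rfl

theorem good_translate (hM : 0 ≤ M) (hz0 : 0 < z.im) {x y : Site d} (v : Site d)
    (h : Good μ M lam z x y) : Good μ M lam z (x + v) (y + v) := by
  have hmp := measurePreserving_tr (μ := μ) v
  constructor
  · have := hmp.quasiMeasurePreserving.ae h.1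
    filter_upwards [this] with ω hω
    rwa [gc_tr hM hz0] at hω
  · have := h.2.comp_measurePreserving hmp
    refine this.congr_norm (measurable_posLog_inv hM hz0 _ _).aestronglyMeasurable ?_
    refine Eventually.of_forall fun ω => ?_
    simp only [Function.comp_apply, gc_tr hM hz0]

theorem good_self (hμ : GoodLaw μ M K) (hlam : 0 < lam) (hz0 : 0 < z.im) (x : Site d) :
    Good μ M lam z x x := by
  have hM : 0 ≤ M := by linarith [hμ.one_le]
  have hne : ∀ ω : Site d → ℝ, gc M lam z ω x x ≠ 0 := fun ω =>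
    green_self_ne_zero _ (bdd_potc hM ω) hz0 x
  refine ⟨Eventually.of_forall hne, ?_⟩
  have hz1 : 0 < ‖z‖ := norm_pos_iff.2 (by rintro rfl; simp at hz0)
  set B : ℝ := 2 * d + lam * M + ‖z‖ with hB
  have hBpos : 0 < B := by positivity
  set c : ℝ := min (1 / (2 * B)) (z.im / (16 * (d + 1) ^ 2)) with hc
  have hcpos : 0 < c := lt_min (by positivity) (by positivity)
  refine MemLp.of_bound (measurable_posLog_inv hM hz0 x x).aestronglyMeasurable (posLog c⁻¹) ?_
  refine Eventually.of_forall fun ω => ?_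
  rw [Real.norm_eq_abs, abs_of_nonneg posLog_nonneg]
  refine posLog_le_posLog (by positivity) ?_
  refine inv_anti₀ hcpos ?_
  refine green_diag_lower _ (bdd_potc hM ω) hz0 x (B := B) ?_
  have := abs_potc_le (lam := lam) hM ω x
  rw [abs_of_pos hlam] at this
  linarith

theorem good_nbr (hμ : GoodLaw μ M K) (hlam : 0 < lam) (hz0 : 0 < z.im) (a b : Site d)
    (i : Fin d) (hb : b = a + Pi.single i 1 ∨ b = a - Pi.single i 1) : Good μ M lam z a b := by
  have hM : 0 ≤ M := by linarith [hμ.one_le]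
  have hfin := nbr_fin hμ hlam hz0 a b i hb
  have hm : Measurable fun ω : Site d → ℝ => ‖gc M lam z ω a b‖ₑ ^ (-(1/2 : ℝ)) :=
    ((measurable_gc hM hz0 a b).enorm).pow_const _
  have hne : ∀ᵐ ω ∂(PP d μ), gc M lam z ω a b ≠ 0 := by
    filter_upwards [ae_lt_top hm hfin.ne] with ω hω hcon
    rw [hcon, enorm_zero, ENNReal.zero_rpow_of_neg (by norm_num)] at hω
    exact lt_irrefl _ hω
  refine ⟨hne, ?_⟩
  rw [memLp_two_iff_integrable_sq (measurable_posLog_inv hM hz0 a b).aestronglyMeasurable]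
  refine ⟨((measurable_posLog_inv hM hz0 a b).pow_const 2).aestronglyMeasurable, ?_⟩
  rw [hasFiniteIntegral_iff_ofReal (Eventually.of_forall fun ω => by positivity)]
  have hpt : ∀ᵐ ω ∂(PP d μ), ENNReal.ofReal ((posLog ‖gc M lam z ω a b‖⁻¹) ^ 2)
      ≤ 64 * (1 + ‖gc M lam z ω a b‖ₑ ^ (-(1/2 : ℝ))) := by
    filter_upwards [hne] with ω hω
    have hpos : 0 < ‖gc M lam z ω a b‖ := norm_pos_iff.2 hω
    have h1 := posLog_sq_le (inv_nonneg.2 hpos.le)
    have h2 : (‖gc M lam z ω a b‖⁻¹) ^ (1/4 : ℝ) ≤ 1 + (‖gc M lam z ω a b‖⁻¹) ^ (1/2 : ℝ) := by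
      rcases le_total (‖gc M lam z ω a b‖⁻¹) 1 with h | h
      · have e1 : (‖gc M lam z ω a b‖⁻¹) ^ (1/4 : ℝ) ≤ 1 :=
          rpow_le_one (by positivity) h (by norm_num)
        have e2 : 0 ≤ (‖gc M lam z ω a b‖⁻¹) ^ (1/2 : ℝ) := by positivity
        linarith
      · have e1 : (‖gc M lam z ω a b‖⁻¹) ^ (1/4 : ℝ) ≤ (‖gc M lam z ω a b‖⁻¹) ^ (1/2 : ℝ) :=
          rpow_le_rpow_of_exponent_le h (by norm_num)
        linarith
    have h3 : ‖gc M lam z ω a b‖ₑ ^ (-(1/2 : ℝ))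
        = ENNReal.ofReal ((‖gc M lam z ω a b‖⁻¹) ^ (1/2 : ℝ)) := by
      rw [← ofReal_norm, ENNReal.rpow_neg, ← ENNReal.inv_rpow, ← ENNReal.ofReal_inv_of_pos hpos,
        ENNReal.ofReal_rpow_of_nonneg (by positivity) (by norm_num)]
    rw [h3, ← ENNReal.ofReal_one, ← ENNReal.ofReal_add (by norm_num) (by positivity)]
    have h4 : (64 : ℝ≥0∞) = ENNReal.ofReal 64 := by simp
    rw [h4, ← ENNReal.ofReal_mul (by norm_num)]
    refine ENNReal.ofReal_le_ofReal ?_
    linarith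
  calc _ ≤ ∫⁻ ω, 64 * (1 + ‖gc M lam z ω a b‖ₑ ^ (-(1/2 : ℝ))) ∂(PP d μ) :=
        lintegral_mono_ae hpt
    _ = 64 * (1 + ∫⁻ ω, ‖gc M lam z ω a b‖ₑ ^ (-(1/2 : ℝ)) ∂(PP d μ)) := by
        rw [lintegral_const_mul' _ _ (by norm_num), lintegral_add_left measurable_const]
        simp
    _ < ⊤ := ENNReal.mul_lt_top (by norm_num) (ENNReal.add_lt_top.2 ⟨by norm_num, hfin⟩)

theorem good_int_smul (hμ : GoodLaw μ M K) (hlam : 0 < lam) (hz0 : 0 < z.im) (j : Fin d) (k : ℤ) :
    Good μ M lam z (Pi.single j k : Site d) 0 := by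
  have hM : 0 ≤ M := by linarith [hμ.one_le]
  induction k using Int.induction_on with
  | zero => simpa using good_self hμ hlam hz0 (0 : Site d)
  | succ n ih =>
      have h1 : Good μ M lam z (Pi.single j ((n : ℤ) + 1) : Site d) (Pi.single j (n : ℤ)) := by
        refine good_nbr hμ hlam hz0 _ _ j (Or.inr ?_)
        rw [Pi.single_add]; simp
      exact good_trans hμ hlam hz0 h1 ih
  | pred n ih =>
      have h1 : Good μ M lam z (Pi.single j (-(n : ℤ) - 1) : Site d) (Pi.single j (-(n : ℤ))) := by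
        refine good_nbr hμ hlam hz0 _ _ j (Or.inl ?_)
        rw [Pi.single_sub]; simp
      exact good_trans hμ hlam hz0 h1 ih

theorem good_all (hμ : GoodLaw μ M K) (hlam : 0 < lam) (hz0 : 0 < z.im) (x y : Site d) :
    Good μ M lam z x y := by
  have hM : 0 ≤ M := by linarith [hμ.one_le]
  have hadd : ∀ v w : Site d, Good μ M lam z v 0 → Good μ M lam z w 0 →
      Good μ M lam z (v + w) 0 := by
    intro v w hv hw
    have h1 := good_translate hM hz0 w hv
    rw [zero_add] at h1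
    exact good_trans hμ hlam hz0 h1 hw
  have h0 : ∀ v : Site d, Good μ M lam z v 0 := by
    intro v
    rw [← Finset.univ_sum_single v]
    refine Finset.sum_induction _ (fun w => Good μ M lam z w 0) hadd ?_ ?_
    · exact good_self hμ hlam hz0 0
    · intro j _
      exact good_int_smul hμ hlam hz0 j (v j)
  have h1 := good_translate hM hz0 y (h0 (x - y))
  rwa [sub_add_cancel, zero_add] at h1

end

end Pool.Agent.Helper3.Anderson
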