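import Pool.Agent.Helper3.Anderson.Model

/-!
# The uniform law on `[0, 1]` satisfies the hypotheses
-/

namespace Pool.Agent.Helper3.Anderson

open MeasureTheory ProbabilityTheory

noncomputable section

/-- The uniform law on `[0, 1]`. -/
def uniformLaw : Measure ℝ := volume.restrict (Set.Icc 0 1)

instance : IsProbabilityMeasure uniformLaw := ⟨by simp [uniformLaw]⟩

theorem uniformLaw_boundedDensity : BoundedDensity uniformLaw where
  supp := ⟨1, by
    rw [uniformLaw, Measure.restrict_apply (measurableSet_Icc.compl)]
    have : (Set.Icc (-1 : ℝ) 1)ᶜ ∩ Set.Icc 0 1 = ∅ := by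
      ext x
      simp only [Set.mem_inter_iff, Set.mem_compl_iff, Set.mem_Icc, Set.mem_empty_iff_false,
        iff_false]
      rintro ⟨h, h0, h1⟩
      exact h ⟨by linarith, by linarith⟩
    rw [this, measure_empty]⟩
  dens := ⟨1, by simpa [uniformLaw] using Measure.restrict_le_self⟩

end

end Pool.Agent.Helper3.Anderson
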