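import Pool.Agent.Helper3.Anderson.LLN

open scoped ENNReal NNReal
open MeasureTheory Set Real Filter Topology ProbabilityTheory

noncomputable section

namespace Pool.Agent.Helper3.Anderson

variable {d : ℕ}

section

variable {μ : Measure ℝ} [IsProbabilityMeasure μ] {M lam : ℝ} {K : ℝ≥0} {z : ℂ}

/-- truncated logarithm of the Green function -/
def lgA (M lam : ℝ) (z : ℂ) (x y : Site d) (A : ℝ) (ω : Site d → ℝ) : ℝ :=
  Real.log (max ‖gc M lam z ω x y‖ (Real.exp (-A)))

theorem continuous_lgA (hM : 0 ≤ M) (hz0 : 0 < z.im) (x y : Site d) (A : ℝ) :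
    Continuous (lgA M lam z x y A) := by
  unfold lgA
  refine Continuous.log ?_ fun ω => (lt_max_of_lt_right (exp_pos _)).ne'
  exact (continuous_gc hM hz0 x y).norm.max continuous_const

theorem abs_lgA_le (hM : 0 ≤ M) (hz0 : 0 < z.im) (x y : Site d) {A : ℝ} (hA : 0 ≤ A)
    (ω : Site d → ℝ) : |lgA M lam z x y A ω| ≤ A + posLog (1 / z.im) := by
  have h0 : 0 < max ‖gc M lam z ω x y‖ (Real.exp (-A)) := lt_max_of_lt_right (exp_pos _)
  have hp : 0 ≤ posLog (1 / z.im) := posLog_nonneg
  unfold lgA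
  rw [abs_le]
  constructor
  · have h1 : Real.exp (-A) ≤ max ‖gc M lam z ω x y‖ (Real.exp (-A)) := le_max_right _ _
    have h2 := Real.log_le_log (exp_pos _) h1
    rw [Real.log_exp] at h2
    linarith
  · rcases le_total ‖gc M lam z ω x y‖ (Real.exp (-A)) with h | h
    · rw [max_eq_right h, Real.log_exp]; linarith
    · rw [max_eq_left h]
      calc Real.log ‖gc M lam z ω x y‖ ≤ posLog ‖gc M lam z ω x y‖ := le_max_right _ _
        _ ≤ posLog (1 / z.im) := posLog_le_posLog (norm_nonneg _) (norm_gc_le hM hz0 ω x y)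
        _ ≤ _ := by linarith

theorem approx_log (hμ : GoodLaw μ M K) (hlam : 0 < lam) (hz0 : 0 < z.im) (x y : Site d)
    {ε : ℝ} (hε : 0 < ε) :
    ∃ (S : Finset (Site d)) (F : (Site d → ℝ) → ℝ) (B : ℝ),
      Measurable F ∧ (∀ ω, |F ω| ≤ B) ∧
        ∫ ω, |Real.log ‖gc M lam z ω x y‖ - F (rs S ω)| ∂(PP d μ) ≤ ε := by
  have hM : 0 ≤ M := by linarith [hμ.one_le]
  have hint := integrable_log (K := K) hμ hlam hz0 x y
  have hne := (good_all (K := K) hμ hlam hz0 x y).1
  have hm : Measurable fun ω : Site d → ℝ => Real.log ‖gc M lam z ω x y‖ :=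
    Real.measurable_log.comp (measurable_gc hM hz0 x y).norm
  -- step 1: truncation
  have h1 : Tendsto (fun n : ℕ => ∫ ω, |Real.log ‖gc M lam z ω x y‖ - lgA M lam z x y n ω|
      ∂(PP d μ)) atTop (𝓝 (∫ _ω, (0 : ℝ) ∂(PP d μ))) := by
    refine tendsto_integral_of_dominated_convergence
      (fun ω => |Real.log ‖gc M lam z ω x y‖|) ?_ hint.abs ?_ ?_
    · intro n
      exact (hm.sub (continuous_lgA hM hz0 x y n).measurable).abs.aestronglyMeasurable
    · intro n
      filter_upwards [hne] with ω hω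
      have hpos : 0 < ‖gc M lam z ω x y‖ := norm_pos_iff.2 hω
      rw [Real.norm_eq_abs, abs_abs]
      unfold lgA
      rcases le_total ‖gc M lam z ω x y‖ (Real.exp (-n)) with h | h
      · rw [max_eq_right h, Real.log_exp]
        have h2 := Real.log_le_log hpos h
        rw [Real.log_exp] at h2
        have hn : (0 : ℝ) ≤ n := Nat.cast_nonneg n
        rw [abs_of_nonpos (by linarith), abs_of_nonpos (by linarith)]
        linarith
      · rw [max_eq_left h]; simp
    · filter_upwards [hne] with ω hω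
      have hpos : 0 < ‖gc M lam z ω x y‖ := norm_pos_iff.2 hω
      obtain ⟨N, hN⟩ := exists_nat_ge (-(Real.log ‖gc M lam z ω x y‖))
      refine tendsto_const_nhds.congr' ?_
      filter_upwards [eventually_ge_atTop N] with n hn
      have hn' : (N : ℝ) ≤ n := by exact_mod_cast hn
      have h3 : Real.exp (-n) ≤ ‖gc M lam z ω x y‖ := by
        rw [← Real.exp_log hpos]
        exact Real.exp_le_exp.2 (by linarith)
      unfold lgA
      rw [max_eq_left h3]; simp
  rw [integral_zero] at h1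
  obtain ⟨n, hn⟩ := (h1.eventually (gt_mem_nhds (show (0 : ℝ) < ε / 2 by positivity))).exists
  -- step 2: localisation
  have hB := fun ω => abs_lgA_le (lam := lam) hM hz0 x y (Nat.cast_nonneg n) ω
  have hc := continuous_lgA (lam := lam) hM hz0 x y (n : ℝ)
  have h2 : Tendsto (fun S : Finset (Site d) => ∫ ω, |lgA M lam z x y n ω
      - lgA M lam z x y n (rs S ω)| ∂(PP d μ)) atTop (𝓝 (∫ _ω, (0 : ℝ) ∂(PP d μ))) := by
    refine tendsto_integral_filter_of_dominated_convergence
      (fun _ => 2 * (n + posLog (1 / z.im))) ?_ ?_ (integrable_const _) ?_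
    · refine Eventually.of_forall fun S => ?_
      exact (hc.measurable.sub (hc.measurable.comp (measurable_rs S))).abs.aestronglyMeasurable
    · refine Eventually.of_forall fun S => Eventually.of_forall fun ω => ?_
      rw [Real.norm_eq_abs, abs_abs]
      refine (abs_sub _ _).trans ?_
      have := hB ω
      have := hB (rs S ω)
      linarith
    · refine Eventually.of_forall fun ω => ?_
      have h3 := (hc.tendsto ω).comp (tendsto_rs ω)
      have h4 := (tendsto_const_nhds (x := lgA M lam z x y n ω)).sub h3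
      rw [sub_self] at h4
      have h5 := h4.abs
      rw [abs_zero] at h5
      exact h5
  rw [integral_zero] at h2
  obtain ⟨S, hS⟩ := (h2.eventually (gt_mem_nhds (show (0 : ℝ) < ε / 2 by positivity))).exists
  refine ⟨S, lgA M lam z x y n, _, hc.measurable, hB, ?_⟩
  have i1 : Integrable (lgA M lam z x y n) (PP d μ) :=
    Integrable.of_bound hc.measurable.aestronglyMeasurable _ (Eventually.of_forall hB)
  have i2 : Integrable (fun ω => lgA M lam z x y n (rs S ω)) (PP d μ) :=
    Integrable.of_bound (hc.measurable.comp (measurable_rs S)).aestronglyMeasurable _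
      (Eventually.of_forall fun ω => hB _)
  have i3 : Integrable (fun ω => |Real.log ‖gc M lam z ω x y‖ - lgA M lam z x y n ω|) (PP d μ) :=
    (hint.sub i1).abs
  have i4 : Integrable (fun ω => |lgA M lam z x y n ω - lgA M lam z x y n (rs S ω)|) (PP d μ) :=
    (i1.sub i2).abs
  calc ∫ ω, |Real.log ‖gc M lam z ω x y‖ - lgA M lam z x y n (rs S ω)| ∂(PP d μ)
      ≤ ∫ ω, (|Real.log ‖gc M lam z ω x y‖ - lgA M lam z x y n ω|
        + |lgA M lam z x y n ω - lgA M lam z x y n (rs S ω)|) ∂(PP d μ) := by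
        refine integral_mono (hint.sub i2).abs (i3.add i4) fun ω => ?_
        exact abs_sub_le _ _ _
    _ = _ := integral_add i3 i4
    _ ≤ ε := by linarith

/-- the bound on the expected positive logarithm of the ratio -/
theorem integral_posLog_rr (hμ : GoodLaw μ M K) (hlam : 0 < lam) (hz0 : 0 < z.im)
    (x u y : Site d) :
    ∫ ω, posLog (rr M lam z x u y ω) ∂(PP d μ) ≤ 4 * (C2 M lam K).toReal := by
  have hM : 0 ≤ M := by linarith [hμ.one_le]
  have hint : Integrable (fun ω => posLog (rr M lam z x u y ω)) (PP d μ) :=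
    (memLp_posLog_rr hμ hlam hz0 x u y).integrable (by norm_num)
  have hintm : Integrable (fun ω => (rr M lam z x u y ω) ^ (1/4 : ℝ)) (PP d μ) := by
    refine ⟨((measurable_rr hM hz0 x u y).pow_const _).aestronglyMeasurable, ?_⟩
    rw [hasFiniteIntegral_iff_ofReal
      (Eventually.of_forall fun ω => rpow_nonneg (rr_nonneg x u y ω) _)]
    exact lt_of_le_of_lt (lintegral_rr hμ hlam hz0 x u y) (lt_top_iff_ne_top.2 (C2_ne_top M K))
  have hmom : ∫ ω, (rr M lam z x u y ω) ^ (1/4 : ℝ) ∂(PP d μ) ≤ (C2 M lam K).toReal := by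
    rw [integral_eq_lintegral_of_nonneg_ae
      (Eventually.of_forall fun ω => rpow_nonneg (rr_nonneg x u y ω) _)
      ((measurable_rr hM hz0 x u y).pow_const _).aestronglyMeasurable]
    exact ENNReal.toReal_mono (C2_ne_top M K) (lintegral_rr hμ hlam hz0 x u y)
  have hpt : ∀ ω : Site d → ℝ, posLog (rr M lam z x u y ω)
      ≤ 4 * (rr M lam z x u y ω) ^ (1/4 : ℝ) := by
    intro ω
    have h0 := rr_nonneg (M := M) (lam := lam) (z := z) x u y ω
    rw [posLog_def]
    refine max_le (by positivity) ?_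
    have := Real.log_le_rpow_div h0 (show (0 : ℝ) < 1/4 by norm_num)
    linarith
  calc _ ≤ ∫ ω, 4 * (rr M lam z x u y ω) ^ (1/4 : ℝ) ∂(PP d μ) :=
        integral_mono hint (hintm.const_mul 4) hpt
    _ ≤ _ := by rw [integral_const_mul]; gcongr

/-- block decomposition of `-log |G(nv,0)|` -/
theorem block (hμ : GoodLaw μ M K) (hlam : 0 < lam) (hz0 : 0 < z.im) (v : Site d) (k r q : ℕ) :
    ∃ W : (Site d → ℝ) → ℝ, Integrable W (PP d μ) ∧ (∀ ω, 0 ≤ W ω) ∧
      ∫ ω, W ω ∂(PP d μ) ≤ q * (4 * (C2 M lam K).toReal) ∧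
      ∀ᵐ ω ∂(PP d μ), -Real.log ‖gc M lam z ω ((q * k + r) • v) 0‖
        ≤ ∑ j ∈ Finset.range q, -Real.log ‖gc M lam z (tr (j • (k • v)) ω) (k • v) 0‖
          + -Real.log ‖gc M lam z (tr (q • (k • v)) ω) (r • v) 0‖ + W ω := by
  have hM : 0 ≤ M := by linarith [hμ.one_le]
  induction q with
  | zero =>
    refine ⟨fun _ => 0, integrable_zero _ _ _, fun _ => le_rfl, by simp, ?_⟩
    refine Eventually.of_forall fun ω => ?_
    have : tr (0 : Site d) ω = ω := by funext x; simp [tr]
    simp [this]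
  | succ q ih =>
    obtain ⟨W, hW1, hW2, hW3, hW4⟩ := ih
    have hmp := measurePreserving_tr (μ := μ) (k • v)
    set ρ : (Site d → ℝ) → ℝ := fun ω =>
      posLog (rr M lam z ((k + (q * k + r)) • v) (k • v) 0 ω) with hρ
    have hρi : Integrable ρ (PP d μ) :=
      (memLp_posLog_rr hμ hlam hz0 _ _ _).integrable (by norm_num)
    have hWt : Integrable (fun ω => W (tr (k • v) ω)) (PP d μ) :=
      hmp.integrable_comp_of_integrable hW1
    refine ⟨fun ω => W (tr (k • v) ω) + ρ ω, hWt.add hρi,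
      fun ω => add_nonneg (hW2 _) posLog_nonneg, ?_, ?_⟩
    · rw [integral_add hWt hρi, integral_tr hW1.aestronglyMeasurable]
      have := integral_posLog_rr (K := K) hμ hlam hz0 ((k + (q * k + r)) • v) (k • v) 0
      push_cast
      linarith
    · have h1 := hmp.quasiMeasurePreserving.ae hW4
      filter_upwards [h1, ae_log_rr hμ hlam hz0 ((k + (q * k + r)) • v) (k • v) 0] with ω w1 w2
      have e0 : ((q + 1) * k + r) • v = (k + (q * k + r)) • v := by
        congr 1; ring
      have e1 : gc M lam z ω ((k + (q * k + r)) • v) (k • v)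
          = gc M lam z (tr (k • v) ω) ((q * k + r) • v) 0 := by
        rw [gc_tr hM hz0, zero_add, add_comm k, add_smul]
      have e2 : ∀ j : ℕ, tr (j • (k • v)) (tr (k • v) ω) = tr ((j + 1) • (k • v)) ω := by
        intro j
        rw [tr_tr, add_smul, one_smul]
      have e3 : tr (0 • (k • v)) ω = ω := by funext x; simp [tr]
      have h3 : Real.log (rr M lam z ((k + (q * k + r)) • v) (k • v) 0 ω) ≤ ρ ω :=
        le_max_right _ _
      rw [w2, e1] at h3
      simp only [e2] at w1
      rw [e0, Finset.sum_range_succ', e3]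
      linarith

/-- integrability of the logarithm as an integral of the absolute value along translates -/
theorem integral_tr_log (hM : 0 ≤ M) (hz0 : 0 < z.im) (x y w : Site d) :
    ∫ ω, |Real.log ‖gc M lam z (tr w ω) x y‖| ∂(PP d μ)
      = ∫ ω, |Real.log ‖gc M lam z ω x y‖| ∂(PP d μ) := by
  have hm : Measurable fun ω : Site d → ℝ => |Real.log ‖gc M lam z ω x y‖| :=
    (Real.measurable_log.comp (measurable_gc hM hz0 x y).norm).abs
  exact integral_tr (f := fun ω => |Real.log ‖gc M lam z ω x y‖|) hm.aestronglyMeasurable w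

variable (hμ : GoodLaw μ M K) (hlam : 0 < lam) (hz0 : 0 < z.im)

theorem tendsto_div_mod (k : ℕ) (hk : 0 < k) :
    Tendsto (fun n : ℕ => ((n / k : ℕ) : ℝ) / n) atTop (𝓝 (1 / k)) := by
  have h1 : Tendsto (fun n : ℕ => (1 : ℝ) / n) atTop (𝓝 0) := tendsto_const_div_atTop_nhds_zero_nat 1
  have h2 : Tendsto (fun n : ℕ => (1 : ℝ) / k - 1 / n) atTop (𝓝 (1 / k)) := by
    simpa using (tendsto_const_nhds (x := (1 : ℝ) / k)).sub h1
  have hk' : (0 : ℝ) < k := by exact_mod_cast hk
  refine tendsto_of_tendsto_of_tendsto_of_le_of_le' h2 tendsto_const_nhds ?_ ?_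
  · filter_upwards [eventually_gt_atTop 0] with n hn
    have hn' : (0 : ℝ) < n := by exact_mod_cast hn
    have h3 : (n : ℝ) < ((n / k : ℕ) + 1) * k := by
      have h4 := Nat.div_add_mod n k
      have h5 := Nat.mod_lt n hk
      have h6 : n < (n / k + 1) * k := by nlinarith
      exact_mod_cast h6
    rw [sub_le_iff_le_add, ← add_div, div_le_div_iff₀ hk' hn']
    linarith
  · filter_upwards [eventually_gt_atTop 0] with n hn
    have hn' : (0 : ℝ) < n := by exact_mod_cast hn
    rw [div_le_div_iff₀ hn' hk', one_mul]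
    exact_mod_cast Nat.div_mul_le_self n k

/-- `L¹` law of large numbers for the logarithm of the Green function -/
theorem tendsto_L1 (v : Site d) :
    Tendsto (fun n : ℕ => ∫ ω, |-Real.log ‖gc M lam z ω (n • v) 0‖ / n
      - LL μ M lam K z hμ hlam hz0 v| ∂(PP d μ)) atTop (𝓝 0) := by
  have hM : 0 ≤ M := by linarith [hμ.one_le]
  set L := LL μ M lam K z hμ hlam hz0 v with hL
  by_cases hv : v = 0
  · have hL0 : L = 0 := by
      have := LL_nsmul hμ hlam hz0 0 v
      rw [zero_smul] at this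
      rw [hL, hv, this]; simp
    have h1 : ∀ n : ℕ, ∫ ω, |-Real.log ‖gc M lam z ω (n • v) 0‖ / n - L| ∂(PP d μ)
        = (∫ ω, |Real.log ‖gc M lam z ω (0 : Site d) 0‖| ∂(PP d μ)) / n := by
      intro n
      rw [← integral_div]
      refine integral_congr_ae (Eventually.of_forall fun ω => ?_)
      simp only [hL0, sub_zero, hv, smul_zero, abs_div, abs_neg, Nat.abs_cast]
    simp only [h1]
    exact tendsto_const_div_atTop_nhds_zero_nat _
  -- main case
  set CR : ℝ := 4 * (C2 M lam K).toReal with hCR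
  have hCR0 : 0 ≤ CR := by
    have := (C2_pos (K := K) hμ.one_le hlam).le
    positivity
  have htd := tendsto_LL hμ hlam hz0 v
  rw [← hL] at htd
  rw [Metric.tendsto_atTop]
  intro ε hε
  -- choice of the block length
  have hk1 : ∀ᶠ k : ℕ in atTop, |-(uu μ M lam z (k • v)) / k - L| < ε / 16 := by
    have := (Metric.tendsto_nhds.1 htd) (ε / 16) (by positivity)
    simpa [Real.dist_eq] using this
  have hk2 : ∀ᶠ k : ℕ in atTop, CR / k < ε / 16 :=
    (tendsto_const_div_atTop_nhds_zero_nat CR).eventually (gt_mem_nhds (by positivity))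
  obtain ⟨k, hk1, hk2, hk0⟩ := (hk1.and (hk2.and (eventually_gt_atTop 0))).exists
  have hk' : (0 : ℝ) < k := by exact_mod_cast hk0
  set a : ℝ := -(uu μ M lam z (k • v)) with ha
  have hkv : k • v ≠ 0 := smul_ne_zero hk0.ne' hv
  set f : (Site d → ℝ) → ℝ := fun ω => Real.log ‖gc M lam z ω (k • v) 0‖ with hf
  have hfi : Integrable f (PP d μ) := integrable_log hμ hlam hz0 _ _
  have hlln := lln hfi (fun ε hε => approx_log hμ hlam hz0 (k • v) 0 hε) hkv
  have hfa : ∫ ω, f ω ∂(PP d μ) = -a := by rw [ha, neg_neg]; rfl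
  rw [hfa] at hlln
  -- bound for the remainders
  set D : ℝ := ∑ r ∈ Finset.range k, ∫ ω, |Real.log ‖gc M lam z ω (r • v) 0‖| ∂(PP d μ) with hD
  have hD0 : 0 ≤ D := Finset.sum_nonneg fun r _ => integral_nonneg fun ω => abs_nonneg _
  have hDr : ∀ r, r < k → ∫ ω, |Real.log ‖gc M lam z ω (r • v) 0‖| ∂(PP d μ) ≤ D := by
    intro r hr
    exact Finset.single_le_sum (f := fun r => ∫ ω, |Real.log ‖gc M lam z ω (r • v) 0‖| ∂(PP d μ))
      (fun r _ => integral_nonneg fun ω => abs_nonneg _) (Finset.mem_range.2 hr)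
  -- deterministic limits
  have t1 := tendsto_div_mod k hk0
  have t2 : Tendsto (fun n : ℕ => 2 * D / (n : ℝ)) atTop (𝓝 0) :=
    tendsto_const_div_atTop_nhds_zero_nat _
  have t3 := hlln.comp (Nat.tendsto_div_const_atTop hk0.ne')
  have t4 := t1.mul t3
  rw [mul_zero] at t4
  have t5 := (t1.mul_const a).sub_const L
  have t6 := t5.abs
  have t7 := (t1.mul_const a).sub htd
  have t8 := t1.mul_const (2 * CR)
  have t9 := (((t7.add t6).add t8).add t4).add t2
  have hlim : (1 / (k : ℝ) * a - L + |1 / (k : ℝ) * a - L| + 1 / (k : ℝ) * (2 * CR) + 0 + 0) < ε := by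
    have e1 : 1 / (k : ℝ) * a = -(uu μ M lam z (k • v)) / k := by rw [ha]; ring
    have e2 : 1 / (k : ℝ) * (2 * CR) = 2 * (CR / k) := by ring
    rw [e1, e2]
    have := le_abs_self (-(uu μ M lam z (k • v)) / k - L)
    linarith
  have hev := (t9.eventually (gt_mem_nhds hlim)).and (eventually_gt_atTop 0)
  rw [eventually_atTop] at hev
  obtain ⟨N, hN⟩ := hev
  refine ⟨N, fun n hn => ?_⟩
  obtain ⟨h1, hn0⟩ := hN n hn
  rw [Real.dist_eq, sub_zero, abs_of_nonneg (integral_nonneg fun ω => abs_nonneg _)]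
  refine lt_of_le_of_lt ?_ h1
  have hn' : (0 : ℝ) < n := by exact_mod_cast hn0
  set q := n / k with hq
  set r := n % k with hr
  have hnqr : q * k + r = n := Nat.div_add_mod' n k
  have hrk : r < k := Nat.mod_lt n hk0
  obtain ⟨W, hW1, hW2, hW3, hW4⟩ := block hμ hlam hz0 v k r q
  rw [hnqr] at hW4
  set Y : (Site d → ℝ) → ℝ := fun ω => ∑ j ∈ Finset.range q, f (tr (j • (k • v)) ω) with hY
  set R : (Site d → ℝ) → ℝ := fun ω =>
    Real.log ‖gc M lam z (tr (q • (k • v)) ω) (r • v) 0‖ with hR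
  set X : (Site d → ℝ) → ℝ := fun ω => Real.log ‖gc M lam z ω (n • v) 0‖ with hX
  have iX : Integrable X (PP d μ) := integrable_log hμ hlam hz0 _ _
  have iR : Integrable R (PP d μ) :=
    (measurePreserving_tr (μ := μ) (q • (k • v))).integrable_comp_of_integrable
      (integrable_log hμ hlam hz0 (r • v) 0)
  have iYj : ∀ j ∈ Finset.range q, Integrable (fun ω : Site d → ℝ =>
      f (tr (j • (k • v)) ω)) (PP d μ) := fun j _ =>
    (measurePreserving_tr (μ := μ) (j • (k • v))).integrable_comp_of_integrable hfi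
  have iY : Integrable Y (PP d μ) := integrable_finsetSum _ iYj
  have hptw : ∀ᵐ ω ∂(PP d μ), 0 ≤ X ω - Y ω - R ω + W ω := by
    filter_upwards [hW4] with ω hω
    rw [Finset.sum_neg_distrib] at hω
    simp only [hX, hY, hR, hf]
    linarith
  have hEY : ∫ ω, Y ω ∂(PP d μ) = -(q * a) := by
    simp only [hY]
    rw [integral_finsetSum _ iYj]
    have : ∀ j ∈ Finset.range q, ∫ ω, f (tr (j • (k • v)) ω) ∂(PP d μ) = -a := fun j _ => by
      rw [integral_tr hfi.aestronglyMeasurable, hfa]
    rw [Finset.sum_congr rfl this, Finset.sum_const, Finset.card_range, nsmul_eq_mul]; ring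
  have hEX : ∫ ω, X ω ∂(PP d μ) = uu μ M lam z (n • v) := rfl
  have hERabs : ∫ ω, |R ω| ∂(PP d μ) ≤ D := by
    have := integral_tr_log (μ := μ) (lam := lam) hM hz0 (r • v) 0 (q • (k • v))
    simp only [hR]
    rw [this]
    exact hDr r hrk
  have hER : -∫ ω, R ω ∂(PP d μ) ≤ D :=
    (neg_le_abs _).trans ((abs_integral_le_integral_abs).trans hERabs)
  -- pointwise estimate
  have hest : ∀ᵐ ω ∂(PP d μ), |-X ω / n - L| ≤ (X ω - Y ω - R ω + W ω) / n
      + |-Y ω / n - L| + |R ω| / n + W ω / n := by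
    filter_upwards [hptw] with ω h0
    have e : -X ω / n - L = -((X ω - Y ω - R ω + W ω) / n) + (-Y ω / n - L) + (-R ω / n)
        + W ω / n := by field_simp; ring
    rw [e]
    refine (abs_add_le _ _).trans ?_
    refine add_le_add ((abs_add_le _ _).trans (add_le_add ((abs_add_le _ _).trans
      (add_le_add ?_ le_rfl)) ?_)) ?_
    · rw [abs_neg, abs_of_nonneg (by positivity)]
    · rw [abs_div, abs_neg, abs_of_pos hn']
    · rw [abs_of_nonneg (div_nonneg (hW2 ω) hn'.le)]
  have iXY : Integrable (fun ω => X ω - Y ω) (PP d μ) := iX.sub iY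
  have iXYR : Integrable (fun ω => X ω - Y ω - R ω) (PP d μ) := iXY.sub iR
  have iXYRW : Integrable (fun ω => X ω - Y ω - R ω + W ω) (PP d μ) := iXYR.add hW1
  have i1 : Integrable (fun ω => (X ω - Y ω - R ω + W ω) / (n : ℝ)) (PP d μ) := iXYRW.div_const _
  have i2 : Integrable (fun ω => |-Y ω / (n : ℝ) - L|) (PP d μ) :=
    ((iY.neg.div_const _).sub (integrable_const _)).abs
  have i3 : Integrable (fun ω => |R ω| / (n : ℝ)) (PP d μ) := iR.abs.div_const _
  have i4 : Integrable (fun ω => W ω / (n : ℝ)) (PP d μ) := hW1.div_const _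
  have i12 : Integrable (fun ω => (X ω - Y ω - R ω + W ω) / (n : ℝ) + |-Y ω / (n : ℝ) - L|)
    (PP d μ) := i1.add i2
  have i123 : Integrable (fun ω => (X ω - Y ω - R ω + W ω) / (n : ℝ) + |-Y ω / (n : ℝ) - L|
    + |R ω| / (n : ℝ)) (PP d μ) := i12.add i3
  have hYb : ∫ ω, |-Y ω / (n : ℝ) - L| ∂(PP d μ)
      ≤ (q : ℝ) / n * (∫ ω, |(∑ j ∈ Finset.range q, f (tr (j • (k • v)) ω)) / q - -a| ∂(PP d μ))
        + |(q : ℝ) / n * a - L| := by
    have iz : Integrable (fun ω => |(∑ j ∈ Finset.range q, f (tr (j • (k • v)) ω)) / (q : ℝ) - -a|)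
        (PP d μ) := ((iY.div_const _).sub (integrable_const _)).abs
    calc ∫ ω, |-Y ω / (n : ℝ) - L| ∂(PP d μ)
        ≤ ∫ ω, ((q : ℝ) / n * |(∑ j ∈ Finset.range q, f (tr (j • (k • v)) ω)) / (q : ℝ) - -a|
          + |(q : ℝ) / n * a - L|) ∂(PP d μ) := by
          refine integral_mono i2 ((iz.const_mul _).add (integrable_const _)) fun ω => ?_
          simp only
          have e : -Y ω / (n : ℝ) - L = -((q : ℝ) / n * ((∑ j ∈ Finset.range q,
              f (tr (j • (k • v)) ω)) / (q : ℝ) - -a)) + ((q : ℝ) / n * a - L) := by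
            rcases Nat.eq_zero_or_pos q with h | h
            · simp only [hY, h]; simp
            · have : (q : ℝ) ≠ 0 := by positivity
              simp only [hY]
              field_simp
              ring
          rw [e]
          refine (abs_add_le _ _).trans ?_
          rw [abs_neg, abs_mul, abs_of_nonneg (show (0 : ℝ) ≤ (q : ℝ) / n by positivity)]
      _ = _ := by
          rw [integral_add (iz.const_mul _) (integrable_const _), integral_const_mul]
          simp
  calc ∫ ω, |-X ω / n - L| ∂(PP d μ)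
      ≤ ∫ ω, ((X ω - Y ω - R ω + W ω) / n + |-Y ω / n - L| + |R ω| / n + W ω / n) ∂(PP d μ) := by
        refine integral_mono_ae ?_ (i123.add i4) hest
        exact ((iX.neg.div_const _).sub (integrable_const _)).abs
    _ = (∫ ω, X ω ∂(PP d μ) - ∫ ω, Y ω ∂(PP d μ) - ∫ ω, R ω ∂(PP d μ) + ∫ ω, W ω ∂(PP d μ)) / n
        + ∫ ω, |-Y ω / n - L| ∂(PP d μ) + (∫ ω, |R ω| ∂(PP d μ)) / n
        + (∫ ω, W ω ∂(PP d μ)) / n := by
        rw [integral_add i123 i4, integral_add i12 i3, integral_add i1 i2, integral_div,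
          integral_div, integral_div, integral_add iXYR hW1, integral_sub iXY iR,
          integral_sub iX iY]
    _ ≤ _ := by
        rw [hEY, hEX]
        have hWn : (∫ ω, W ω ∂(PP d μ)) / n ≤ (q : ℝ) / n * CR := by
          rw [div_mul_eq_mul_div]; gcongr
        have hRn : (∫ ω, |R ω| ∂(PP d μ)) / n ≤ D / n := by gcongr
        have hR2 : -(∫ ω, R ω ∂(PP d μ)) / n ≤ D / n := by gcongr
        have e : (uu μ M lam z (n • v) - -(q * a) - ∫ ω, R ω ∂(PP d μ) + ∫ ω, W ω ∂(PP d μ)) / n
            = ((q : ℝ) / n * a - -(uu μ M lam z (n • v)) / n) + -(∫ ω, R ω ∂(PP d μ)) / n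
              + (∫ ω, W ω ∂(PP d μ)) / n := by field_simp; ring
        rw [e]
        simp only [Function.comp_apply]
        have e2 : (q : ℝ) / n * (2 * CR) = (q : ℝ) / n * CR + (q : ℝ) / n * CR := by ring
        have e3 : 2 * D / (n : ℝ) = D / n + D / n := by ring
        rw [e2, e3]
        linarith

end

end Pool.Agent.Helper3.Anderson
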