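import Pool.Agent.Helper3.Anderson.Super

open scoped ENNReal NNReal
open MeasureTheory Set Real Filter Topology ProbabilityTheory

noncomputable section

namespace Pool.Agent.Helper3.Anderson

variable {d : ℕ}

/-- restriction of a configuration to a finite set (zero outside) -/
def rs (S : Finset (Site d)) (ω : Site d → ℝ) : Site d → ℝ := fun x => if x ∈ S then ω x else 0

theorem measurable_rs (S : Finset (Site d)) : Measurable (rs S) := by
  rw [measurable_pi_iff]
  intro x
  unfold rs
  by_cases h : x ∈ S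
  · simp only [h, if_true]; exact measurable_pi_apply x
  · simp only [h, if_false]; exact measurable_const

theorem tendsto_rs (ω : Site d → ℝ) :
    Tendsto (fun S : Finset (Site d) => rs S ω) atTop (𝓝 ω) := by
  rw [tendsto_pi_nhds]
  intro x
  refine tendsto_const_nhds.congr' ?_
  filter_upwards [eventually_ge_atTop {x}] with S hS
  have : x ∈ S := hS (Finset.mem_singleton_self x)
  simp [rs, this]

theorem measurable_tr (v : Site d) : Measurable (tr v) := by
  unfold tr
  rw [measurable_pi_iff]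
  intro x
  exact measurable_pi_apply _

theorem tr_tr (v w : Site d) (ω : Site d → ℝ) : tr v (tr w ω) = tr (v + w) ω := by
  funext x
  simp only [tr]
  rw [add_assoc]

section

variable {μ : Measure ℝ} [IsProbabilityMeasure μ]

theorem cov_zero (S : Finset (Site d)) (a b : Site d)
    (hab : Disjoint (S.image (· + a)) (S.image (· + b))) {F : (Site d → ℝ) → ℝ}
    (hF : Measurable F) :
    ∫ ω, F (rs S (tr a ω)) * F (rs S (tr b ω)) ∂(PP d μ)
      = (∫ ω, F (rs S (tr a ω)) ∂(PP d μ)) * ∫ ω, F (rs S (tr b ω)) ∂(PP d μ) := by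
  have h1 : iIndepFun (fun (x : Site d) (ω : Site d → ℝ) => ω x) (PP d μ) :=
    iIndepFun_infinitePi (P := fun _ : Site d => μ) (X := fun _ ω => ω) (fun _ => measurable_id)
  have h2 := h1.indepFun_finset _ _ hab (fun i => measurable_pi_apply i)
  have key : ∀ a : Site d, ∃ φ : (↥(S.image (· + a)) → ℝ) → ℝ, Measurable φ ∧
      ∀ ω : Site d → ℝ, F (rs S (tr a ω)) = φ (fun i => ω i) := by
    intro a
    refine ⟨fun b => F (fun x => if h : x ∈ S then
      b ⟨x + a, Finset.mem_image_of_mem _ h⟩ else 0), ?_, ?_⟩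
    · refine hF.comp ?_
      rw [measurable_pi_iff]
      intro x
      by_cases h : x ∈ S
      · simp only [h, dif_pos]; exact measurable_pi_apply _
      · simp only [h, dif_neg, not_false_eq_true]; exact measurable_const
    · intro ω
      refine congrArg F (funext fun x => ?_)
      by_cases h : x ∈ S <;> simp [rs, tr, h]
  obtain ⟨φ, hφ, hφ'⟩ := key a
  obtain ⟨ψ, hψ, hψ'⟩ := key b
  have h3 := h2.comp hφ hψ
  have h4 := h3.integral_fun_mul_eq_mul_integral
    ((hφ.comp (measurable_pi_iff.2 fun i => measurable_pi_apply _)).aestronglyMeasurable)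
    ((hψ.comp (measurable_pi_iff.2 fun i => measurable_pi_apply _)).aestronglyMeasurable)
  simp only [Function.comp_def] at h4
  simp only [hφ', hψ']
  exact h4

theorem integral_tr {f : (Site d → ℝ) → ℝ} (hf : AEStronglyMeasurable f (PP d μ)) (v : Site d) :
    ∫ ω, f (tr v ω) ∂(PP d μ) = ∫ ω, f ω ∂(PP d μ) := by
  have hmp := measurePreserving_tr (μ := μ) v
  have h1 : ∫ ω, f ω ∂((PP d μ).map (tr v)) = ∫ ω, f (tr v ω) ∂(PP d μ) := by
    refine integral_map hmp.measurable.aemeasurable ?_
    rw [hmp.map_eq]; exact hf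
  rw [hmp.map_eq] at h1
  exact h1.symm

theorem exists_sep (S : Finset (Site d)) {w : Site d} (hw : w ≠ 0) :
    ∃ m : ℕ, ∀ i j : ℕ, (i + m ≤ j ∨ j + m ≤ i) →
      Disjoint (S.image (· + i • w)) (S.image (· + j • w)) := by
  obtain ⟨k, hk⟩ : ∃ k, w k ≠ 0 := by
    by_contra h
    push Not at h
    exact hw (funext h)
  obtain ⟨R, hR⟩ : ∃ R : ℕ, ∀ x ∈ S, |x k| ≤ R := by
    refine ⟨(S.sup fun x => (x k).natAbs), fun x hx => ?_⟩
    have := Finset.le_sup (f := fun x : Site d => (x k).natAbs) hx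
    have h2 : |x k| = ((x k).natAbs : ℤ) := Int.abs_eq_natAbs _
    rw [h2]; exact_mod_cast this
  refine ⟨2 * R + 1, fun i j hij => ?_⟩
  rw [Finset.disjoint_left]
  intro p hp hq
  obtain ⟨x, hx, rfl⟩ := Finset.mem_image.1 hp
  obtain ⟨y, hy, hxy⟩ := Finset.mem_image.1 hq
  have h1 := congrFun hxy k
  simp only [Pi.add_apply, Pi.smul_apply] at h1
  rw [nsmul_eq_mul, nsmul_eq_mul] at h1
  have hx' := abs_le.1 (hR x hx)
  have hy' := abs_le.1 (hR y hy)
  have h2 : ((i : ℤ) - j) * w k = y k - x k := by linear_combination -h1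
  have h3 : |((i : ℤ) - j) * w k| ≤ 2 * R := by
    rw [h2, abs_le]; constructor <;> linarith
  rw [abs_mul] at h3
  have h4 : 1 ≤ |w k| := Int.one_le_abs hk
  have h5 : (2 * R + 1 : ℤ) ≤ |(i : ℤ) - j| := by
    rcases hij with h | h
    · rw [abs_sub_comm]
      refine le_trans ?_ (le_abs_self _)
      omega
    · refine le_trans ?_ (le_abs_self _)
      omega
  nlinarith [abs_nonneg ((i : ℤ) - j)]

/-- variance bound for averages of bounded local functions -/
theorem var_avg (S : Finset (Site d)) {w : Site d} (hw : w ≠ 0) {F : (Site d → ℝ) → ℝ}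
    (hF : Measurable F) {B : ℝ} (hB : ∀ ω, |F ω| ≤ B) :
    ∃ D : ℝ, ∀ q : ℕ, ∫ ω, (∑ j ∈ Finset.range q, (F (rs S (tr (j • w) ω))
      - ∫ ω', F (rs S ω') ∂(PP d μ))) ^ 2 ∂(PP d μ) ≤ D * q := by
  obtain ⟨m, hm⟩ := exists_sep S hw
  set c : ℝ := ∫ ω', F (rs S ω') ∂(PP d μ) with hc
  have hB0 : 0 ≤ B := (abs_nonneg _).trans (hB 0)
  have hmF : Measurable fun ω => F (rs S ω) := hF.comp (measurable_rs S)
  have hmj : ∀ j : ℕ, Measurable fun ω : Site d → ℝ => F (rs S (tr (j • w) ω)) :=
    fun j => hmF.comp (measurable_tr _)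
  have hcj : ∀ j : ℕ, ∫ ω, F (rs S (tr (j • w) ω)) ∂(PP d μ) = c := fun j =>
    integral_tr hmF.aestronglyMeasurable (j • w)
  have hcB : |c| ≤ B := by
    have := norm_integral_le_of_norm_le_const (μ := PP d μ) (f := fun ω => F (rs S ω)) (C := B)
      (Eventually.of_forall fun ω => hB _)
    simpa using this
  have hij : ∀ j : ℕ, Integrable (fun ω : Site d → ℝ => F (rs S (tr (j • w) ω))) (PP d μ) :=
    fun j => Integrable.of_bound (hmj j).aestronglyMeasurable B
      (Eventually.of_forall fun ω => hB _)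
  have hiij : ∀ i j : ℕ, Integrable (fun ω : Site d → ℝ =>
      (F (rs S (tr (i • w) ω)) - c) * (F (rs S (tr (j • w) ω)) - c)) (PP d μ) := by
    intro i j
    refine Integrable.of_bound (((hmj i).sub_const c).mul
      ((hmj j).sub_const c)).aestronglyMeasurable ((2 * B) * (2 * B))
      (Eventually.of_forall fun ω => ?_)
    rw [norm_mul, Real.norm_eq_abs, Real.norm_eq_abs]
    have e1 : ∀ j : ℕ, |F (rs S (tr (j • w) ω)) - c| ≤ 2 * B := fun j => by
      have := abs_sub (F (rs S (tr (j • w) ω))) c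
      have := hB (rs S (tr (j • w) ω))
      linarith
    gcongr
    · exact e1 i
    · exact e1 j
  have hcov : ∀ i j : ℕ, ∫ ω, (F (rs S (tr (i • w) ω)) - c) * (F (rs S (tr (j • w) ω)) - c)
      ∂(PP d μ) ≤ if (i + m ≤ j ∨ j + m ≤ i) then 0 else 4 * B ^ 2 := by
    intro i j
    split_ifs with h
    · have h1 := cov_zero (μ := μ) S (i • w) (j • w) (hm i j h) hF
      rw [hcj, hcj] at h1
      have hint : Integrable (fun ω : Site d → ℝ =>
          F (rs S (tr (i • w) ω)) * F (rs S (tr (j • w) ω))) (PP d μ) := by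
        refine Integrable.of_bound ((hmj i).mul (hmj j)).aestronglyMeasurable (B * B)
          (Eventually.of_forall fun ω => ?_)
        rw [norm_mul]
        exact mul_le_mul (hB _) (hB _) (norm_nonneg _) hB0
      have h2 : ∀ ω : Site d → ℝ, (F (rs S (tr (i • w) ω)) - c) * (F (rs S (tr (j • w) ω)) - c)
          = F (rs S (tr (i • w) ω)) * F (rs S (tr (j • w) ω))
            - c * F (rs S (tr (i • w) ω)) - c * F (rs S (tr (j • w) ω)) + c * c := by
        intro ω; ring
      simp only [h2]
      have k1 : Integrable (fun ω : Site d → ℝ =>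
          F (rs S (tr (i • w) ω)) * F (rs S (tr (j • w) ω)) - c * F (rs S (tr (i • w) ω)))
          (PP d μ) := hint.sub ((hij i).const_mul c)
      have k2 : Integrable (fun ω : Site d → ℝ =>
          F (rs S (tr (i • w) ω)) * F (rs S (tr (j • w) ω)) - c * F (rs S (tr (i • w) ω))
            - c * F (rs S (tr (j • w) ω))) (PP d μ) := k1.sub ((hij j).const_mul c)
      rw [integral_add k2 (integrable_const _), integral_sub k1 ((hij j).const_mul c),
        integral_sub hint ((hij i).const_mul c), integral_const_mul, integral_const_mul, h1, hcj,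
        hcj]
      simp
    · have := norm_integral_le_of_norm_le_const (μ := PP d μ)
        (f := fun ω : Site d → ℝ => (F (rs S (tr (i • w) ω)) - c) * (F (rs S (tr (j • w) ω)) - c))
        (C := 4 * B ^ 2) (Eventually.of_forall fun ω => ?_)
      · have h3 := (le_abs_self _).trans this
        simpa using h3
      · rw [norm_mul, Real.norm_eq_abs, Real.norm_eq_abs]
        have e1 : ∀ j : ℕ, |F (rs S (tr (j • w) ω)) - c| ≤ 2 * B := fun j => by
          have := abs_sub (F (rs S (tr (j • w) ω))) c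
          have := hB (rs S (tr (j • w) ω))
          linarith
        calc _ ≤ (2 * B) * (2 * B) := mul_le_mul (e1 i) (e1 j) (abs_nonneg _) (by linarith)
          _ = 4 * B ^ 2 := by ring
  refine ⟨(2 * m + 1) * (4 * B ^ 2), fun q => ?_⟩
  have hexp : ∀ ω : Site d → ℝ, (∑ j ∈ Finset.range q, (F (rs S (tr (j • w) ω)) - c)) ^ 2
      = ∑ i ∈ Finset.range q, ∑ j ∈ Finset.range q,
        (F (rs S (tr (i • w) ω)) - c) * (F (rs S (tr (j • w) ω)) - c) := by
    intro ω
    rw [sq, Finset.sum_mul_sum]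
  simp only [hexp]
  rw [integral_finsetSum _ (fun i _ => integrable_finsetSum _ fun j _ => hiij i j)]
  calc ∑ i ∈ Finset.range q, ∫ ω, ∑ j ∈ Finset.range q,
        (F (rs S (tr (i • w) ω)) - c) * (F (rs S (tr (j • w) ω)) - c) ∂(PP d μ)
      ≤ ∑ i ∈ Finset.range q, (2 * (m : ℝ) + 1) * (4 * B ^ 2) := by
        refine Finset.sum_le_sum fun i _ => ?_
        rw [integral_finsetSum _ (fun j _ => hiij i j)]
        calc _ ≤ ∑ j ∈ Finset.range q, (if (i + m ≤ j ∨ j + m ≤ i) then 0 else 4 * B ^ 2) :=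
              Finset.sum_le_sum fun j _ => hcov i j
          _ = ((Finset.range q).filter (fun j => ¬ (i + m ≤ j ∨ j + m ≤ i))).card * (4 * B ^ 2) := by
              rw [Finset.sum_ite]
              simp
          _ ≤ (2 * (m : ℝ) + 1) * (4 * B ^ 2) := by
              gcongr
              have : ((Finset.range q).filter (fun j => ¬ (i + m ≤ j ∨ j + m ≤ i))).card
                  ≤ (Finset.Icc (i - m) (i + m)).card := by
                refine Finset.card_le_card fun j hj => ?_
                rw [Finset.mem_filter] at hj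
                rw [Finset.mem_Icc]
                omega
              rw [Nat.card_Icc] at this
              have h2 : ((Finset.range q).filter (fun j => ¬ (i + m ≤ j ∨ j + m ≤ i))).card
                  ≤ 2 * m + 1 := by omega
              exact_mod_cast h2
    _ = (2 * m + 1) * (4 * B ^ 2) * q := by
        rw [Finset.sum_const, Finset.card_range, nsmul_eq_mul]; ring

/-- `L¹` law of large numbers along a lattice direction for approximable functions -/
theorem lln {f : (Site d → ℝ) → ℝ} (hf : Integrable f (PP d μ))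
    (happ : ∀ ε : ℝ, 0 < ε → ∃ (S : Finset (Site d)) (F : (Site d → ℝ) → ℝ) (B : ℝ),
      Measurable F ∧ (∀ ω, |F ω| ≤ B) ∧ ∫ ω, |f ω - F (rs S ω)| ∂(PP d μ) ≤ ε)
    {w : Site d} (hw : w ≠ 0) :
    Tendsto (fun q : ℕ => ∫ ω, |(∑ j ∈ Finset.range q, f (tr (j • w) ω)) / q
      - ∫ ω', f ω' ∂(PP d μ)| ∂(PP d μ)) atTop (𝓝 0) := by
  rw [Metric.tendsto_atTop]
  intro ε hε
  obtain ⟨S, F, B, hF, hB, hfF⟩ := happ (ε / 4) (by positivity)
  obtain ⟨D, hD⟩ := var_avg (μ := μ) S hw hF hB
  have hD0 : 0 ≤ D := by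
    have h1 := hD 1
    have h2 : 0 ≤ ∫ ω, (∑ j ∈ Finset.range 1, (F (rs S (tr (j • w) ω))
      - ∫ ω', F (rs S ω') ∂(PP d μ))) ^ 2 ∂(PP d μ) := integral_nonneg fun ω => sq_nonneg _
    push_cast at h1
    linarith
  obtain ⟨N, hN⟩ := exists_nat_gt (D / (ε / 4) ^ 2)
  refine ⟨max N 1, fun q hq => ?_⟩
  have hqN : N ≤ q := le_trans (le_max_left _ _) hq
  have hq1 : 1 ≤ q := le_trans (le_max_right _ _) hq
  have hq0 : (0 : ℝ) < q := by exact_mod_cast hq1
  have hmF : Measurable fun ω => F (rs S ω) := hF.comp (measurable_rs S)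
  have hiF : Integrable (fun ω => F (rs S ω)) (PP d μ) :=
    Integrable.of_bound hmF.aestronglyMeasurable B (Eventually.of_forall fun ω => hB _)
  have hmj : ∀ j : ℕ, Measurable fun ω : Site d → ℝ => F (rs S (tr (j • w) ω)) :=
    fun j => hmF.comp (measurable_tr _)
  have hfj : ∀ j : ℕ, Integrable (fun ω : Site d → ℝ => f (tr (j • w) ω)) (PP d μ) := fun j =>
    (measurePreserving_tr (μ := μ) (j • w)).integrable_comp_of_integrable hf
  have hiFj : ∀ j : ℕ, Integrable (fun ω : Site d → ℝ => F (rs S (tr (j • w) ω))) (PP d μ) :=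
    fun j => (measurePreserving_tr (μ := μ) (j • w)).integrable_comp_of_integrable hiF
  set c : ℝ := ∫ ω', F (rs S ω') ∂(PP d μ) with hc
  set e : ℝ := ∫ ω', f ω' ∂(PP d μ) with he
  have hce : |c - e| ≤ ε / 4 := by
    rw [hc, he, ← integral_sub hiF hf]
    refine (abs_integral_le_integral_abs).trans ?_
    refine le_trans (le_of_eq ?_) hfF
    refine integral_congr_ae (Eventually.of_forall fun ω => ?_)
    simp only
    rw [abs_sub_comm]
  rw [Real.dist_eq, sub_zero, abs_of_nonneg (integral_nonneg fun ω => abs_nonneg _)]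
  have hpt : ∀ ω : Site d → ℝ, |(∑ j ∈ Finset.range q, f (tr (j • w) ω)) / q - e|
      ≤ (∑ j ∈ Finset.range q, |f (tr (j • w) ω) - F (rs S (tr (j • w) ω))|) / q
        + |∑ j ∈ Finset.range q, (F (rs S (tr (j • w) ω)) - c)| / q + |c - e| := by
    intro ω
    have h1 : (∑ j ∈ Finset.range q, f (tr (j • w) ω)) / q - e
        = (∑ j ∈ Finset.range q, (f (tr (j • w) ω) - F (rs S (tr (j • w) ω)))) / q
          + (∑ j ∈ Finset.range q, (F (rs S (tr (j • w) ω)) - c)) / q + (c - e) := by
      rw [Finset.sum_sub_distrib, Finset.sum_sub_distrib, Finset.sum_const, Finset.card_range,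
        nsmul_eq_mul]
      field_simp
      ring
    rw [h1]
    refine (abs_add_three _ _ _).trans ?_
    rw [abs_div, abs_div, abs_of_pos hq0]
    gcongr
    exact Finset.abs_sum_le_sum_abs _ _
  have hi1 : Integrable (fun ω : Site d → ℝ =>
      (∑ j ∈ Finset.range q, |f (tr (j • w) ω) - F (rs S (tr (j • w) ω))|) / q) (PP d μ) :=
    (integrable_finsetSum _ fun j _ => ((hfj j).sub (hiFj j)).abs).div_const _
  have hiS : Integrable (fun ω : Site d → ℝ =>
      (∑ j ∈ Finset.range q, (F (rs S (tr (j • w) ω)) - c))) (PP d μ) :=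
    integrable_finsetSum _ fun j _ => (hiFj j).sub (integrable_const c)
  have hi2 : Integrable (fun ω : Site d → ℝ =>
      |∑ j ∈ Finset.range q, (F (rs S (tr (j • w) ω)) - c)| / q) (PP d μ) :=
    hiS.abs.div_const _
  have hi12 := hi1.add hi2
  have hb1 : ∫ ω, (∑ j ∈ Finset.range q, |f (tr (j • w) ω) - F (rs S (tr (j • w) ω))|) / q
      ∂(PP d μ) ≤ ε / 4 := by
    have k3 : ∀ j ∈ Finset.range q, Integrable (fun ω : Site d → ℝ =>
        |f (tr (j • w) ω) - F (rs S (tr (j • w) ω))|) (PP d μ) :=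
      fun j _ => ((hfj j).sub (hiFj j)).abs
    rw [integral_div, integral_finsetSum _ k3]
    have h2 : ∀ j ∈ Finset.range q, ∫ ω, |f (tr (j • w) ω) - F (rs S (tr (j • w) ω))| ∂(PP d μ)
        ≤ ε / 4 := by
      intro j _
      have := integral_tr (f := fun ω => |f ω - F (rs S ω)|) (hf.sub hiF).abs.aestronglyMeasurable
        (j • w)
      rw [this]
      exact hfF
    rw [div_le_iff₀ hq0]
    refine (Finset.sum_le_sum h2).trans ?_
    rw [Finset.sum_const, Finset.card_range, nsmul_eq_mul]
    linarith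
  have hb2 : ∫ ω, |∑ j ∈ Finset.range q, (F (rs S (tr (j • w) ω)) - c)| / q ∂(PP d μ) < ε / 4 := by
    have hvar := hD q
    have hmS : Measurable fun ω : Site d → ℝ =>
        (∑ j ∈ Finset.range q, (F (rs S (tr (j • w) ω)) - c)) :=
      Finset.measurable_sum _ fun j _ => (hmj j).sub_const c
    have hiS2 : Integrable (fun ω : Site d → ℝ =>
        (∑ j ∈ Finset.range q, (F (rs S (tr (j • w) ω)) - c)) ^ 2) (PP d μ) := by
      refine Integrable.of_bound (hmS.pow_const 2).aestronglyMeasurable ((q * (B + |c|)) ^ 2)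
        (Eventually.of_forall fun ω => ?_)
      rw [norm_pow]
      gcongr
      rw [Real.norm_eq_abs]
      refine (Finset.abs_sum_le_sum_abs _ _).trans ?_
      refine (Finset.sum_le_sum (g := fun _ => B + |c|) fun j _ => ?_).trans ?_
      · exact (abs_sub _ _).trans (by gcongr; exact hB _)
      · rw [Finset.sum_const, Finset.card_range, nsmul_eq_mul]
    -- `E|S| ≤ t/2 + E S^2 / (2t)`
    have hAM : ∀ t : ℝ, 0 < t → ∀ ω : Site d → ℝ,
        |∑ j ∈ Finset.range q, (F (rs S (tr (j • w) ω)) - c)|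
        ≤ t / 2 + (∑ j ∈ Finset.range q, (F (rs S (tr (j • w) ω)) - c)) ^ 2 / (2 * t) := by
      intro t ht ω
      set s := ∑ j ∈ Finset.range q, (F (rs S (tr (j • w) ω)) - c)
      have h5 : 0 ≤ (|s| - t) ^ 2 := sq_nonneg _
      have h6 : |s| ^ 2 = s ^ 2 := sq_abs s
      rw [div_add_div _ _ (by norm_num) (by positivity), le_div_iff₀ (by positivity)]
      nlinarith
    have ht : 0 < (ε / 4) * q := by positivity
    rw [integral_div, div_lt_iff₀ hq0]
    calc ∫ ω, |∑ j ∈ Finset.range q, (F (rs S (tr (j • w) ω)) - c)| ∂(PP d μ)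
        ≤ ∫ ω, (((ε / 4) * q) / 2 + (∑ j ∈ Finset.range q, (F (rs S (tr (j • w) ω)) - c)) ^ 2
          / (2 * ((ε / 4) * q))) ∂(PP d μ) :=
          integral_mono hiS.abs ((integrable_const _).add (hiS2.div_const _)) (hAM _ ht)
      _ = ((ε / 4) * q) / 2 + (∫ ω, (∑ j ∈ Finset.range q, (F (rs S (tr (j • w) ω)) - c)) ^ 2
          ∂(PP d μ)) / (2 * ((ε / 4) * q)) := by
          rw [integral_add (integrable_const _) (hiS2.div_const _), integral_const, integral_div,
            probReal_univ, one_smul]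
      _ ≤ ((ε / 4) * q) / 2 + (D * q) / (2 * ((ε / 4) * q)) := by gcongr
      _ < (ε / 4) * q := by
          have h7 : D / (ε / 4) ^ 2 < q := lt_of_lt_of_le hN (by exact_mod_cast hqN)
          rw [div_lt_iff₀ (by positivity)] at h7
          have h8 : (D * q) / (2 * ((ε / 4) * q)) = D / (2 * (ε / 4)) := by
            rw [← mul_assoc, mul_div_mul_right _ _ hq0.ne']
          rw [h8]
          have h9 : D / (2 * (ε / 4)) < ((ε / 4) * q) / 2 := by
            rw [div_lt_iff₀ (by positivity)]
            nlinarith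
          linarith
  calc ∫ ω, |(∑ j ∈ Finset.range q, f (tr (j • w) ω)) / q - e| ∂(PP d μ)
      ≤ ∫ ω, ((∑ j ∈ Finset.range q, |f (tr (j • w) ω) - F (rs S (tr (j • w) ω))|) / q
        + |∑ j ∈ Finset.range q, (F (rs S (tr (j • w) ω)) - c)| / q + |c - e|) ∂(PP d μ) := by
        refine integral_mono ?_ (hi12.add (integrable_const _)) hpt
        exact (((integrable_finsetSum _ fun j _ => hfj j).div_const _).sub
          (integrable_const _)).abs
    _ = ∫ ω, (∑ j ∈ Finset.range q, |f (tr (j • w) ω) - F (rs S (tr (j • w) ω))|) / q ∂(PP d μ)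
        + ∫ ω, |∑ j ∈ Finset.range q, (F (rs S (tr (j • w) ω)) - c)| / q ∂(PP d μ) + |c - e| := by
        have := integral_add hi12 (integrable_const (μ := PP d μ) |c - e|)
        simp only [Pi.add_apply] at this
        rw [this, integral_add hi1 hi2]
        simp
    _ < ε := by linarith

end

end Pool.Agent.Helper3.Anderson
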