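import Pool.Agent.Helper3.Anderson.Nbr

open scoped ENNReal NNReal
open MeasureTheory Set Real

noncomputable section

namespace Pool.Agent.Helper3.Anderson

variable {d : ℕ}

/-- product law of the potential -/
abbrev PP (d : ℕ) (μ : Measure ℝ) [IsProbabilityMeasure μ] : Measure (Site d → ℝ) :=
  Measure.infinitePi (fun _ : Site d => μ)

section

variable {μ : Measure ℝ} [IsProbabilityMeasure μ] {M lam : ℝ} {K : ℝ≥0} {z : ℂ}

/-- negative moment of the Green function between neighbours is finite -/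
theorem nbr_fin (hμ : GoodLaw μ M K) (hlam : 0 < lam) (hz0 : 0 < z.im) (a b : Site d)
    (i : Fin d) (hb : b = a + Pi.single i 1 ∨ b = a - Pi.single i 1) :
    ∫⁻ ω, ‖gc M lam z ω a b‖ₑ ^ (-(1/2 : ℝ)) ∂(PP d μ) < ⊤ := by
  classical
  have hM : 0 ≤ M := by linarith [hμ.one_le]
  have hz1 : 0 < ‖z‖ := norm_pos_iff.2 (by rintro rfl; simp at hz0)
  set B : ℝ := 2 * d + lam * M + ‖z‖ with hB
  have hBpos : 0 < B := by positivity
  set c : ℝ := min (1 / (2 * B)) (z.im / (16 * (d + 1) ^ 2)) with hc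
  have hcpos : 0 < c := lt_min (by positivity) (by positivity)
  set S : ℝ := ‖z‖ + (1 + 8 * d ^ 2 / (z.im * c)) with hS
  have hS1 : ‖z‖ < S := by
    have : (0 : ℝ) ≤ 8 * d ^ 2 / (z.im * c) := by positivity
    linarith
  set A : Finset (Site d) := ((Finset.univ.image fun j : Fin d => a + Pi.single j (1 : ℤ)) ∪
    (Finset.univ.image fun j : Fin d => a - Pi.single j (1 : ℤ))).erase b with hA
  have haA : a ∉ A := by
    simp only [hA, Finset.mem_erase, Finset.mem_union, Finset.mem_image, Finset.mem_univ, true_and,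
      not_and, not_or, not_exists]
    intro _
    constructor
    · intro j hj
      exact single_ne_zero j (by simpa using hj)
    · intro j hj
      exact single_ne_zero j (by simpa using hj)
  have hbA : b ∉ A := by simp [hA]
  have hval : ∀ ω : Site d → ℝ, ∀ x, (x = a ∨ x = b) →
      2 * d + |potA M lam S A ω x| + ‖z‖ ≤ B := by
    intro ω x hx
    have hxA : x ∉ A := by rcases hx with rfl | rfl <;> assumption
    have : |potA M lam S A ω x| ≤ lam * M := by
      rw [potA, if_neg hxA]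
      have := abs_potc_le (lam := lam) hM ω x
      rwa [abs_of_pos hlam] at this
    linarith
  have hvalS : ∀ ω : Site d → ℝ, ∀ x, x ≠ b →
      (∃ j : Fin d, x = a + Pi.single j 1 ∨ x = a - Pi.single j 1) → potA M lam S A ω x = S := by
    intro ω x hxb hx
    rw [potA, if_pos]
    simp only [hA, Finset.mem_erase, Finset.mem_union, Finset.mem_image, Finset.mem_univ, true_and]
    refine ⟨hxb, ?_⟩
    obtain ⟨j, hj | hj⟩ := hx
    · exact Or.inl ⟨j, hj.symm⟩
    · exact Or.inr ⟨j, hj.symm⟩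
  have hlow : ∀ ω : Site d → ℝ, c / 2 / B ≤ ‖green (potA M lam S A ω) z a b‖ := by
    intro ω
    have h1 := green_nbr_lower (potA M lam S A ω) (bdd_potA hM S A ω) hz0 a b i hb (B := B) (S := S)
      (hval ω) (hvalS ω) hS1
    refine le_trans ?_ h1
    have h2 : 2 * (d : ℝ) * (2 * d / z.im / (S - ‖z‖)) ≤ c / 2 := by
      have h3 : S - ‖z‖ = 1 + 8 * d ^ 2 / (z.im * c) := by rw [hS]; ring
      have h4 : 0 < S - ‖z‖ := by linarith
      rw [div_div, mul_div_assoc', div_le_iff₀ (by positivity), h3]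
      have h5 : c / 2 * (z.im * (1 + 8 * (d : ℝ) ^ 2 / (z.im * c)))
          = c / 2 * z.im + 4 * d ^ 2 := by
        field_simp; ring
      rw [h5]
      have : 0 ≤ c / 2 * z.im := by positivity
      nlinarith
    gcongr
    linarith
  have hint : ∫⁻ ω, ‖green (potA M lam S A ω) z a b‖ₑ ^ (-(1/2 : ℝ)) ∂(PP d μ)
      ≤ (ENNReal.ofReal (c / 2 / B)) ^ (-(1/2 : ℝ)) := by
    calc _ ≤ ∫⁻ _ω, (ENNReal.ofReal (c / 2 / B)) ^ (-(1/2 : ℝ)) ∂(PP d μ) := by
          refine lintegral_mono fun ω => ?_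
          rw [ENNReal.rpow_neg, ENNReal.rpow_neg, ENNReal.inv_le_inv]
          refine ENNReal.rpow_le_rpow ?_ (by norm_num)
          rw [← ofReal_norm]
          exact ENNReal.ofReal_le_ofReal (hlow ω)
      _ = _ := by rw [lintegral_const, measure_univ, mul_one]
  refine lt_of_le_of_lt (neg_iter hμ hlam hz0 S A a b) ?_
  refine ENNReal.mul_lt_top ?_ (lt_of_le_of_lt hint ?_)
  · exact ENNReal.pow_lt_top (lt_top_iff_ne_top.2 (C3_ne_top _ _ _ _ _ _))
  · rw [ENNReal.rpow_neg, ENNReal.inv_lt_top]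
    refine ENNReal.rpow_pos ?_ ENNReal.ofReal_ne_top
    have : 0 < c / 2 / B := by positivity
    simpa using this

theorem posLog_sq_le {x : ℝ} (hx : 0 ≤ x) : (posLog x) ^ 2 ≤ 64 * x ^ (1/4 : ℝ) := by
  rcases le_or_gt x 1 with h | h
  · have : posLog x = 0 := by
      rw [posLog_eq_zero_iff, abs_of_nonneg hx]; exact h
    rw [this]
    have : 0 ≤ x ^ (1/4 : ℝ) := rpow_nonneg hx _
    linarith [this]
  · have h1 : posLog x = Real.log x := posLog_eq_log (by rw [abs_of_nonneg hx]; exact h.le)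
    have h2 : Real.log x ≤ x ^ (1/8 : ℝ) / (1/8) := Real.log_le_rpow_div hx (by norm_num)
    have h3 : 0 ≤ Real.log x := Real.log_nonneg h.le
    rw [h1]
    calc (Real.log x) ^ 2 ≤ (x ^ (1/8 : ℝ) / (1/8)) ^ 2 := by gcongr
      _ = 64 * ((x ^ (1/8 : ℝ)) ^ 2) := by ring
      _ = 64 * x ^ (1/4 : ℝ) := by
          rw [← Real.rpow_natCast, ← Real.rpow_mul hx]; norm_num

end

end Pool.Agent.Helper3.Anderson
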