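import Pool.Agent.Helper3.Anderson.Neg

open scoped ENNReal NNReal
open MeasureTheory Set

noncomputable section

namespace Pool.Agent.Helper3.Anderson

variable {d : ℕ}

open Classical in
/-- random potential with the sites of `A` set to the value `S` -/
def potA (M lam S : ℝ) (A : Finset (Site d)) (ω : Site d → ℝ) : Site d → ℝ :=
  fun x => if x ∈ A then S else potc M lam ω x

theorem bdd_potA_bound {M lam : ℝ} (hM : 0 ≤ M) (S : ℝ) (A : Finset (Site d)) (ω : Site d → ℝ)
    (x : Site d) : |potA M lam S A ω x| ≤ max |S| (|lam| * M) := by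
  unfold potA
  split_ifs
  · exact le_max_left _ _
  · exact (abs_potc_le hM ω x).trans (le_max_right _ _)

theorem bdd_potA {M lam : ℝ} (hM : 0 ≤ M) (S : ℝ) (A : Finset (Site d)) (ω : Site d → ℝ) :
    Bdd (potA M lam S A ω) := ⟨_, bdd_potA_bound hM S A ω⟩

theorem measurable_potA {M lam : ℝ} (hM : 0 ≤ M) (S : ℝ) (A : Finset (Site d)) {z : ℂ}
    (hz0 : 0 < z.im) (a b : Site d) :
    Measurable fun ω : Site d → ℝ => green (potA M lam S A ω) z a b := by
  refine (continuous_green (fun ω => potA M lam S A ω) (fun ω => bdd_potA_bound hM S A ω)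
    (fun w => ?_) hz0 a b).measurable
  unfold potA
  by_cases h : w ∈ A
  · simp only [h, if_true]; exact continuous_const
  · simp only [h, if_false]
    exact continuous_const.mul ((continuous_clip M).comp (continuous_apply w))

/-- constant -/
def C3 (d : ℕ) (M lam : ℝ) (K : ℝ≥0) (z : ℂ) (S : ℝ) : ℝ≥0∞ :=
  C1 M K * (ENNReal.ofReal ((1 + lam * M / z.im) * ((1 + |S| / lam) / (c0 d z * z.im))))
          ^ (1/2 : ℝ)

theorem C1_ne_top (M : ℝ) (K : ℝ≥0) : C1 M K ≠ ⊤ := by
  unfold C1
  refine ENNReal.mul_ne_top ?_ ?_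
  · exact ENNReal.rpow_ne_top_of_nonneg (by norm_num) ENNReal.ofReal_ne_top
  · exact ENNReal.add_ne_top.2 ⟨ENNReal.one_ne_top, ENNReal.mul_ne_top (by norm_num) ENNReal.coe_ne_top⟩

theorem C3_ne_top (d : ℕ) (M lam : ℝ) (K : ℝ≥0) (z : ℂ) (S : ℝ) : C3 d M lam K z S ≠ ⊤ := by
  unfold C3
  exact ENNReal.mul_ne_top (C1_ne_top M K)
    (ENNReal.rpow_ne_top_of_nonneg (by norm_num) ENNReal.ofReal_ne_top)

theorem neg_step {μ : Measure ℝ} [IsProbabilityMeasure μ] {M lam : ℝ} {K : ℝ≥0}
    (hμ : GoodLaw μ M K) (hlam : 0 < lam) {z : ℂ} (hz0 : 0 < z.im) (S : ℝ)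
    (A : Finset (Site d)) {u : Site d} (hu : u ∉ A) (a b : Site d) :
    ∫⁻ ω, ‖green (potA M lam S A ω) z a b‖ₑ ^ (-(1/2 : ℝ))
        ∂(Measure.infinitePi (fun _ : Site d => μ))
      ≤ C3 d M lam K z S * ∫⁻ ω, ‖green (potA M lam S (insert u A) ω) z a b‖ₑ ^ (-(1/2 : ℝ))
        ∂(Measure.infinitePi (fun _ : Site d => μ)) := by
  have hM : 0 ≤ M := by linarith [hμ.one_le]
  have hae : ∀ᵐ t ∂μ, |t| ≤ M := by
    have : ∀ᵐ t ∂μ, t ∈ Icc (-M) M := by rw [ae_iff]; exact hμ.supp
    filter_upwards [this] with t ht
    exact abs_le.2 ht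
  rw [lintegral_resample u (((measurable_potA hM S A hz0 a b).enorm).pow_const _),
    ← lintegral_const_mul _ (((measurable_potA hM S _ hz0 a b).enorm).pow_const _)]
  refine lintegral_mono fun ω => ?_
  have h1 : ∀ t : ℝ, |t| ≤ M → potA M lam S A (Function.update ω u t)
      = Function.update (potA M lam S A ω) u (lam * t) := by
    intro t ht
    funext x
    by_cases hx : x = u
    · subst hx
      rw [Function.update_self, potA, if_neg hu, potc, Function.update_self, clip_of_abs_le ht]
    · rw [Function.update_of_ne hx]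
      simp only [potA, potc, Function.update_of_ne hx]
  have h2 : potA M lam S (insert u A) ω = Function.update (potA M lam S A ω) u S := by
    funext x
    by_cases hx : x = u
    · subst hx
      rw [Function.update_self, potA, if_pos (Finset.mem_insert_self _ _)]
    · rw [Function.update_of_ne hx]
      simp only [potA, Finset.mem_insert, hx, false_or]
  calc ∫⁻ t, ‖green (potA M lam S A (Function.update ω u t)) z a b‖ₑ ^ (-(1/2 : ℝ)) ∂μ
      = ∫⁻ t, ‖green (Function.update (potA M lam S A ω) u (lam * t)) z a b‖ₑ ^ (-(1/2 : ℝ)) ∂μ := by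
        refine lintegral_congr_ae ?_
        filter_upwards [hae] with t ht
        rw [h1 t ht]
    _ ≤ _ := by
        rw [h2]
        exact neg_one hμ hlam (potA M lam S A ω) (bdd_potA hM S A ω) hz0 u a b S

theorem neg_iter {μ : Measure ℝ} [IsProbabilityMeasure μ] {M lam : ℝ} {K : ℝ≥0}
    (hμ : GoodLaw μ M K) (hlam : 0 < lam) {z : ℂ} (hz0 : 0 < z.im) (S : ℝ)
    (A : Finset (Site d)) (a b : Site d) :
    ∫⁻ ω, ‖gc M lam z ω a b‖ₑ ^ (-(1/2 : ℝ)) ∂(Measure.infinitePi (fun _ : Site d => μ))
      ≤ (C3 d M lam K z S) ^ A.card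
        * ∫⁻ ω, ‖green (potA M lam S A ω) z a b‖ₑ ^ (-(1/2 : ℝ))
        ∂(Measure.infinitePi (fun _ : Site d => μ)) := by
  classical
  induction A using Finset.induction_on with
  | empty =>
      have h0 : ∀ ω : Site d → ℝ, potA M lam S ∅ ω = potc M lam ω := by
        intro ω; funext x; simp [potA]
      simp [gc, h0]
  | insert u A hu ih =>
      refine ih.trans ?_
      rw [Finset.card_insert_of_notMem hu, pow_succ, mul_assoc]
      gcongr
      exact neg_step hμ hlam hz0 S A hu a b

/-- unit vectors are distinct from each other and from their negatives -/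
theorem single_ne_zero (j : Fin d) : (Pi.single j (1 : ℤ) : Site d) ≠ 0 := by
  intro h
  have := congrFun h j
  simp at this

/-- If all neighbours of `a` except `b` carry a huge potential `S`, `G(a,b)` is bounded below. -/
theorem green_nbr_lower (V : Site d → ℝ) (hV : Bdd V) {z : ℂ} (hz0 : 0 < z.im) (a b : Site d)
    (i : Fin d) (hb : b = a + Pi.single i 1 ∨ b = a - Pi.single i 1) {B S : ℝ}
    (hB : ∀ x, (x = a ∨ x = b) → 2 * d + |V x| + ‖z‖ ≤ B)
    (hS : ∀ x, x ≠ b → (∃ j : Fin d, x = a + Pi.single j 1 ∨ x = a - Pi.single j 1) → V x = S)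
    (hS1 : ‖z‖ < S) :
    (min (1 / (2 * B)) (z.im / (16 * (d + 1) ^ 2)) - 2 * d * (2 * d / z.im / (S - ‖z‖))) / B
      ≤ ‖green V z a b‖ := by
  have hBpos : 0 < B := by
    have h1 := hB a (Or.inl rfl)
    have : 0 < ‖z‖ := norm_pos_iff.2 (by rintro rfl; simp at hz0)
    have h0 : 0 ≤ |V a| := abs_nonneg _
    have h00 : (0 : ℝ) ≤ 2 * d := by positivity
    linarith
  have hdiag := green_diag_lower V hV hz0 b (hB b (Or.inr rfl))
  have hab : a ≠ b := by
    rintro h
    rcases hb with h' | h'
    · rw [← h] at h'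
      exact single_ne_zero i (by simpa using h'.symm)
    · rw [← h] at h'
      exact single_ne_zero i (by simpa using h'.symm)
  have heq := green_equation' V hV hz0 a b
  rw [if_neg hab, add_zero] at heq
  -- values at the other neighbours
  have hsmall : ∀ x, x ≠ b → (∃ j : Fin d, x = a + Pi.single j 1 ∨ x = a - Pi.single j 1) →
      ‖green V z x b‖ ≤ 2 * d / z.im / (S - ‖z‖) := by
    intro x hxb hx
    have he := green_equation' V hV hz0 x b
    rw [if_neg hxb, add_zero, hS x hxb hx] at he
    have h1 := norm_sum_nbr_le (fun w => green V z w b) (fun w => norm_green_le V hV hz0 w b) x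
    rw [← he, norm_mul] at h1
    have h2 : S - ‖z‖ ≤ ‖(2 * d + (S : ℂ) - z)‖ := by
      have h3 : ‖(2 * d + (S : ℂ))‖ - ‖z‖ ≤ ‖(2 * d + (S : ℂ) - z)‖ := norm_sub_norm_le _ _
      have h4 : S ≤ ‖(2 * d + (S : ℂ))‖ := by
        have h5 : (2 * d + (S : ℂ)) = ((2 * d + S : ℝ) : ℂ) := by push_cast; ring
        rw [h5, Complex.norm_real, Real.norm_eq_abs]
        have h6 : (0 : ℝ) ≤ 2 * d := by positivity
        calc S ≤ 2 * d + S := by linarith
          _ ≤ _ := le_abs_self _
      linarith
    have hSz : 0 < S - ‖z‖ := by linarith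
    rw [le_div_iff₀ hSz]
    calc ‖green V z x b‖ * (S - ‖z‖) ≤ ‖green V z x b‖ * ‖(2 * d + (S : ℂ) - z)‖ := by gcongr
      _ = ‖(2 * d + (S : ℂ) - z)‖ * ‖green V z x b‖ := mul_comm _ _
      _ ≤ 2 * d * (1 / z.im) := h1
      _ = 2 * d / z.im := by ring
  set ε := 2 * d / z.im / (S - ‖z‖) with hε
  have hε0 : 0 ≤ ε := by
    have hSz : 0 < S - ‖z‖ := by linarith
    positivity
  -- the sum over neighbours of `a` is `G(b,b)` plus small terms
  have hsum : ‖(∑ j : Fin d, (green V z (a + Pi.single j 1) b + green V z (a - Pi.single j 1) b))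
      - green V z b b‖ ≤ 2 * d * ε := by
    set h : Site d → ℂ := fun x => if x = b then 0 else green V z x b with hh
    have hle : ∀ j : Fin d, ‖h (a + Pi.single j 1)‖ ≤ ε ∧ ‖h (a - Pi.single j 1)‖ ≤ ε := by
      intro j
      constructor
      · simp only [hh]
        split_ifs with hc
        · simpa using hε0
        · exact hsmall _ hc ⟨j, Or.inl rfl⟩
      · simp only [hh]
        split_ifs with hc
        · simpa using hε0
        · exact hsmall _ hc ⟨j, Or.inr rfl⟩
    have hind : ∑ j : Fin d, ((if a + Pi.single j 1 = b then green V z b b else 0)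
        + (if a - Pi.single j 1 = b then green V z b b else 0)) = green V z b b := by
      have hinj : ∀ j k : Fin d, (Pi.single j (1 : ℤ) : Site d) = Pi.single k 1 → j = k := by
        intro j k hjk
        by_contra hne
        have := congrFun hjk j
        rw [Pi.single_eq_same, Pi.single_eq_of_ne hne] at this
        norm_num at this
      have hneg : ∀ j k : Fin d, (Pi.single j (1 : ℤ) : Site d) ≠ -Pi.single k 1 := by
        intro j k hjk
        have := congrFun hjk j
        rw [Pi.single_eq_same, Pi.neg_apply] at this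
        by_cases hne : j = k
        · subst hne; rw [Pi.single_eq_same] at this; norm_num at this
        · rw [Pi.single_eq_of_ne hne] at this; norm_num at this
      rw [Finset.sum_eq_single i]
      · rcases hb with rfl | rfl
        · have : ¬ (a - Pi.single i 1 = a + Pi.single i 1) := by
            intro h'
            have h'' : -(Pi.single i (1 : ℤ) : Site d) = Pi.single i 1 := by
              have := h'
              rw [sub_eq_add_neg] at this
              exact add_left_cancel this
            exact hneg i i h''.symm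
          rw [if_pos rfl, if_neg this, add_zero]
        · have : ¬ (a + Pi.single i 1 = a - Pi.single i 1) := by
            intro h'
            have h'' : (Pi.single i (1 : ℤ) : Site d) = -Pi.single i 1 := by
              have := h'
              rw [sub_eq_add_neg] at this
              exact add_left_cancel this
            exact hneg i i h''
          rw [if_pos rfl, if_neg this, zero_add]
      · intro j _ hji
        have h1 : ¬ (a + Pi.single j 1 = b) := by
          intro h'
          rcases hb with h'' | h''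
          · rw [h''] at h'
            exact hji (hinj j i (add_left_cancel h'))
          · rw [h'', sub_eq_add_neg] at h'
            exact hneg j i (add_left_cancel h')
        have h2 : ¬ (a - Pi.single j 1 = b) := by
          intro h'
          rcases hb with h'' | h''
          · rw [h'', sub_eq_add_neg] at h'
            exact hneg i j (add_left_cancel h').symm
          · rw [h'', sub_eq_add_neg, sub_eq_add_neg] at h'
            exact hji (hinj j i (neg_injective (add_left_cancel h')))
        rw [if_neg h1, if_neg h2, add_zero]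
      · intro h'; exact absurd (Finset.mem_univ i) h'
    have hdecomp : (∑ j : Fin d, (green V z (a + Pi.single j 1) b
        + green V z (a - Pi.single j 1) b)) - green V z b b
        = ∑ j : Fin d, (h (a + Pi.single j 1) + h (a - Pi.single j 1)) := by
      conv_lhs => rw [← hind]
      rw [← Finset.sum_sub_distrib]
      refine Finset.sum_congr rfl fun j _ => ?_
      simp only [hh]
      by_cases h1 : a + Pi.single j 1 = b <;> by_cases h2 : a - Pi.single j 1 = b <;>
        simp [h1, h2]
    rw [hdecomp]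
    calc _ ≤ ∑ j : Fin d, ‖h (a + Pi.single j 1) + h (a - Pi.single j 1)‖ := norm_sum_le _ _
      _ ≤ ∑ _j : Fin d, (ε + ε) := by
          refine Finset.sum_le_sum fun j _ => ?_
          exact (norm_add_le _ _).trans (add_le_add (hle j).1 (hle j).2)
      _ = 2 * d * ε := by
          rw [Finset.sum_const, Finset.card_univ, Fintype.card_fin, nsmul_eq_mul]; ring
  rw [div_le_iff₀ hBpos]
  have h1 : ‖green V z b b‖ - 2 * d * ε ≤ ‖(2 * d + (V a : ℂ) - z) * green V z a b‖ := by
    rw [heq]
    have := norm_sub_norm_le (green V z b b)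
      (green V z b b - ∑ j : Fin d, (green V z (a + Pi.single j 1) b
        + green V z (a - Pi.single j 1) b))
    rw [sub_sub_cancel] at this
    rw [norm_sub_rev] at hsum
    linarith
  have h2 : ‖(2 * d + (V a : ℂ) - z)‖ ≤ B := by
    calc ‖(2 * d + (V a : ℂ) - z)‖ ≤ ‖(2 * d + (V a : ℂ))‖ + ‖z‖ := norm_sub_le _ _
      _ ≤ ‖(2 * d : ℂ)‖ + ‖(V a : ℂ)‖ + ‖z‖ := by gcongr; exact norm_add_le _ _
      _ = 2 * d + |V a| + ‖z‖ := by simp
      _ ≤ B := hB a (Or.inl rfl)
  rw [norm_mul] at h1
  calc _ ≤ ‖green V z b b‖ - 2 * d * ε := by linarith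
    _ ≤ ‖(2 * d + (V a : ℂ) - z)‖ * ‖green V z a b‖ := h1
    _ ≤ B * ‖green V z a b‖ := by gcongr
    _ = ‖green V z a b‖ * B := mul_comm _ _

end Pool.Agent.Helper3.Anderson
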