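import Pool.Agent.Helper3.Anderson.Base

open scoped ENNReal NNReal
open MeasureTheory Set

noncomputable section

namespace Pool.Agent.Helper3.Anderson

variable {d : ℕ}

theorem Bdd.update {V : Site d → ℝ} (hV : Bdd V) (u : Site d) (s : ℝ) :
    Bdd (Function.update V u s) := by
  obtain ⟨M, hM⟩ := hV
  refine ⟨max M |s|, fun x => ?_⟩
  by_cases h : x = u
  · subst h; rw [Function.update_self]; exact le_max_right _ _
  · rw [Function.update_of_ne h]; exact (hM x).trans (le_max_left _ _)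

/-- dependence of the Green function on one site, general potentials -/
theorem green_update (V : Site d → ℝ) (hV : Bdd V) {z : ℂ} (hz0 : 0 < z.im) (u : Site d) (s : ℝ) :
    (∀ x, green (Function.update V u s) z x u
        * (1 + (s : ℂ) * green (Function.update V u 0) z u u)
          = green (Function.update V u 0) z x u) ∧
    (∀ x y, green (Function.update V u s) z x y
        * (1 + (s : ℂ) * green (Function.update V u 0) z u u)
          = green (Function.update V u 0) z x y
            + (s : ℂ) * (green (Function.update V u 0) z x y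
                * green (Function.update V u 0) z u u
              - green (Function.update V u 0) z x u
                * green (Function.update V u 0) z u y)) := by
  have h1 := fun x y => green_sub_green (Function.update V u s) (Function.update V u 0)
    (hV.update u s) (hV.update u 0) hz0 u
    (fun x hx => by rw [Function.update_of_ne hx, Function.update_of_ne hx]) x y
  simp only [Function.update_self] at h1
  have hxu : ∀ x, green (Function.update V u s) z x u
        * (1 + (s : ℂ) * green (Function.update V u 0) z u u)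
          = green (Function.update V u 0) z x u := by
    intro x
    have := h1 x u
    push_cast at this
    linear_combination this
  refine ⟨hxu, fun x y => ?_⟩
  have h3 := h1 x y
  push_cast at h3
  have h4 := hxu x
  linear_combination (1 + (s : ℂ) * green (Function.update V u 0) z u u) * h3
    - (s : ℂ) * green (Function.update V u 0) z u y * h4

/-- constant -/
def c0 (d : ℕ) (z : ℂ) : ℝ := min (1 / (2 * (2 * d + ‖z‖))) (z.im / (16 * (d + 1) ^ 2))

theorem c0_pos (d : ℕ) {z : ℂ} (hz0 : 0 < z.im) : 0 < c0 d z := by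
  have : 0 < ‖z‖ := norm_pos_iff.2 (by rintro rfl; simp at hz0)
  unfold c0
  refine lt_min (by positivity) (by positivity)

/-- one site integral of a negative moment, compared with a large potential -/
theorem neg_one {μ : Measure ℝ} [IsProbabilityMeasure μ] {M lam : ℝ} {K : ℝ≥0}
    (hμ : GoodLaw μ M K) (hlam : 0 < lam) (V : Site d → ℝ) (hV : Bdd V) {z : ℂ} (hz0 : 0 < z.im)
    (u a b : Site d) (S : ℝ) :
    ∫⁻ t, ‖green (Function.update V u (lam * t)) z a b‖ₑ ^ (-(1/2 : ℝ)) ∂μ
      ≤ (C1 M K * (ENNReal.ofReal ((1 + lam * M / z.im) * ((1 + |S| / lam) / (c0 d z * z.im))))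
          ^ (1/2 : ℝ)) * ‖green (Function.update V u S) z a b‖ₑ ^ (-(1/2 : ℝ)) := by
  have hM0 : 0 < M := by linarith [hμ.one_le]
  have hc0 := c0_pos d hz0
  have hae : ∀ᵐ t ∂μ, |t| ≤ M := by
    have : ∀ᵐ t ∂μ, t ∈ Icc (-M) M := by rw [ae_iff]; exact hμ.supp
    filter_upwards [this] with t ht
    exact abs_le.2 ht
  set α := green (Function.update V u 0) z a b with hα
  set τ := green (Function.update V u 0) z u u with hτ
  set β := α * τ - green (Function.update V u 0) z a u * green (Function.update V u 0) z u b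
    with hβ
  set X : ℝ := max ‖α‖ ‖(lam : ℂ) * β‖ with hX
  have hτle : ‖τ‖ ≤ 1 / z.im := norm_green_le _ (hV.update u 0) hz0 u u
  have hτge : c0 d z ≤ ‖τ‖ := by
    have := green_diag_lower (Function.update V u 0) (hV.update u 0) hz0 u
      (B := 2 * d + ‖z‖) (by rw [Function.update_self]; simp)
    exact this
  have hnegmono : ∀ {x y : ℝ} {r : ℝ}, 0 < r → r * x ≤ y → (ENNReal.ofReal y) ^ (-(1/2 : ℝ))
      ≤ (ENNReal.ofReal r⁻¹) ^ (1/2 : ℝ) * (ENNReal.ofReal x) ^ (-(1/2 : ℝ)) := by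
    intro x y r hr hxy
    have h1 : (ENNReal.ofReal y) ^ (-(1/2 : ℝ)) ≤ (ENNReal.ofReal (r * x)) ^ (-(1/2 : ℝ)) := by
      rw [ENNReal.rpow_neg, ENNReal.rpow_neg, ENNReal.inv_le_inv]
      exact ENNReal.rpow_le_rpow (ENNReal.ofReal_le_ofReal hxy) (by norm_num)
    refine h1.trans (le_of_eq ?_)
    rw [ENNReal.ofReal_mul hr.le, ENNReal.rpow_neg, ENNReal.rpow_neg,
      ENNReal.mul_rpow_of_nonneg _ _ (by norm_num : (0 : ℝ) ≤ 1/2),
      ENNReal.mul_inv (Or.inl ?_) (Or.inl ?_)]
    · congr 1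
      rw [ENNReal.ofReal_inv_of_pos hr, ENNReal.inv_rpow]
    · refine (ENNReal.rpow_pos ?_ ENNReal.ofReal_ne_top).ne'
      simpa using hr
    · exact ENNReal.rpow_ne_top_of_nonneg (by norm_num) ENNReal.ofReal_ne_top
  have hfac : 0 < 1 + lam * M / z.im := by positivity
  -- pointwise bound
  have hpt : ∀ t : ℝ, |t| ≤ M → ‖green (Function.update V u (lam * t)) z a b‖ₑ ^ (-(1/2 : ℝ))
      ≤ (ENNReal.ofReal (1 + lam * M / z.im)) ^ (1/2 : ℝ)
        * ‖α + (t : ℂ) * ((lam : ℂ) * β)‖ₑ ^ (-(1/2 : ℝ)) := by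
    intro t ht
    have h1 := (green_update V hV hz0 u (lam * t)).2 a b
    rw [← ofReal_norm, ← ofReal_norm]
    have h2 : ‖green (Function.update V u (lam * t)) z a b‖ * ‖1 + ((lam * t : ℝ) : ℂ) * τ‖
        = ‖α + (t : ℂ) * ((lam : ℂ) * β)‖ := by
      rw [← norm_mul, h1]
      congr 1
      push_cast; ring
    have h3 : ‖1 + ((lam * t : ℝ) : ℂ) * τ‖ ≤ 1 + lam * M / z.im := by
      calc _ ≤ ‖(1 : ℂ)‖ + ‖((lam * t : ℝ) : ℂ) * τ‖ := norm_add_le _ _
        _ = 1 + lam * |t| * ‖τ‖ := by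
            rw [norm_one, norm_mul, Complex.norm_real, Real.norm_eq_abs, abs_mul, abs_of_pos hlam]
        _ ≤ 1 + lam * M * (1 / z.im) := by gcongr
        _ = _ := by ring
    have h4 : (1 + lam * M / z.im)⁻¹ * ‖α + (t : ℂ) * ((lam : ℂ) * β)‖
        ≤ ‖green (Function.update V u (lam * t)) z a b‖ := by
      rw [← h2, inv_mul_le_iff₀ hfac, mul_comm]
      gcongr
    have h5 := hnegmono (inv_pos.2 hfac) h4
    rwa [inv_inv] at h5
  have haff := lintegral_affine hμ α ((lam : ℂ) * β)
  -- comparison of X with G_S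
  have hS : (c0 d z * z.im) / (1 + |S| / lam) * ‖green (Function.update V u S) z a b‖ ≤ X := by
    have h1 := (green_update V hV hz0 u S).2 a b
    have h1u := (green_update V hV hz0 u S).1 u
    have h2 : ‖green (Function.update V u S) z a b‖ * ‖1 + (S : ℂ) * τ‖ = ‖α + (S : ℂ) * β‖ := by
      rw [← norm_mul, h1]
    have h2u : ‖green (Function.update V u S) z u u‖ * ‖1 + (S : ℂ) * τ‖ = ‖τ‖ := by
      rw [← norm_mul, h1u]
    have h3 : c0 d z * z.im ≤ ‖1 + (S : ℂ) * τ‖ := by
      have h4 := norm_green_le _ (hV.update u S) hz0 u u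
      have h5 : c0 d z ≤ (1 / z.im) * ‖1 + (S : ℂ) * τ‖ := by
        calc c0 d z ≤ ‖τ‖ := hτge
          _ = ‖green (Function.update V u S) z u u‖ * ‖1 + (S : ℂ) * τ‖ := h2u.symm
          _ ≤ (1 / z.im) * ‖1 + (S : ℂ) * τ‖ := by gcongr
      rw [div_mul_eq_mul_div, one_mul, le_div_iff₀ hz0] at h5
      exact h5
    have h4 : ‖α + (S : ℂ) * β‖ ≤ (1 + |S| / lam) * X := by
      have h5 : ‖β‖ ≤ X / lam := by
        rw [le_div_iff₀ hlam]
        calc ‖β‖ * lam = ‖(lam : ℂ) * β‖ := by
              rw [norm_mul, Complex.norm_real, Real.norm_eq_abs, abs_of_pos hlam, mul_comm]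
          _ ≤ X := le_max_right _ _
      calc ‖α + (S : ℂ) * β‖ ≤ ‖α‖ + ‖(S : ℂ) * β‖ := norm_add_le _ _
        _ = ‖α‖ + |S| * ‖β‖ := by rw [norm_mul, Complex.norm_real, Real.norm_eq_abs]
        _ ≤ X + |S| * (X / lam) := by gcongr; exact le_max_left _ _
        _ = _ := by ring
    have hpos : 0 < 1 + |S| / lam := by positivity
    rw [div_mul_eq_mul_div, div_le_iff₀ hpos]
    calc c0 d z * z.im * ‖green (Function.update V u S) z a b‖
        ≤ ‖1 + (S : ℂ) * τ‖ * ‖green (Function.update V u S) z a b‖ := by gcongr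
      _ = ‖α + (S : ℂ) * β‖ := by rw [mul_comm, h2]
      _ ≤ X * (1 + |S| / lam) := by rw [mul_comm X]; exact h4
  have hXe : max ‖α‖ₑ ‖(lam : ℂ) * β‖ₑ = ENNReal.ofReal X := by
    rw [← ofReal_norm, ← ofReal_norm, ← ENNReal.ofReal_max]
  have hr : 0 < (c0 d z * z.im) / (1 + |S| / lam) := by positivity
  have hfin := hnegmono hr hS
  rw [inv_div, ofReal_norm] at hfin
  calc _ ≤ ∫⁻ t, (ENNReal.ofReal (1 + lam * M / z.im)) ^ (1/2 : ℝ)
        * ‖α + (t : ℂ) * ((lam : ℂ) * β)‖ₑ ^ (-(1/2 : ℝ)) ∂μ := by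
        refine lintegral_mono_ae ?_
        filter_upwards [hae] with t ht using hpt t ht
    _ = (ENNReal.ofReal (1 + lam * M / z.im)) ^ (1/2 : ℝ)
        * ∫⁻ t, ‖α + (t : ℂ) * ((lam : ℂ) * β)‖ₑ ^ (-(1/2 : ℝ)) ∂μ := by
        rw [lintegral_const_mul]
        have : Measurable fun t : ℝ => ‖α + (t : ℂ) * ((lam : ℂ) * β)‖ₑ := by fun_prop
        exact this.pow_const _
    _ ≤ (ENNReal.ofReal (1 + lam * M / z.im)) ^ (1/2 : ℝ)
        * (C1 M K * ((ENNReal.ofReal ((1 + |S| / lam) / (c0 d z * z.im))) ^ (1/2 : ℝ)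
          * ‖green (Function.update V u S) z a b‖ₑ ^ (-(1/2 : ℝ)))) := by
        gcongr
        refine haff.trans ?_
        rw [hXe]
        gcongr
    _ = _ := by
        rw [ENNReal.ofReal_mul hfac.le, ENNReal.mul_rpow_of_nonneg _ _ (by norm_num : (0 : ℝ) ≤ 1/2)]
        ring

end Pool.Agent.Helper3.Anderson
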