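import Mathlib

open scoped ENNReal NNReal
open MeasureTheory Set

noncomputable section

namespace Pool.Agent.Helper3.Anderson

variable {ι : Type*} [DecidableEq ι] {μ : Measure ℝ} [IsProbabilityMeasure μ]

theorem measurable_update_prod (u : ι) :
    Measurable (fun p : (ι → ℝ) × ℝ => Function.update p.1 u p.2) := by
  rw [measurable_pi_iff]
  intro i
  by_cases h : i = u
  · subst h; simp only [Function.update_self]; exact measurable_snd
  · simp only [Function.update_of_ne h]
    exact (measurable_pi_apply i).comp measurable_fst

/-- resampling one coordinate preserves the product measure -/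
theorem map_update (u : ι) :
    ((Measure.infinitePi (fun _ : ι => μ)).prod μ).map
      (fun p : (ι → ℝ) × ℝ => Function.update p.1 u p.2)
      = Measure.infinitePi (fun _ : ι => μ) := by
  refine Measure.eq_infinitePi _ fun s t ht => ?_
  have hms : MeasurableSet (Set.pi (s : Set ι) t) :=
    MeasurableSet.pi s.countable_toSet fun i _ => ht i
  rw [Measure.map_apply (measurable_update_prod u) hms]
  by_cases hu : u ∈ s
  · have hpre : (fun p : (ι → ℝ) × ℝ => Function.update p.1 u p.2) ⁻¹' (Set.pi (s : Set ι) t)
        = (Set.pi ((s.erase u : Finset ι) : Set ι) t) ×ˢ (t u) := by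
      ext ⟨ω, r⟩
      simp only [mem_preimage, Set.mem_pi, Finset.mem_coe, mem_prod, Finset.mem_erase]
      constructor
      · intro h
        refine ⟨fun i hi => ?_, ?_⟩
        · have := h i hi.2
          rwa [Function.update_of_ne hi.1] at this
        · have := h u hu
          rwa [Function.update_self] at this
      · rintro ⟨h1, h2⟩ i hi
        by_cases hiu : i = u
        · subst hiu; rwa [Function.update_self]
        · rw [Function.update_of_ne hiu]; exact h1 i ⟨hiu, hi⟩
    rw [hpre, Measure.prod_prod, Measure.infinitePi_pi _ (fun i _ => ht i),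
      Finset.prod_erase_mul _ _ hu]
  · have hpre : (fun p : (ι → ℝ) × ℝ => Function.update p.1 u p.2) ⁻¹' (Set.pi (s : Set ι) t)
        = (Set.pi (s : Set ι) t) ×ˢ univ := by
      ext ⟨ω, r⟩
      simp only [mem_preimage, Set.mem_pi, Finset.mem_coe, mem_prod, mem_univ, and_true]
      refine forall₂_congr fun i hi => ?_
      have hiu : i ≠ u := by rintro rfl; exact hu hi
      rw [Function.update_of_ne hiu]
    rw [hpre, Measure.prod_prod, Measure.infinitePi_pi _ (fun i _ => ht i), measure_univ, mul_one]

theorem lintegral_resample (u : ι) {F : (ι → ℝ) → ℝ≥0∞} (hF : Measurable F) :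
    ∫⁻ ω, F ω ∂(Measure.infinitePi (fun _ : ι => μ))
      = ∫⁻ ω, ∫⁻ t, F (Function.update ω u t) ∂μ ∂(Measure.infinitePi (fun _ : ι => μ)) := by
  conv_lhs => rw [← map_update (μ := μ) u]
  rw [lintegral_map hF (measurable_update_prod u), lintegral_prod]
  exact (hF.comp (measurable_update_prod u)).aemeasurable

/-- the law of a translated configuration is the same -/
theorem map_translate {d : ℕ} (v : Fin d → ℤ) :
    (Measure.infinitePi (fun _ : Fin d → ℤ => μ)).map (fun ω x => ω (x + v))
      = Measure.infinitePi (fun _ : Fin d → ℤ => μ) := by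
  have h := Measure.infinitePi_map_piCongrLeft (fun _ : Fin d → ℤ => μ) (Equiv.addRight (-v))
  have h2 : ⇑(MeasurableEquiv.piCongrLeft (fun _ : Fin d → ℤ => ℝ) (Equiv.addRight (-v)))
      = fun (ω : (Fin d → ℤ) → ℝ) x => ω (x + v) := by
    funext ω x
    rw [MeasurableEquiv.coe_piCongrLeft]
    have : x = (Equiv.addRight (-v)) (x + v) := by simp
    conv_lhs => rw [this]
    rw [Equiv.piCongrLeft_apply_apply]
  rw [h2] at h
  exact h

end Pool.Agent.Helper3.Anderson
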