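import Pool.Agent.Helper3.Anderson.Cont
import Pool.Agent.Helper3.Anderson.OneVar
import Pool.Agent.Helper3.Anderson.Resample

open scoped ENNReal NNReal
open MeasureTheory Set

noncomputable section

namespace Pool.Agent.Helper3.Anderson

variable {d : ℕ}

/-- truncation of a real number to `[-M, M]` -/
def clip (M t : ℝ) : ℝ := max (-M) (min M t)

theorem clip_of_abs_le {M t : ℝ} (h : |t| ≤ M) : clip M t = t := by
  rw [abs_le] at h
  rw [clip, min_eq_right h.2, max_eq_right h.1]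

theorem abs_clip_le {M : ℝ} (hM : 0 ≤ M) (t : ℝ) : |clip M t| ≤ M := by
  rw [clip, abs_le]
  constructor
  · exact le_max_left _ _
  · exact max_le (by linarith) (min_le_left _ _)

theorem continuous_clip (M : ℝ) : Continuous (clip M) := by
  unfold clip; fun_prop

/-- truncated random potential -/
def potc (M lam : ℝ) (ω : Site d → ℝ) : Site d → ℝ := fun x => lam * clip M (ω x)

theorem abs_potc_le {M lam : ℝ} (hM : 0 ≤ M) (ω : Site d → ℝ) (x : Site d) :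
    |potc M lam ω x| ≤ |lam| * M := by
  rw [potc, abs_mul]
  exact mul_le_mul_of_nonneg_left (abs_clip_le hM _) (abs_nonneg _)

theorem bdd_potc {M lam : ℝ} (hM : 0 ≤ M) (ω : Site d → ℝ) : Bdd (potc M lam ω) :=
  ⟨_, abs_potc_le hM ω⟩

/-- Green function of the truncated potential -/
def gc (M lam : ℝ) (z : ℂ) (ω : Site d → ℝ) (x y : Site d) : ℂ := green (potc M lam ω) z x y

theorem continuous_gc {M lam : ℝ} (hM : 0 ≤ M) {z : ℂ} (hz0 : 0 < z.im) (x y : Site d) :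
    Continuous fun ω : Site d → ℝ => gc M lam z ω x y := by
  refine continuous_green (fun ω => potc M lam ω) (fun ω => abs_potc_le hM ω) (fun w => ?_) hz0 x y
  exact continuous_const.mul ((continuous_clip M).comp (continuous_apply w))

theorem measurable_gc {M lam : ℝ} (hM : 0 ≤ M) {z : ℂ} (hz0 : 0 < z.im) (x y : Site d) :
    Measurable fun ω : Site d → ℝ => gc M lam z ω x y :=
  (continuous_gc hM hz0 x y).measurable

theorem green_self_ne_zero (V : Site d → ℝ) (hV : Bdd V) {z : ℂ} (hz0 : 0 < z.im) (u : Site d) :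
    green V z u u ≠ 0 := by
  intro h
  have h1 := ward V hV hz0 u
  rw [h, Complex.zero_im] at h1
  have h2 : ‖res V hV z (dl u)‖ = 0 := by
    by_contra hne
    have : 0 < z.im * ‖res V hV z (dl u)‖ ^ 2 := by positivity
    linarith
  have h3 : dl u = 0 := by
    rw [← hz_res V hV hz0.ne' (dl u), norm_eq_zero.1 h2, map_zero]
  have h4 := norm_dl u
  rw [h3, norm_zero] at h4
  norm_num at h4

theorem ennreal_ratio {A D B : ℝ≥0∞} (hD : D ≠ 0) (hD' : D ≠ ⊤) :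
    (A / (D * D)) / (B / D) = A / (D * B) := by
  rw [div_eq_mul_inv, div_eq_mul_inv, div_eq_mul_inv, div_eq_mul_inv,
    ENNReal.mul_inv (Or.inl hD) (Or.inl hD'), ENNReal.mul_inv (Or.inl hD) (Or.inl hD')]
  rw [ENNReal.mul_inv (Or.inr (ENNReal.inv_ne_top.2 hD)) (Or.inr (ENNReal.inv_ne_zero.2 hD')),
    inv_inv]
  calc A * (D⁻¹ * D⁻¹) * (B⁻¹ * D) = A * (D⁻¹ * B⁻¹) * (D⁻¹ * D) := by ring
    _ = A * (D⁻¹ * B⁻¹) := by rw [ENNReal.inv_mul_cancel hD hD', mul_one]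

/-- The ratio `|G(x,u)| |G(u,y)| / |G(x,y)|`. -/
def ratio (M lam : ℝ) (z : ℂ) (x u y : Site d) (ω : Site d → ℝ) : ℝ≥0∞ :=
  (‖gc M lam z ω x u‖ₑ * ‖gc M lam z ω u y‖ₑ) / ‖gc M lam z ω x y‖ₑ

theorem measurable_ratio {M lam : ℝ} (hM : 0 ≤ M) {z : ℂ} (hz0 : 0 < z.im) (x u y : Site d) :
    Measurable (ratio M lam z x u y) := by
  unfold ratio
  exact (((measurable_gc hM hz0 x u).enorm).mul ((measurable_gc hM hz0 u y).enorm)).div
    ((measurable_gc hM hz0 x y).enorm)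

section

variable {M lam : ℝ} {z : ℂ}

/-- explicit dependence of the Green function on one site potential -/
theorem gc_update (hM : 0 ≤ M) (hz0 : 0 < z.im) (ω : Site d → ℝ) (u : Site d) {t : ℝ}
    (ht : |t| ≤ M) :
    (∀ x, gc M lam z (Function.update ω u t) x u
        * (1 + (t : ℂ) * (lam * gc M lam z (Function.update ω u 0) u u))
          = gc M lam z (Function.update ω u 0) x u) ∧
    (∀ y, gc M lam z (Function.update ω u t) u y
        * (1 + (t : ℂ) * (lam * gc M lam z (Function.update ω u 0) u u))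
          = gc M lam z (Function.update ω u 0) u y) ∧
    (∀ x y, gc M lam z (Function.update ω u t) x y
        * (1 + (t : ℂ) * (lam * gc M lam z (Function.update ω u 0) u u))
          = gc M lam z (Function.update ω u 0) x y
            + (t : ℂ) * (lam * (gc M lam z (Function.update ω u 0) x y
                * gc M lam z (Function.update ω u 0) u u
              - gc M lam z (Function.update ω u 0) x u
                * gc M lam z (Function.update ω u 0) u y))) := by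
  set ω0 := Function.update ω u 0 with hω0
  set ωt := Function.update ω u t with hωt
  have hagree : ∀ x, x ≠ u → potc M lam ωt x = potc M lam ω0 x := by
    intro x hx
    simp only [potc, hω0, hωt, Function.update_of_ne hx]
  have hu0 : potc M lam ω0 u = 0 := by
    simp only [potc, hω0, Function.update_self, clip_of_abs_le (t := 0) (by simpa using hM), mul_zero]
  have hut : potc M lam ωt u = lam * t := by
    simp only [potc, hωt, Function.update_self, clip_of_abs_le ht]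
  have h1 := fun x y => green_sub_green (potc M lam ωt) (potc M lam ω0) (bdd_potc hM _)
    (bdd_potc hM _) hz0 u hagree x y
  have h2 := fun x y => green_sub_green (potc M lam ω0) (potc M lam ωt) (bdd_potc hM _)
    (bdd_potc hM _) hz0 u (fun x hx => (hagree x hx).symm) x y
  rw [hu0, hut] at h1 h2
  simp only [gc]
  have hxu : ∀ x, green (potc M lam ωt) z x u
        * (1 + (t : ℂ) * (lam * green (potc M lam ω0) z u u)) = green (potc M lam ω0) z x u := by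
    intro x
    have := h1 x u
    push_cast at this
    linear_combination this
  have huy : ∀ y, green (potc M lam ωt) z u y
        * (1 + (t : ℂ) * (lam * green (potc M lam ω0) z u u)) = green (potc M lam ω0) z u y := by
    intro y
    have := h2 u y
    push_cast at this
    linear_combination -this
  refine ⟨hxu, huy, fun x y => ?_⟩
  have h3 := h1 x y
  push_cast at h3
  have h4 := hxu x
  linear_combination (1 + (t : ℂ) * (lam * green (potc M lam ω0) z u u)) * h3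
    - (t : ℂ) * lam * green (potc M lam ω0) z u y * h4

theorem one_add_ne_zero (hM : 0 ≤ M) (hz0 : 0 < z.im) (ω : Site d → ℝ) (u : Site d) {t : ℝ}
    (ht : |t| ≤ M) :
    1 + (t : ℂ) * (lam * gc M lam z (Function.update ω u 0) u u) ≠ 0 := by
  intro h
  have h1 := (gc_update (lam := lam) hM hz0 ω u ht).1 u
  rw [h, mul_zero] at h1
  exact green_self_ne_zero _ (bdd_potc hM _) hz0 u h1.symm

theorem quasi_alg {L : ℝ} (hL : 0 < L) (p q a τ : ℂ) :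
    ‖p‖ₑ * ‖q‖ₑ / (max ‖(1 : ℂ)‖ₑ ‖(L : ℂ) * τ‖ₑ * max ‖a‖ₑ ‖(L : ℂ) * (a * τ - p * q)‖ₑ)
      ≤ ENNReal.ofReal (2 / L) := by
  refine ENNReal.div_le_of_le_mul ?_
  have h1 : L * (‖p‖ * ‖q‖) ≤ ‖(L : ℂ) * τ‖ * ‖a‖ + ‖(L : ℂ) * (a * τ - p * q)‖ := by
    have h2 : (L : ℂ) * (p * q) = (L : ℂ) * τ * a - (L : ℂ) * (a * τ - p * q) := by ring
    calc L * (‖p‖ * ‖q‖) = ‖(L : ℂ) * (p * q)‖ := by
          rw [norm_mul, norm_mul, Complex.norm_real, Real.norm_eq_abs, abs_of_pos hL]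
      _ ≤ ‖(L : ℂ) * τ * a‖ + ‖(L : ℂ) * (a * τ - p * q)‖ := by rw [h2]; exact norm_sub_le _ _
      _ = _ := by rw [norm_mul ((L : ℂ) * τ) a]
  have h3 : ‖p‖ * ‖q‖ ≤ 2 / L * (max ‖(1 : ℂ)‖ ‖(L : ℂ) * τ‖
      * max ‖a‖ ‖(L : ℂ) * (a * τ - p * q)‖) := by
    rw [div_mul_eq_mul_div, le_div_iff₀ hL]
    have e1 : ‖(L : ℂ) * τ‖ * ‖a‖ ≤ max ‖(1 : ℂ)‖ ‖(L : ℂ) * τ‖
        * max ‖a‖ ‖(L : ℂ) * (a * τ - p * q)‖ := by
      gcongr
      · exact le_max_right _ _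
      · exact le_max_left _ _
    have e2 : ‖(L : ℂ) * (a * τ - p * q)‖ ≤ max ‖(1 : ℂ)‖ ‖(L : ℂ) * τ‖
        * max ‖a‖ ‖(L : ℂ) * (a * τ - p * q)‖ := by
      calc ‖(L : ℂ) * (a * τ - p * q)‖ = 1 * ‖(L : ℂ) * (a * τ - p * q)‖ := (one_mul _).symm
        _ ≤ _ := by
          gcongr
          · exact le_trans (by simp) (le_max_left _ _)
          · exact le_max_right _ _
    linarith
  have e3 : ∀ x y : ℂ, max ‖x‖ₑ ‖y‖ₑ = ENNReal.ofReal (max ‖x‖ ‖y‖) := by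
    intro x y
    rw [← ofReal_norm, ← ofReal_norm, ENNReal.ofReal_max]
  rw [e3, e3, ← ofReal_norm, ← ofReal_norm, ← ENNReal.ofReal_mul (norm_nonneg _),
    ← ENNReal.ofReal_mul (by positivity), ← ENNReal.ofReal_mul (by positivity)]
  exact ENNReal.ofReal_le_ofReal h3

/-- constant of the quasi-triangle inequality -/
def C2 (M lam : ℝ) (K : ℝ≥0) : ℝ≥0∞ := C1 M K * (ENNReal.ofReal (2 / lam)) ^ (1/4 : ℝ)

/-- one-site average of the ratio -/
theorem quasi_one {μ : Measure ℝ} [IsProbabilityMeasure μ] {K : ℝ≥0}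
    (hμ : GoodLaw μ M K) (hlam : 0 < lam) (hz0 : 0 < z.im) (x u y : Site d) (ω : Site d → ℝ) :
    ∫⁻ t, (ratio M lam z x u y (Function.update ω u t)) ^ (1/4 : ℝ) ∂μ ≤ C2 M lam K := by
  have hM : 0 ≤ M := by linarith [hμ.one_le]
  have hae : ∀ᵐ t ∂μ, |t| ≤ M := by
    have : ∀ᵐ t ∂μ, t ∈ Icc (-M) M := by rw [ae_iff]; exact hμ.supp
    filter_upwards [this] with t ht
    exact abs_le.2 ht
  set ω0 := Function.update ω u 0 with hω0
  set p := gc M lam z ω0 x u with hp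
  set q := gc M lam z ω0 u y with hq
  set a := gc M lam z ω0 x y with ha
  set τ := gc M lam z ω0 u u with hτ
  set b : ℂ := lam * (a * τ - p * q) with hb
  set D : ℝ → ℂ := fun t => 1 + (t : ℂ) * (lam * τ) with hD
  have hstep : ∀ᵐ t ∂μ, (ratio M lam z x u y (Function.update ω u t)) ^ (1/4 : ℝ)
      = (‖p‖ₑ * ‖q‖ₑ) ^ (1/4 : ℝ)
        * (‖D t‖ₑ ^ (-(1/4) : ℝ) * ‖a + (t : ℂ) * b‖ₑ ^ (-(1/4) : ℝ)) := by
    filter_upwards [hae] with t ht
    obtain ⟨h1, h2, h3⟩ := gc_update (lam := lam) hM hz0 ω u ht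
    have hne : D t ≠ 0 := one_add_ne_zero hM hz0 ω u ht
    have hDe : ‖D t‖ₑ ≠ 0 := by simpa using hne
    have hDt : ‖D t‖ₑ ≠ ⊤ := enorm_ne_top
    have g1 : ‖gc M lam z (Function.update ω u t) x u‖ₑ = ‖p‖ₑ / ‖D t‖ₑ := by
      rw [ENNReal.eq_div_iff hDe hDt, mul_comm, ← enorm_mul]
      exact congrArg _ (h1 x)
    have g2 : ‖gc M lam z (Function.update ω u t) u y‖ₑ = ‖q‖ₑ / ‖D t‖ₑ := by
      rw [ENNReal.eq_div_iff hDe hDt, mul_comm, ← enorm_mul]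
      exact congrArg _ (h2 y)
    have g3 : ‖gc M lam z (Function.update ω u t) x y‖ₑ = ‖a + (t : ℂ) * b‖ₑ / ‖D t‖ₑ := by
      rw [ENNReal.eq_div_iff hDe hDt, mul_comm, ← enorm_mul]
      exact congrArg _ (h3 x y)
    have g4 : ratio M lam z x u y (Function.update ω u t)
        = (‖p‖ₑ * ‖q‖ₑ) / (‖D t‖ₑ * ‖a + (t : ℂ) * b‖ₑ) := by
      rw [ratio, g1, g2, g3, ← ennreal_ratio hDe hDt]
      congr 1
      rw [div_eq_mul_inv, div_eq_mul_inv, div_eq_mul_inv,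
        ENNReal.mul_inv (Or.inl hDe) (Or.inl hDt)]
      ring
    have g5 : ((‖D t‖ₑ * ‖a + (t : ℂ) * b‖ₑ) ^ (1/4 : ℝ))⁻¹
        = ‖D t‖ₑ ^ (-(1/4) : ℝ) * ‖a + (t : ℂ) * b‖ₑ ^ (-(1/4) : ℝ) := by
      rw [ENNReal.mul_rpow_of_nonneg _ _ (by norm_num : (0 : ℝ) ≤ 1/4),
        ENNReal.mul_inv (Or.inl ?_) (Or.inl ?_), ENNReal.rpow_neg, ENNReal.rpow_neg]
      · exact (ENNReal.rpow_pos (pos_iff_ne_zero.2 hDe) hDt).ne'
      · exact ENNReal.rpow_ne_top_of_nonneg (by norm_num) hDt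
    rw [g4, ENNReal.div_rpow_of_nonneg _ _ (by norm_num), ← g5]
    rfl
  have hmD : Measurable fun t : ℝ => ‖D t‖ₑ := by
    simp only [hD]; fun_prop
  have hmB : Measurable fun t : ℝ => ‖a + (t : ℂ) * b‖ₑ := by fun_prop
  have hcs : ∫⁻ t, ‖D t‖ₑ ^ (-(1/4) : ℝ) * ‖a + (t : ℂ) * b‖ₑ ^ (-(1/4) : ℝ) ∂μ
      ≤ (∫⁻ t, ‖D t‖ₑ ^ (-(1/2) : ℝ) ∂μ) ^ (1/2 : ℝ)
        * (∫⁻ t, ‖a + (t : ℂ) * b‖ₑ ^ (-(1/2) : ℝ) ∂μ) ^ (1/2 : ℝ) := by
    have := ENNReal.lintegral_mul_le_Lp_mul_Lq μ Real.HolderConjugate.two_two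
      (f := fun t => ‖D t‖ₑ ^ (-(1/4) : ℝ)) (g := fun t => ‖a + (t : ℂ) * b‖ₑ ^ (-(1/4) : ℝ))
      (hmD.pow_const _).aemeasurable (hmB.pow_const _).aemeasurable
    simp only [Pi.mul_apply, ← ENNReal.rpow_mul] at this
    norm_num at this ⊢
    exact this
  have hD1 : ∫⁻ t, ‖D t‖ₑ ^ (-(1/2) : ℝ) ∂μ
      ≤ C1 M K * (max ‖(1 : ℂ)‖ₑ ‖(lam : ℂ) * τ‖ₑ) ^ (-(1/2) : ℝ) :=
    lintegral_affine hμ 1 ((lam : ℂ) * τ)
  have hB1 : ∫⁻ t, ‖a + (t : ℂ) * b‖ₑ ^ (-(1/2) : ℝ) ∂μ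
      ≤ C1 M K * (max ‖a‖ₑ ‖b‖ₑ) ^ (-(1/2) : ℝ) := lintegral_affine hμ a b
  set X1 := max ‖(1 : ℂ)‖ₑ ‖(lam : ℂ) * τ‖ₑ with hX1
  set X2 := max ‖a‖ₑ ‖b‖ₑ with hX2
  have hX1' : X1 ≠ 0 := by
    have : (0 : ℝ≥0∞) < ‖(1 : ℂ)‖ₑ := by simp
    exact (lt_of_lt_of_le this (le_max_left _ _)).ne'
  have hX1'' : X1 ≠ ⊤ := max_ne_top enorm_ne_top enorm_ne_top
  calc ∫⁻ t, (ratio M lam z x u y (Function.update ω u t)) ^ (1/4 : ℝ) ∂μ
      = ∫⁻ t, (‖p‖ₑ * ‖q‖ₑ) ^ (1/4 : ℝ)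
        * (‖D t‖ₑ ^ (-(1/4) : ℝ) * ‖a + (t : ℂ) * b‖ₑ ^ (-(1/4) : ℝ)) ∂μ :=
        lintegral_congr_ae hstep
    _ = (‖p‖ₑ * ‖q‖ₑ) ^ (1/4 : ℝ)
        * ∫⁻ t, ‖D t‖ₑ ^ (-(1/4) : ℝ) * ‖a + (t : ℂ) * b‖ₑ ^ (-(1/4) : ℝ) ∂μ := by
        rw [lintegral_const_mul]
        exact (hmD.pow_const _).mul (hmB.pow_const _)
    _ ≤ (‖p‖ₑ * ‖q‖ₑ) ^ (1/4 : ℝ)
        * ((C1 M K * X1 ^ (-(1/2) : ℝ)) ^ (1/2 : ℝ) * (C1 M K * X2 ^ (-(1/2) : ℝ)) ^ (1/2 : ℝ)) := by
        gcongr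
        refine hcs.trans ?_
        gcongr
    _ = C1 M K * ((‖p‖ₑ * ‖q‖ₑ) ^ (1/4 : ℝ) * (X1 * X2) ^ (-(1/4) : ℝ)) := by
        rw [ENNReal.mul_rpow_of_nonneg _ _ (by norm_num : (0 : ℝ) ≤ 1/2),
          ENNReal.mul_rpow_of_nonneg _ _ (by norm_num : (0 : ℝ) ≤ 1/2),
          ← ENNReal.rpow_mul, ← ENNReal.rpow_mul]
        have h5 : (C1 M K) ^ (1/2 : ℝ) * (C1 M K) ^ (1/2 : ℝ) = C1 M K := by
          rw [← ENNReal.rpow_add_of_nonneg _ _ (by norm_num) (by norm_num)]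
          norm_num
        have h6 : (X1 * X2) ^ (-(1/4) : ℝ) = X1 ^ (-(1/4) : ℝ) * X2 ^ (-(1/4) : ℝ) := by
          rw [ENNReal.rpow_neg, ENNReal.rpow_neg, ENNReal.rpow_neg,
            ENNReal.mul_rpow_of_nonneg _ _ (by norm_num : (0 : ℝ) ≤ 1/4),
            ENNReal.mul_inv (Or.inl ?_) (Or.inl ?_)]
          · exact (ENNReal.rpow_pos (pos_iff_ne_zero.2 hX1') hX1'').ne'
          · exact ENNReal.rpow_ne_top_of_nonneg (by norm_num) hX1''
        have h7 : (-(1/2) * (1/2) : ℝ) = -(1/4) := by norm_num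
        rw [h6, h7]
        calc _ = ((C1 M K) ^ (1/2 : ℝ) * (C1 M K) ^ (1/2 : ℝ))
              * ((‖p‖ₑ * ‖q‖ₑ) ^ (1/4 : ℝ) * (X1 ^ (-(1/4) : ℝ) * X2 ^ (-(1/4) : ℝ))) := by ring
          _ = _ := by rw [h5]
    _ = C1 M K * ((‖p‖ₑ * ‖q‖ₑ) / (X1 * X2)) ^ (1/4 : ℝ) := by
        rw [ENNReal.div_rpow_of_nonneg _ _ (by norm_num), ENNReal.rpow_neg]
        rfl
    _ ≤ C1 M K * (ENNReal.ofReal (2 / lam)) ^ (1/4 : ℝ) := by
        gcongr
        exact quasi_alg hlam p q a τ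
    _ = C2 M lam K := rfl

/-- **random quasi-triangle inequality** for the Green function -/
theorem quasi {μ : Measure ℝ} [IsProbabilityMeasure μ] {K : ℝ≥0}
    (hμ : GoodLaw μ M K) (hlam : 0 < lam) (hz0 : 0 < z.im) (x u y : Site d) :
    ∫⁻ ω, (ratio M lam z x u y ω) ^ (1/4 : ℝ) ∂(Measure.infinitePi (fun _ : Site d => μ))
      ≤ C2 M lam K := by
  have hM : 0 ≤ M := by linarith [hμ.one_le]
  rw [lintegral_resample u ((measurable_ratio hM hz0 x u y).pow_const _)]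
  calc _ ≤ ∫⁻ _ω, C2 M lam K ∂(Measure.infinitePi (fun _ : Site d => μ)) :=
        lintegral_mono fun ω => quasi_one hμ hlam hz0 x u y ω
    _ = C2 M lam K := by rw [lintegral_const, measure_univ, mul_one]

end

end Pool.Agent.Helper3.Anderson
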