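import Pool.Agent.Helper3.Anderson.Basic

open scoped ENNReal InnerProductSpace
open Filter Topology

noncomputable section

namespace Pool.Agent.Helper3.Anderson

variable {d : ℕ}

theorem hz_sub_hz (V W : Site d → ℝ) (hV : Bdd V) (hW : Bdd W) (z : ℂ) (ψ : L2 d) (x : Site d) :
    (hz W hW z ψ - hz V hV z ψ : L2 d) x = ((W x - V x : ℝ) : ℂ) * ψ x := by
  simp only [hz, sub_apply, smul_apply, lp.coeFn_sub, Pi.sub_apply, schr_apply]
  push_cast
  ring

/-- second resolvent identity -/
theorem res_sub_res (V W : Site d → ℝ) (hV : Bdd V) (hW : Bdd W) {z : ℂ} (hz0 : 0 < z.im)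
    (ψ : L2 d) :
    res V hV z ψ - res W hW z ψ
      = res V hV z (hz W hW z (res W hW z ψ) - hz V hV z (res W hW z ψ)) := by
  rw [map_sub, hz_res W hW hz0.ne', res_hz V hV hz0.ne']

/-- one-site resolvent identity for the Green function -/
theorem green_sub_green (V W : Site d → ℝ) (hV : Bdd V) (hW : Bdd W) {z : ℂ} (hz0 : 0 < z.im)
    (u : Site d) (h : ∀ x, x ≠ u → V x = W x) (x y : Site d) :
    green V z x y - green W z x y
      = ((W u - V u : ℝ) : ℂ) * (green V z x u * green W z u y) := by
  have h1 := res_sub_res V W hV hW hz0 (dl y)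
  have h2 : hz W hW z (res W hW z (dl y)) - hz V hV z (res W hW z (dl y))
      = (((W u - V u : ℝ) : ℂ) * green W z u y) • dl u := by
    ext w
    rw [hz_sub_hz V W hV hW z]
    rw [lp.coeFn_smul, Pi.smul_apply, dl_apply, smul_eq_mul, green_eq W hW]
    by_cases hw : w = u
    · subst hw; simp
    · rw [h w hw]; simp [hw]
  rw [h2, map_smul] at h1
  have h3 := congrArg (fun φ : L2 d => φ x) h1
  simp only [lp.coeFn_sub, Pi.sub_apply, lp.coeFn_smul, Pi.smul_apply, smul_eq_mul] at h3
  rw [← green_eq V hV, ← green_eq W hW, ← green_eq V hV] at h3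
  rw [h3]; ring

theorem Bdd.comp_add {V : Site d → ℝ} (hV : Bdd V) (v : Site d) : Bdd (fun x => V (x + v)) := by
  obtain ⟨M, hM⟩ := hV
  exact ⟨M, fun x => hM _⟩

theorem shift_dl (v y : Site d) : shift v (dl (y + v)) = dl y := by
  ext x
  rw [shift_apply, dl_apply, dl_apply]
  simp

theorem hz_shift (V : Site d → ℝ) (hV : Bdd V) (z : ℂ) (v : Site d) (ψ : L2 d) :
    hz (fun x => V (x + v)) (hV.comp_add v) z (shift v ψ) = shift v (hz V hV z ψ) := by
  ext x
  rw [shift_apply]
  simp only [hz, sub_apply, smul_apply, lp.coeFn_sub, Pi.sub_apply, schr_apply, lap,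
    one_apply_eq_self, lp.coeFn_smul, Pi.smul_apply, shift_apply]
  simp only [add_right_comm, sub_add_eq_add_sub]

/-- translation covariance of the Green function -/
theorem green_translate (V : Site d → ℝ) (hV : Bdd V) {z : ℂ} (hz0 : 0 < z.im)
    (v x y : Site d) :
    green (fun w => V (w + v)) z x y = green V z (x + v) (y + v) := by
  rw [green_eq _ (hV.comp_add v), green_eq V hV]
  have h1 : res (fun w => V (w + v)) (hV.comp_add v) z (dl y)
      = shift v (res V hV z (dl (y + v))) := by
    have h2 := hz_shift V hV z v (res V hV z (dl (y + v)))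
    rw [hz_res V hV hz0.ne', shift_dl] at h2
    rw [← h2, res_hz _ _ hz0.ne']
  rw [h1, shift_apply]

/-- Green's equation: `(-Δ + V - z) G(·, y) = δ_y` -/
theorem green_equation (V : Site d → ℝ) (hV : Bdd V) {z : ℂ} (hz0 : 0 < z.im) (x y : Site d) :
    - lap (fun w => green V z w y) x + (V x : ℂ) * green V z x y - z * green V z x y
      = if x = y then 1 else 0 := by
  have h1 := hz_res V hV hz0.ne' (dl y)
  have h2 := congrArg (fun φ : L2 d => φ x) h1
  simp only [dl_apply] at h2
  rw [← h2]
  simp only [hz, sub_apply, smul_apply, lp.coeFn_sub, Pi.sub_apply, schr_apply,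
    one_apply_eq_self, lp.coeFn_smul, Pi.smul_apply, smul_eq_mul, lap, green_eq V hV]

end Pool.Agent.Helper3.Anderson
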